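import Mathlib

/-!
Deterministic part of the parking process: cars at the same site are indistinguishable, the
`i`-th unparked car at `y` at time `t` steps to `ξ (t, y, i)` unless it is killed, which happens
when `b (t, y, i) = true`.
-/

namespace Pool.Agent.TH996.Park

open Finset

variable {V : Type*} [DecidableEq V]

/-- Arrivals at `x` at time `t + 1` when `c y` unparked cars are at `y` at time `t`. -/
def arr (nb : V → Finset V) (ξ : ℕ × V × ℕ → V) (b : ℕ × V × ℕ → Bool) (c : V → ℕ) (t : ℕ)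
    (x : V) : ℕ :=
  ∑ y ∈ nb x, ((range (c y)).filter fun i => b (t, y, i) = false ∧ ξ (t, y, i) = x).card

/-- Unparked cars and free spots at time `t`. -/
def st (nb : V → Finset V) (ξ : ℕ × V × ℕ → V) (b : ℕ × V × ℕ → Bool) (c0 f0 : V → ℕ) :
    ℕ → (V → ℕ) × (V → ℕ)
  | 0 => (c0, f0)
  | t + 1 => (fun x => arr nb ξ b (st nb ξ b c0 f0 t).1 t x - (st nb ξ b c0 f0 t).2 x,
      fun x => (st nb ξ b c0 f0 t).2 x - arr nb ξ b (st nb ξ b c0 f0 t).1 t x)

/-- unparked cars -/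
def cs (nb : V → Finset V) (ξ : ℕ × V × ℕ → V) (b : ℕ × V × ℕ → Bool) (c0 f0 : V → ℕ)
    (t : ℕ) (x : V) : ℕ := (st nb ξ b c0 f0 t).1 x

/-- free spots -/
def fr (nb : V → Finset V) (ξ : ℕ × V × ℕ → V) (b : ℕ × V × ℕ → Bool) (c0 f0 : V → ℕ)
    (t : ℕ) (x : V) : ℕ := (st nb ξ b c0 f0 t).2 x

/-- arrivals along the evolution -/
def ar (nb : V → Finset V) (ξ : ℕ × V × ℕ → V) (b : ℕ × V × ℕ → Bool) (c0 f0 : V → ℕ)
    (t : ℕ) (x : V) : ℕ := arr nb ξ b (st nb ξ b c0 f0 t).1 t x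

variable (nb : V → Finset V) (ξ : ℕ × V × ℕ → V) (b : ℕ × V × ℕ → Bool) (c0 f0 : V → ℕ)

@[simp] lemma cs_zero (x : V) : cs nb ξ b c0 f0 0 x = c0 x := rfl
@[simp] lemma fr_zero (x : V) : fr nb ξ b c0 f0 0 x = f0 x := rfl

lemma cs_succ (t : ℕ) (x : V) :
    cs nb ξ b c0 f0 (t + 1) x = ar nb ξ b c0 f0 t x - fr nb ξ b c0 f0 t x := rfl

lemma fr_succ (t : ℕ) (x : V) :
    fr nb ξ b c0 f0 (t + 1) x = fr nb ξ b c0 f0 t x - ar nb ξ b c0 f0 t x := rfl

lemma ar_eq (t : ℕ) (x : V) : ar nb ξ b c0 f0 t x =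
    ∑ y ∈ nb x, ((range (cs nb ξ b c0 f0 t y)).filter
      fun i => b (t, y, i) = false ∧ ξ (t, y, i) = x).card := rfl

lemma bal (t : ℕ) (x : V) :
    (cs nb ξ b c0 f0 (t + 1) x : ℝ) - fr nb ξ b c0 f0 (t + 1) x =
      ar nb ξ b c0 f0 t x - fr nb ξ b c0 f0 t x := by
  rw [cs_succ, fr_succ]
  rcases le_total (ar nb ξ b c0 f0 t x) (fr nb ξ b c0 f0 t x) with h | h
  · rw [Nat.sub_eq_zero_of_le h, Nat.cast_sub h]; push_cast; ring
  · rw [Nat.sub_eq_zero_of_le h, Nat.cast_sub h]; push_cast; ring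

lemma fr_le (t : ℕ) (x : V) : fr nb ξ b c0 f0 t x ≤ f0 x := by
  induction t with
  | zero => simp
  | succ t ih => rw [fr_succ]; omega

lemma fr_anti {s t : ℕ} (h : s ≤ t) (x : V) :
    fr nb ξ b c0 f0 t x ≤ fr nb ξ b c0 f0 s x := by
  induction t, h using Nat.le_induction with
  | base => rfl
  | succ t _ ih => rw [fr_succ]; omega

/-- If the spot at `x` is free at time `T`, no unparked car was at `x` up to time `T`. -/
lemma cs_eq_zero (x : V) (h1 : c0 x + f0 x = 1) (T t : ℕ) (ht : t ≤ T)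
    (hf : 0 < fr nb ξ b c0 f0 T x) : cs nb ξ b c0 f0 t x = 0 := by
  have hft : 0 < fr nb ξ b c0 f0 t x := lt_of_lt_of_le hf (fr_anti nb ξ b c0 f0 ht x)
  cases t with
  | zero =>
    have := fr_le nb ξ b c0 f0 0 x
    simp only [cs_zero]
    simp only [fr_zero] at hft
    omega
  | succ t =>
    rw [fr_succ] at hft
    have := fr_le nb ξ b c0 f0 t x
    rw [cs_succ]; omega

lemma fr_mul_cs (x : V) (h1 : c0 x + f0 x = 1) (T t : ℕ) (ht : t ≤ T) :
    (fr nb ξ b c0 f0 T x : ℝ) * cs nb ξ b c0 f0 t x = 0 := by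
  rcases Nat.eq_zero_or_pos (fr nb ξ b c0 f0 T x) with h | h
  · simp [h]
  · simp [cs_eq_zero nb ξ b c0 f0 x h1 T t ht h]

/-- Total number of departures before time `T`. -/
def dep (T : ℕ) (x : V) : ℕ := ∑ t ∈ range T, cs nb ξ b c0 f0 t x

/-- Total number of visits up to time `T`. -/
def vis (T : ℕ) (x : V) : ℕ := ∑ t ∈ range T, ar nb ξ b c0 f0 t x

lemma dep_eq (T : ℕ) (x : V) : (dep nb ξ b c0 f0 T x : ℝ) =
    vis nb ξ b c0 f0 T x + ((c0 x : ℝ) - f0 x) + fr nb ξ b c0 f0 T x - cs nb ξ b c0 f0 T x := by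
  induction T with
  | zero => simp [dep, vis]
  | succ T ih =>
    have h := bal nb ξ b c0 f0 T x
    have e1 : (dep nb ξ b c0 f0 (T + 1) x : ℝ) = dep nb ξ b c0 f0 T x + cs nb ξ b c0 f0 T x := by
      simp [dep, sum_range_succ]
    have e2 : (vis nb ξ b c0 f0 (T + 1) x : ℝ) = vis nb ξ b c0 f0 T x + ar nb ξ b c0 f0 T x := by
      simp [vis, sum_range_succ]
    rw [e1, e2, ih]
    linarith

lemma fr_mul_dep (x : V) (h1 : c0 x + f0 x = 1) (T : ℕ) :
    (fr nb ξ b c0 f0 T x : ℝ) * dep nb ξ b c0 f0 T x = 0 := by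
  unfold dep
  push_cast
  rw [mul_sum]
  refine sum_eq_zero fun t ht => ?_
  exact fr_mul_cs nb ξ b c0 f0 x h1 T t (mem_range.1 ht).le

/-- Deterministic bound for the number of unparked cars. -/
def bd (nb : V → Finset V) : ℕ → V → ℕ
  | 0, _ => 1
  | t + 1, x => ∑ y ∈ nb x, bd nb t y

lemma ar_le_sum (t : ℕ) (x : V) :
    ar nb ξ b c0 f0 t x ≤ ∑ y ∈ nb x, cs nb ξ b c0 f0 t y := by
  rw [ar_eq]
  refine sum_le_sum fun y _ => ?_
  exact (card_filter_le _ _).trans (by simp)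

lemma cs_le_bd (h0 : ∀ x, c0 x ≤ 1) (t : ℕ) (x : V) : cs nb ξ b c0 f0 t x ≤ bd nb t x := by
  induction t generalizing x with
  | zero => simpa [bd] using h0 x
  | succ t ih =>
    rw [cs_succ]
    calc _ ≤ ar nb ξ b c0 f0 t x := Nat.sub_le _ _
      _ ≤ ∑ y ∈ nb x, cs nb ξ b c0 f0 t y := ar_le_sum nb ξ b c0 f0 t x
      _ ≤ _ := sum_le_sum fun y _ => ih y

lemma ar_le_bd (h0 : ∀ x, c0 x ≤ 1) (t : ℕ) (x : V) : ar nb ξ b c0 f0 t x ≤ bd nb (t + 1) x :=
  (ar_le_sum nb ξ b c0 f0 t x).trans (sum_le_sum fun y _ => cs_le_bd nb ξ b c0 f0 h0 t y)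

/-! ### Monotonicity and discrepancies -/

variable (c0' f0' : V → ℕ)

lemma mono (hc : ∀ x, c0 x ≤ c0' x) (hf : ∀ x, f0' x ≤ f0 x) (t : ℕ) :
    (∀ x, cs nb ξ b c0 f0 t x ≤ cs nb ξ b c0' f0' t x) ∧
    (∀ x, fr nb ξ b c0' f0' t x ≤ fr nb ξ b c0 f0 t x) := by
  induction t with
  | zero => exact ⟨hc, hf⟩
  | succ t ih =>
    have ha : ∀ x, ar nb ξ b c0 f0 t x ≤ ar nb ξ b c0' f0' t x := by
      intro x
      rw [ar_eq, ar_eq]
      refine sum_le_sum fun y _ => card_le_card ?_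
      exact filter_subset_filter _ (range_subset_range.2 (ih.1 y))
    constructor
    · intro x
      rw [cs_succ, cs_succ]
      have := ha x; have := ih.2 x
      omega
    · intro x
      rw [fr_succ, fr_succ]
      have := ha x; have := ih.2 x
      omega

lemma card_filter_diff (m n : ℕ) (h : m ≤ n) (P : ℕ → Prop) [DecidablePred P] :
    (((range n).filter P).card : ℝ) - ((range m).filter P).card =
      (((Ico m n).filter P).card : ℝ) := by
  have e : (range n).filter P = (range m).filter P ∪ (Ico m n).filter P := by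
    ext i; simp only [mem_filter, mem_range, mem_union, mem_Ico]
    constructor
    · rintro ⟨h1, h2⟩
      rcases lt_or_ge i m with h3 | h3
      · exact Or.inl ⟨h3, h2⟩
      · exact Or.inr ⟨⟨h3, h1⟩, h2⟩
    · rintro (⟨h1, h2⟩ | ⟨⟨h1, h2⟩, h3⟩)
      · exact ⟨by omega, h2⟩
      · exact ⟨h2, h3⟩
  have hd : Disjoint ((range m).filter P) ((Ico m n).filter P) := by
    rw [disjoint_left]
    intro i hi hi2
    simp only [mem_filter, mem_range, mem_Ico] at hi hi2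
    omega
  rw [e, card_union_of_disjoint hd]
  push_cast; ring

/-- Total discrepancy over a finite set does not exceed the initial one. -/
lemma disc (hc : ∀ x, c0 x ≤ c0' x) (hf : ∀ x, f0' x ≤ f0 x) (C : ℝ)
    (h0 : ∀ S : Finset V, ∑ z ∈ S, (((c0' z : ℝ) - c0 z) + ((f0 z : ℝ) - f0' z)) ≤ C) (t : ℕ) :
    ∀ S : Finset V, ∑ z ∈ S, (((cs nb ξ b c0' f0' t z : ℝ) - cs nb ξ b c0 f0 t z) +
      ((fr nb ξ b c0 f0 t z : ℝ) - fr nb ξ b c0' f0' t z)) ≤ C := by
  induction t with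
  | zero => exact h0
  | succ t ih =>
    intro S
    have hm := mono nb ξ b c0 f0 c0' f0' hc hf t
    have e1 : ∀ z, (((cs nb ξ b c0' f0' (t + 1) z : ℝ) - cs nb ξ b c0 f0 (t + 1) z) +
      ((fr nb ξ b c0 f0 (t + 1) z : ℝ) - fr nb ξ b c0' f0' (t + 1) z)) =
      ((ar nb ξ b c0' f0' t z : ℝ) - ar nb ξ b c0 f0 t z) +
      ((fr nb ξ b c0 f0 t z : ℝ) - fr nb ξ b c0' f0' t z) := by
      intro z
      have h1 := bal nb ξ b c0' f0' t z
      have h2 := bal nb ξ b c0 f0 t z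
      linarith
    simp_rw [e1]
    rw [sum_add_distrib]
    set S' := S.biUnion nb with hS'
    have e2 : ∑ z ∈ S, ((ar nb ξ b c0' f0' t z : ℝ) - ar nb ξ b c0 f0 t z) ≤
        ∑ y ∈ S', ((cs nb ξ b c0' f0' t y : ℝ) - cs nb ξ b c0 f0 t y) := by
      have e3 : ∀ z ∈ S, ((ar nb ξ b c0' f0' t z : ℝ) - ar nb ξ b c0 f0 t z) ≤
          ∑ y ∈ S', ((((Ico (cs nb ξ b c0 f0 t y) (cs nb ξ b c0' f0' t y)).filter
            fun i => b (t, y, i) = false ∧ ξ (t, y, i) = z).card : ℕ) : ℝ) := by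
        intro z hz
        rw [ar_eq, ar_eq]
        push_cast
        rw [← sum_sub_distrib]
        have hsub : nb z ⊆ S' := subset_biUnion_of_mem nb hz
        calc _ = ∑ y ∈ nb z, ((((Ico (cs nb ξ b c0 f0 t y) (cs nb ξ b c0' f0' t y)).filter
            fun i => b (t, y, i) = false ∧ ξ (t, y, i) = z).card : ℕ) : ℝ) :=
              sum_congr rfl fun y _ => card_filter_diff _ _ (hm.1 y) _
          _ ≤ _ := sum_le_sum_of_subset_of_nonneg hsub fun _ _ _ => Nat.cast_nonneg _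
      calc _ ≤ ∑ z ∈ S, ∑ y ∈ S', ((((Ico (cs nb ξ b c0 f0 t y) (cs nb ξ b c0' f0' t y)).filter
            fun i => b (t, y, i) = false ∧ ξ (t, y, i) = z).card : ℕ) : ℝ) := sum_le_sum e3
        _ = ∑ y ∈ S', ∑ z ∈ S, ((((Ico (cs nb ξ b c0 f0 t y) (cs nb ξ b c0' f0' t y)).filter
            fun i => b (t, y, i) = false ∧ ξ (t, y, i) = z).card : ℕ) : ℝ) := sum_comm
        _ ≤ _ := by
          refine sum_le_sum fun y _ => ?_
          have h3 : ∑ z ∈ S, ((Ico (cs nb ξ b c0 f0 t y) (cs nb ξ b c0' f0' t y)).filter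
              fun i => b (t, y, i) = false ∧ ξ (t, y, i) = z).card ≤
              (Ico (cs nb ξ b c0 f0 t y) (cs nb ξ b c0' f0' t y)).card := by
            rw [← card_biUnion]
            · refine card_le_card ?_
              intro i hi
              simp only [mem_biUnion, mem_filter] at hi
              obtain ⟨z, _, h, _⟩ := hi
              exact h
            · intro z _ z' _ hzz
              rw [Function.onFun, disjoint_left]
              intro i hi hi'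
              simp only [mem_filter] at hi hi'
              exact hzz (hi.2.2.symm.trans hi'.2.2)
          rw [Nat.card_Ico] at h3
          have h4 := hm.1 y
          rw [← Nat.cast_sub h4]
          exact_mod_cast h3
    have e4 : ∑ z ∈ S, ((fr nb ξ b c0 f0 t z : ℝ) - fr nb ξ b c0' f0' t z) ≤
        ∑ z ∈ S' ∪ S, ((fr nb ξ b c0 f0 t z : ℝ) - fr nb ξ b c0' f0' t z) := by
      refine sum_le_sum_of_subset_of_nonneg subset_union_right fun z _ _ => ?_
      have := hm.2 z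
      rw [sub_nonneg]; exact_mod_cast this
    have e5 : ∑ y ∈ S', ((cs nb ξ b c0' f0' t y : ℝ) - cs nb ξ b c0 f0 t y) ≤
        ∑ y ∈ S' ∪ S, ((cs nb ξ b c0' f0' t y : ℝ) - cs nb ξ b c0 f0 t y) := by
      refine sum_le_sum_of_subset_of_nonneg subset_union_left fun z _ _ => ?_
      have := hm.1 z
      rw [sub_nonneg]; exact_mod_cast this
    calc _ ≤ ∑ z ∈ S' ∪ S, ((cs nb ξ b c0' f0' t z : ℝ) - cs nb ξ b c0 f0 t z) +
        ∑ z ∈ S' ∪ S, ((fr nb ξ b c0 f0 t z : ℝ) - fr nb ξ b c0' f0' t z) :=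
          add_le_add (e2.trans e5) e4
      _ = _ := (sum_add_distrib).symm
      _ ≤ C := ih _

/-! ### Locality -/

lemma st_congr {ξ ξ' : ℕ × V × ℕ → V} {b b' : ℕ × V × ℕ → Bool} (T : ℕ)
    (h : ∀ t < T, ∀ y i, ξ (t, y, i) = ξ' (t, y, i) ∧ b (t, y, i) = b' (t, y, i)) :
    st nb ξ b c0 f0 T = st nb ξ' b' c0 f0 T := by
  induction T with
  | zero => rfl
  | succ T ih =>
    have ih' := ih fun t ht => h t (by omega)
    have e : ∀ x, arr nb ξ b (st nb ξ b c0 f0 T).1 T x =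
        arr nb ξ' b' (st nb ξ' b' c0 f0 T).1 T x := by
      intro x
      unfold arr
      rw [ih']
      refine sum_congr rfl fun y _ => ?_
      congr 1
      refine filter_congr fun i _ => ?_
      rw [(h T (by omega) y i).1, (h T (by omega) y i).2]
    unfold st
    rw [ih'] at e ⊢
    simp only [e]

/-- `cs` and `fr` at time `T` only depend on finitely many of the killing variables. -/
lemma exists_finite_dep (T : ℕ) (x : V) :
    ∃ A : Finset (ℕ × V × ℕ), ∀ (c0 f0 : V → ℕ), (∀ x, c0 x ≤ 1) → ∀ (ξ : ℕ × V × ℕ → V)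
      (b : ℕ × V × ℕ → Bool), (∀ a ∈ A, b a = false) →
      cs nb ξ b c0 f0 T x = cs nb ξ (fun _ => false) c0 f0 T x ∧
      fr nb ξ b c0 f0 T x = fr nb ξ (fun _ => false) c0 f0 T x := by

  induction T generalizing x with
  | zero => exact ⟨∅, fun _ _ _ _ _ _ => ⟨rfl, rfl⟩⟩
  | succ T ih =>
    choose A hA using ih
    refine ⟨A x ∪ (nb x).biUnion A ∪ (nb x).biUnion (fun y => (range (bd nb T y)).image
      fun i => (T, y, i)), ?_⟩
    intro c0 f0 h0 ξ b hb
    have h1 := hA x c0 f0 h0 ξ b fun a ha => hb a (by simp [ha])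
    have h2 : ar nb ξ b c0 f0 T x = ar nb ξ (fun _ => false) c0 f0 T x := by
      rw [ar_eq, ar_eq]
      refine sum_congr rfl fun y hy => ?_
      have h3 := (hA y c0 f0 h0 ξ b fun a ha => hb a (by
        simp only [mem_union, mem_biUnion]
        exact Or.inl (Or.inr ⟨y, hy, ha⟩))).1
      rw [h3]
      congr 1
      refine filter_congr fun i hi => ?_
      have h4 : b (T, y, i) = false := by
        refine hb _ ?_
        simp only [mem_union, mem_biUnion]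
        refine Or.inr ⟨y, hy, ?_⟩
        rw [mem_image]
        refine ⟨i, ?_, rfl⟩
        rw [mem_range] at hi ⊢
        rw [← h3] at hi
        exact lt_of_lt_of_le hi (cs_le_bd nb ξ b c0 f0 h0 T y)
      simp [h4]
    rw [cs_succ, cs_succ, fr_succ, fr_succ, h2, h1.2]
    exact ⟨rfl, rfl⟩

/-! ### Equivariance -/

lemma equiv_st (γ : Equiv.Perm V) (hnb : ∀ x, nb (γ x) = (nb x).image γ) (T : ℕ) :
    ∀ x, cs nb (fun a => γ (ξ (a.1, γ.symm a.2.1, a.2.2))) (fun a => b (a.1, γ.symm a.2.1, a.2.2))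
      (c0 ∘ γ.symm) (f0 ∘ γ.symm) T (γ x) = cs nb ξ b c0 f0 T x ∧
      fr nb (fun a => γ (ξ (a.1, γ.symm a.2.1, a.2.2))) (fun a => b (a.1, γ.symm a.2.1, a.2.2))
      (c0 ∘ γ.symm) (f0 ∘ γ.symm) T (γ x) = fr nb ξ b c0 f0 T x ∧
      ar nb (fun a => γ (ξ (a.1, γ.symm a.2.1, a.2.2))) (fun a => b (a.1, γ.symm a.2.1, a.2.2))
      (c0 ∘ γ.symm) (f0 ∘ γ.symm) T (γ x) = ar nb ξ b c0 f0 T x := by
  have key : ∀ T, (∀ x, cs nb (fun a => γ (ξ (a.1, γ.symm a.2.1, a.2.2)))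
      (fun a => b (a.1, γ.symm a.2.1, a.2.2))
      (c0 ∘ γ.symm) (f0 ∘ γ.symm) T (γ x) = cs nb ξ b c0 f0 T x) →
      ∀ x, ar nb (fun a => γ (ξ (a.1, γ.symm a.2.1, a.2.2)))
      (fun a => b (a.1, γ.symm a.2.1, a.2.2))
      (c0 ∘ γ.symm) (f0 ∘ γ.symm) T (γ x) = ar nb ξ b c0 f0 T x := by
    intro T h x
    rw [ar_eq, ar_eq, hnb, sum_image (fun a _ b _ h => γ.injective h)]
    refine sum_congr rfl fun y _ => ?_
    rw [h y]
    congr 1
    refine filter_congr fun i _ => ?_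
    simp
  induction T with
  | zero =>
    intro x
    refine ⟨by simp, by simp, key 0 (by simp) x⟩
  | succ T ih =>
    have h1 : ∀ x, cs nb (fun a => γ (ξ (a.1, γ.symm a.2.1, a.2.2)))
      (fun a => b (a.1, γ.symm a.2.1, a.2.2))
      (c0 ∘ γ.symm) (f0 ∘ γ.symm) (T + 1) (γ x) = cs nb ξ b c0 f0 (T + 1) x := by
      intro x
      rw [cs_succ, cs_succ, (ih x).2.1, (ih x).2.2]
    intro x
    refine ⟨h1 x, ?_, key _ h1 x⟩
    rw [fr_succ, fr_succ, (ih x).2.1, (ih x).2.2]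

end Pool.Agent.TH996.Park
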