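import Pool.Agent.TH996.Infl

/-!
The bound for the killed process.
-/

namespace Pool.Agent.TH996.Park

open MeasureTheory Measure Finset Filter
open scoped ENNReal Topology

variable {V : Type*} [DecidableEq V] [MeasurableSpace V] [MeasurableSingletonClass V] [Countable V]

section

variable (S : Tri V) {p κ : ℝ} (hp : 0 ≤ p ∧ p ≤ 1) (hκ : 0 ≤ κ ∧ κ ≤ 1)

include hp hκ in
lemma integral_inc (o : V) (J : ℕ) (α : ℕ × V × ℕ) :
    ∫ ω, inc S (1 - κ) o J α ω ∂(S.law p κ) = 0 := by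
  have := bern_prob hκ.1 hκ.2
  have := law_prob S hp hκ
  have ha : 0 ≤ 1 - κ := by linarith [hκ.2]
  have ha1 : 1 - κ ≤ 1 := by linarith [hκ.1]
  have hb1 := bm_hf S ha ha1 o J α.2.1
  unfold inc
  rw [(resamp_upd S hp hκ α).integral_mul (bm_ind S α)
    ((bm_coord α hb1).sub (BM.const _)) (fun q => hf S (1 - κ) o J α.2.1 q -
      hb S (1 - κ) o J α.2.1), integral_hf S hκ, mul_zero]
  · intro ω q
    rw [ind_upd S α α le_rfl]
  · intro ω q
    simp [upd]

include hp hκ in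
lemma integral_Nz (o : V) (T : ℕ) : ∫ ω, Nz S (1 - κ) T o ω ∂(S.law p κ) = 0 := by
  have := law_prob S hp hκ
  have ha : 0 ≤ 1 - κ := by linarith [hκ.2]
  have ha1 : 1 - κ ≤ 1 := by linarith [hκ.1]
  obtain ⟨N, hN⟩ := noise_identity S (1 - κ) o 1 T
  have e : ∀ ω, Nz S (1 - κ) T o ω =
      ∑ α ∈ range T ×ˢ (S.ball o 2 ×ˢ range N), inc S (1 - κ) o 1 α ω := by
    intro ω
    rw [← hN ω]
    simp [Tri.R, Tri.P]
  simp_rw [e]
  rw [integral_finsetSum _ fun α _ => (bm_inc S ha ha1 o 1 α).integrable _]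
  exact sum_eq_zero fun α _ => integral_inc S hp hκ o 1 α

lemma bm_PC (t : ℕ) (x : V) : BM (fun ω => S.P (fun y => (Cn S.nb t y ω : ℝ)) x) :=
  bm_P S (fun y => bm_C S.nb t y) x

lemma bm_Nz (a : ℝ) (T : ℕ) (x : V) : BM (fun ω => Nz S a T x ω) :=
  BM.sum _ fun t _ => (bm_A S.nb t x).sub ((bm_PC S t x).smul a)

include hp hκ in
lemma integral_PC (t : ℕ) (x : V) :
    ∫ ω, S.P (fun y => (Cn S.nb t y ω : ℝ)) x ∂(S.law p κ) = aT S p κ x t :=
  integral_P S hp hκ (fun y => bm_C S.nb t y)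
    (fun γ hγ x ω => by rw [Cn_shift S hγ]) x

include hp hκ in
lemma integral_A (o : V) (T : ℕ) :
    ∫ ω, (An S.nb T o ω : ℝ) ∂(S.law p κ) = (1 - κ) * aT S p κ o T := by
  have := law_prob S hp hκ
  have h1 := integral_Nz S hp hκ o T
  have h2 := integral_Nz S hp hκ o (T + 1)
  have e : ∀ ω, Nz S (1 - κ) (T + 1) o ω = Nz S (1 - κ) T o ω +
      ((An S.nb T o ω : ℝ) - (1 - κ) * S.P (fun y => (Cn S.nb T y ω : ℝ)) o) := by
    intro ω; unfold Nz; rw [sum_range_succ]
  simp_rw [e] at h2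
  rw [integral_add ((bm_Nz S _ T o).integrable _)
    (((bm_A S.nb T o).sub ((bm_PC S T o).smul _)).integrable _), h1,
    integral_sub ((bm_A S.nb T o).integrable _) (((bm_PC S T o).smul _).integrable _),
    integral_const_mul, integral_PC S hp hκ] at h2
  linarith

include hp hκ in
lemma aT_succ (o : V) (T : ℕ) : aT S p κ o (T + 1) ≤ (1 - κ) * aT S p κ o T := by
  have := law_prob S hp hκ
  rw [← integral_A S hp hκ]
  refine integral_mono ((bm_C S.nb (T + 1) o).integrable _) ((bm_A S.nb T o).integrable _)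
    fun ω => ?_
  have : Cn S.nb (T + 1) o ω ≤ An S.nb T o ω := Nat.sub_le _ _
  simp only
  exact_mod_cast this

include hp hκ in
lemma aT_le (o : V) (T : ℕ) : aT S p κ o T ≤ (1 - κ) ^ T := by
  have := law_prob S hp hκ
  induction T with
  | zero =>
    have h : aT S p κ o 0 ≤ ∫ _ω : Om V, (1 : ℝ) ∂(S.law p κ) := by
      refine integral_mono ((bm_C S.nb 0 o).integrable _) (integrable_const _) fun ω => ?_
      have : Cn S.nb 0 o ω ≤ 1 := c0_le ω.1 o
      simp only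
      exact_mod_cast this
    simpa using h
  | succ T ih =>
    rw [pow_succ, mul_comm]
    exact (aT_succ S hp hκ o T).trans
      (mul_le_mul_of_nonneg_left ih (by linarith [hκ.2]))

omit [MeasurableSingletonClass V] [Countable V] in
lemma aT_nonneg (o : V) (T : ℕ) : 0 ≤ aT S p κ o T := integral_nonneg fun _ => Nat.cast_nonneg _

/-- mean number of free spots -/
noncomputable def fT (p κ : ℝ) (o : V) (T : ℕ) : ℝ := ∫ ω, (Fn S.nb T o ω : ℝ) ∂(S.law p κ)

/-- mean number of departures -/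
noncomputable def mT (p κ : ℝ) (o : V) (T : ℕ) : ℝ := ∑ t ∈ range T, aT S p κ o t

omit [MeasurableSingletonClass V] [Countable V] in
lemma mT_nonneg (o : V) (T : ℕ) : 0 ≤ mT S p κ o T := sum_nonneg fun _ _ => aT_nonneg S o _

omit [MeasurableSingletonClass V] [Countable V] in
lemma mT_mono (o : V) {T T' : ℕ} (h : T ≤ T') : mT S p κ o T ≤ mT S p κ o T' :=
  sum_le_sum_of_subset_of_nonneg (range_subset_range.2 h) fun _ _ _ => aT_nonneg S o _

/-- number of departures -/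
def Dn (T : ℕ) (x : V) (ω : Om V) : ℝ := ∑ t ∈ range T, (Cn S.nb t x ω : ℝ)

omit [MeasurableSpace V] [MeasurableSingletonClass V] [Countable V] in
lemma Dn_eq (T : ℕ) (x : V) (ω : Om V) : Dn S T x ω =
    ∑ t ∈ range T, (An S.nb t x ω : ℝ) + eta x ω + Fn S.nb T x ω - Cn S.nb T x ω := by
  have h := dep_eq S.nb ω.2.1 ω.2.2 (c0 ω.1) (f0 ω.1) T x
  simp only [dep, vis] at h
  push_cast at h
  exact h

omit [MeasurableSpace V] [MeasurableSingletonClass V] [Countable V] in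
lemma P_Dn (T : ℕ) (x : V) (ω : Om V) : S.P (fun y => Dn S T y ω) x =
    ∑ t ∈ range T, S.P (fun y => (Cn S.nb t y ω : ℝ)) x := by
  unfold Tri.P Dn
  simp_rw [mul_sum]
  rw [Finset.sum_comm]

omit [MeasurableSpace V] [MeasurableSingletonClass V] [Countable V] in
lemma Dn_sub (a : ℝ) (T : ℕ) (x : V) (ω : Om V) : Dn S T x ω - a * S.P (fun y => Dn S T y ω) x =
    Nz S a T x ω + eta x ω + Fn S.nb T x ω + (-1) * Cn S.nb T x ω := by
  rw [P_Dn, Dn_eq]
  unfold Nz
  rw [sum_sub_distrib, mul_sum]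
  ring

omit [MeasurableSpace V] [MeasurableSingletonClass V] [Countable V] in
lemma Dn_nonneg (T : ℕ) (x : V) (ω : Om V) : 0 ≤ Dn S T x ω :=
  sum_nonneg fun _ _ => Nat.cast_nonneg _

omit [MeasurableSpace V] [MeasurableSingletonClass V] [Countable V] in
lemma Fn_mul_Dn (T : ℕ) (x : V) (ω : Om V) : (Fn S.nb T x ω : ℝ) * Dn S T x ω = 0 := by
  have h := fr_mul_dep S.nb ω.2.1 ω.2.2 (c0 ω.1) (f0 ω.1) x (c0_add_f0 ω.1 x) T
  simp only [dep] at h
  push_cast at h
  exact h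

omit [MeasurableSpace V] [MeasurableSingletonClass V] [Countable V] in
/-- the pointwise inequality -/
lemma pointwise {a : ℝ} (ha : 0 ≤ a) (T J : ℕ) (o : V) (ω : Om V) :
    (Fn S.nb T o ω : ℝ) * (S.R a J (fun x => Nz S a T x ω) o + S.R a J (fun x => eta x ω) o +
      S.R a J (fun x => (Fn S.nb T x ω : ℝ)) o - S.R a J (fun x => (Cn S.nb T x ω : ℝ)) o) ≤ 0 := by
  have h1 := S.R_sub_le ha J (f := fun x => Dn S T x ω) (fun x => Dn_nonneg S T x ω) o
  simp_rw [Dn_sub] at h1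
  rw [S.R_add, S.R_add, S.R_add, S.R_smul] at h1
  have h2 := mul_le_mul_of_nonneg_left h1 (Nat.cast_nonneg (α := ℝ) (Fn S.nb T o ω))
  rw [Fn_mul_Dn] at h2
  calc _ = _ := by ring
    _ ≤ 0 := h2

include hp hκ in
lemma integral_eta (x : V) : ∫ ω, eta x ω ∂(S.law p κ) = 2 * p - 1 := by
  have := law_prob S hp hκ
  have := bern_prob hp.1 hp.2
  rw [(resamp_upe S hp hκ x).integral (bm_eta x)]
  simp_rw [integral_bern hp.1 hp.2, eta_upe]
  simp
  ring

include hp hκ in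
/-- conservation of mass -/
lemma balance (o : V) (T : ℕ) :
    fT S p κ o T - (1 - 2 * p) = κ * mT S p κ o T + aT S p κ o T := by
  have := law_prob S hp hκ
  have h1 : ∫ ω, Dn S T o ω ∂(S.law p κ) = mT S p κ o T := by
    unfold Dn mT aT
    exact integral_finsetSum _ fun t _ => (bm_C S.nb t o).integrable _
  have h2 : ∫ ω, (∑ t ∈ range T, (An S.nb t o ω : ℝ)) ∂(S.law p κ) = (1 - κ) * mT S p κ o T := by
    rw [integral_finsetSum _ fun t _ => (bm_A S.nb t o).integrable _]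
    simp_rw [integral_A S hp hκ]
    rw [← mul_sum]; rfl
  simp_rw [Dn_eq] at h1
  have bA : BM (fun ω : Om V => ∑ t ∈ range T, (An S.nb t o ω : ℝ)) :=
    BM.sum _ fun t _ => bm_A S.nb t o
  rw [integral_sub (((bA.add (bm_eta o)).add (bm_F S.nb T o)).integrable _)
      ((bm_C S.nb T o).integrable _),
    integral_add ((bA.add (bm_eta o)).integrable _) ((bm_F S.nb T o).integrable _),
    integral_add (bA.integrable _) ((bm_eta o).integrable _), h2, integral_eta S hp hκ] at h1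
  unfold fT aT
  linarith

include hp hκ in
lemma N2 (B : ℝ) (o : V) (hB : ∀ J, S.U (1 - κ) o J o ≤ B) (T J : ℕ) :
    (2 * p - 1) * fT S p κ o T * Tri.SJ (1 - κ) J - B ≤
    ∫ ω, (Fn S.nb T o ω : ℝ) * S.R (1 - κ) J (fun x => eta x ω) o ∂(S.law p κ) := by
  have := law_prob S hp hκ
  have ha : 0 ≤ 1 - κ := by linarith [hκ.2]
  have ha1 : 1 - κ ≤ 1 := by linarith [hκ.1]
  have e : ∀ ω : Om V, (Fn S.nb T o ω : ℝ) * S.R (1 - κ) J (fun x => eta x ω) o =
      ∑ x ∈ S.ball o J, S.U (1 - κ) o J x * ((Fn S.nb T o ω : ℝ) * eta x ω) := by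
    intro ω
    rw [S.R_eq_sum (1 - κ) o J _ _ subset_rfl, mul_sum]
    exact sum_congr rfl fun x _ => by ring
  simp_rw [e]
  rw [integral_finsetSum _ fun x _ =>
    (((bm_F S.nb T o).mul (bm_eta x)).smul _).integrable _]
  simp_rw [integral_const_mul, integral_F_eta S hp hκ]
  rw [sum_congr rfl fun x _ => mul_sub (S.U (1 - κ) o J x) _ _, sum_sub_distrib, ← sum_mul, S.sum_U _ o J _ subset_rfl]
  have h1 : ∑ x ∈ S.ball o J, S.U (1 - κ) o J x * (2 * p * (1 - p) * infl S p κ T x o) ≤ B := by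
    calc _ ≤ ∑ x ∈ S.ball o J, S.U (1 - κ) o J o * (2 * p * (1 - p) * infl S p κ T x o) := by
          refine sum_le_sum fun x _ => ?_
          refine mul_le_mul_of_nonneg_right (S.U_le_diag ha ha1 o J x) ?_
          have := infl_nonneg S (p := p) (κ := κ) T x o
          have := hp.1
          have : 0 ≤ 1 - p := by linarith [hp.2]
          positivity
      _ = S.U (1 - κ) o J o * (2 * p * (1 - p)) * ∑ x ∈ S.ball o J, infl S p κ T x o := by
          rw [mul_sum]; exact sum_congr rfl fun x _ => by ring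
      _ ≤ S.U (1 - κ) o J o * (2 * p * (1 - p)) * 2 := by
          refine mul_le_mul_of_nonneg_left (sum_infl_le' S hp hκ T o _) ?_
          have := S.U_nonneg ha o J o
          have := hp.1
          have : 0 ≤ 1 - p := by linarith [hp.2]
          positivity
      _ ≤ S.U (1 - κ) o J o * 1 := by
          have := S.U_nonneg ha o J o
          rw [mul_assoc]
          refine mul_le_mul_of_nonneg_left ?_ this
          nlinarith [sq_nonneg (2 * p - 1)]
      _ ≤ B := by rw [mul_one]; exact hB J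
  have e2 : Tri.SJ (1 - κ) J * ((2 * p - 1) * ∫ ω, (Fn S.nb T o ω : ℝ) ∂(S.law p κ)) =
      (2 * p - 1) * fT S p κ o T * Tri.SJ (1 - κ) J := by unfold fT; ring
  rw [e2]
  linarith

include hp hκ in
lemma N3 (o : V) (T J : ℕ) :
    fT S p κ o T ^ 2 * Tri.SJ (1 - κ) (J + 1) - (1 - κ) ^ J * Tri.SJ (1 - κ) (J + 1) ≤
    ∫ ω, (Fn S.nb T o ω : ℝ) * S.R (1 - κ) (J + 1) (fun x => (Fn S.nb T x ω : ℝ)) o
      ∂(S.law p κ) := by
  have := law_prob S hp hκ
  have ha : 0 ≤ 1 - κ := by linarith [hκ.2]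
  have ha1 : 1 - κ ≤ 1 := by linarith [hκ.1]
  set f := fT S p κ o T with hf
  have hf0 : 0 ≤ f := integral_nonneg fun _ => Nat.cast_nonneg _
  have hFle : ∀ x (ω : Om V), (Fn S.nb T x ω : ℝ) ≤ 1 := fun x ω => by
    exact_mod_cast Fn_le S.nb T x ω
  have hf1 : f ≤ 1 := by
    have h : f ≤ ∫ _ω : Om V, (1 : ℝ) ∂(S.law p κ) :=
      integral_mono ((bm_F S.nb T o).integrable _) (integrable_const _) fun ω => hFle o ω
    simpa using h
  let X : V → Om V → ℝ := fun x ω => (Fn S.nb T x ω : ℝ) - f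
  have hX : ∀ x, BM (X x) := fun x => (bm_F S.nb T x).sub (BM.const _)
  have hsh : ∀ γ ∈ S.Γ, ∀ x ω, X (γ x) (shift γ ω) = X x ω := fun γ hγ x ω => by
    simp only [X, Fn_shift S hγ]
  have hbd : ∀ x ω, |X x ω| ≤ 1 := fun x ω => by
    have h1 := hFle x ω
    have h2 : (0 : ℝ) ≤ Fn S.nb T x ω := Nat.cast_nonneg _
    rw [abs_le]
    constructor <;> simp only [X] <;> linarith
  have h0 : ∫ ω, X o ω ∂(S.law p κ) = 0 := by
    simp only [X]
    rw [integral_sub ((bm_F S.nb T o).integrable _) (integrable_const _)]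
    simp [hf, fT]
  have hR0 : ∫ ω, S.R (1 - κ) (J + 1) (fun y => X y ω) o ∂(S.law p κ) = 0 := by
    rw [integral_R S hp hκ _ _ hX hsh, h0, mul_zero]
  have hpsd := psd' S hp hκ ha ha1 J hX hsh hbd o
  have e : ∀ ω : Om V, (Fn S.nb T o ω : ℝ) *
      S.R (1 - κ) (J + 1) (fun x => (Fn S.nb T x ω : ℝ)) o =
      X o ω * S.R (1 - κ) (J + 1) (fun y => X y ω) o +
      (f * Tri.SJ (1 - κ) (J + 1)) * X o ω + f * S.R (1 - κ) (J + 1) (fun y => X y ω) o +
      f ^ 2 * Tri.SJ (1 - κ) (J + 1) := by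
    intro ω
    have e1 : (fun x => (Fn S.nb T x ω : ℝ)) = fun x => X x ω + f := by
      funext x; simp only [X]; ring
    have e2 : (Fn S.nb T o ω : ℝ) = X o ω + f := by simp only [X]; ring
    rw [e1, S.R_add, S.R_const, e2]
    ring
  simp_rw [e]
  have b1 := bm_R S (1 - κ) (J + 1) hX o
  rw [integral_add (((((hX o).mul b1).add ((hX o).smul _)).add (b1.smul _)).integrable _)
      (integrable_const _),
    integral_add ((((hX o).mul b1).add ((hX o).smul _)).integrable _) ((b1.smul _).integrable _),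
    integral_add (((hX o).mul b1).integrable _) (((hX o).smul _).integrable _),
    integral_const_mul, integral_const_mul, h0, hR0]
  simp only [mul_zero, add_zero, integral_const, probReal_univ, smul_eq_mul, one_mul]
  linarith

include hp hκ in
lemma N4 (o : V) (T J : ℕ) :
    ∫ ω, (Fn S.nb T o ω : ℝ) * S.R (1 - κ) J (fun x => (Cn S.nb T x ω : ℝ)) o ∂(S.law p κ) ≤
      Tri.SJ (1 - κ) J * aT S p κ o T := by
  have := law_prob S hp hκ
  have ha : 0 ≤ 1 - κ := by linarith [hκ.2]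
  unfold aT
  rw [← integral_R S hp hκ (1 - κ) J (fun y => bm_C S.nb T y)
    (fun γ hγ x ω => by rw [Cn_shift S hγ]) o]
  have b1 := bm_R S (1 - κ) J (fun y => bm_C S.nb T y) o
  refine integral_mono (((bm_F S.nb T o).mul b1).integrable _) (b1.integrable _) fun ω => ?_
  have h1 : (Fn S.nb T o ω : ℝ) ≤ 1 := by exact_mod_cast Fn_le S.nb T o ω
  have h2 : 0 ≤ S.R (1 - κ) J (fun x => (Cn S.nb T x ω : ℝ)) o := by
    have := S.R_mono ha J (f := fun _ => 0) (g := fun x => (Cn S.nb T x ω : ℝ))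
      (fun x => Nat.cast_nonneg _) o
    rwa [S.R_const, zero_mul] at this
  simp only
  nlinarith

include hp hκ in
lemma N1 (B : ℝ) (o : V) (hB : ∀ J, S.U (1 - κ) o J o ≤ B) (T J : ℕ) {l : ℝ} (hl : 0 < l) :
    -(l / 2 * fT S p κ o T) - mT S p κ o T * B / l ≤
    ∫ ω, (Fn S.nb T o ω : ℝ) * S.R (1 - κ) J (fun x => Nz S (1 - κ) T x ω) o ∂(S.law p κ) := by
  have := law_prob S hp hκ
  have ha : 0 ≤ 1 - κ := by linarith [hκ.2]
  have b1 := bm_R S (1 - κ) J (fun y => bm_Nz S (1 - κ) T y) o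
  have h1 : ∫ ω, (-(l / 2) * (Fn S.nb T o ω : ℝ) - 1 / (2 * l) *
      (S.R (1 - κ) J (fun x => Nz S (1 - κ) T x ω) o) ^ 2) ∂(S.law p κ) ≤
      ∫ ω, (Fn S.nb T o ω : ℝ) * S.R (1 - κ) J (fun x => Nz S (1 - κ) T x ω) o ∂(S.law p κ) := by
    refine integral_mono ((((bm_F S.nb T o).smul _).sub ((b1.pow 2).smul _)).integrable _)
      (((bm_F S.nb T o).mul b1).integrable _) fun ω => ?_
    simp only
    set Z := S.R (1 - κ) J (fun x => Nz S (1 - κ) T x ω) o
    have hF : (Fn S.nb T o ω : ℝ) ^ 2 = Fn S.nb T o ω := by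
      have := Fn_le S.nb T o ω
      interval_cases Fn S.nb T o ω <;> simp
    set F := (Fn S.nb T o ω : ℝ)
    have e : F * Z - (-(l / 2) * F - 1 / (2 * l) * Z ^ 2) = 1 / (2 * l) * (l * F + Z) ^ 2 := by
      have : l ≠ 0 := hl.ne'
      have e2 : (l * F + Z) ^ 2 = l ^ 2 * F + 2 * l * F * Z + Z ^ 2 := by
        calc _ = l ^ 2 * F ^ 2 + 2 * l * F * Z + Z ^ 2 := by ring
          _ = _ := by rw [hF]
      rw [e2]
      field_simp
      ring
    have : 0 ≤ 1 / (2 * l) * (l * F + Z) ^ 2 := by positivity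
    linarith
  refine le_trans ?_ h1
  rw [integral_sub (((bm_F S.nb T o).smul _).integrable _) (((b1.pow 2).smul _).integrable _),
    integral_const_mul, integral_const_mul]
  have h2 := noise_sq S hp hκ o J T
  have h3 : ∫ ω, (S.R (1 - κ) J (fun x => Nz S (1 - κ) T x ω) o) ^ 2 ∂(S.law p κ) ≤
      mT S p κ o T * (2 * B) := by
    refine h2.trans (mul_le_mul_of_nonneg_left ?_ (mT_nonneg S o T))
    linarith [hB (J + 1)]
  have h4 : 1 / (2 * l) * ∫ ω, (S.R (1 - κ) J (fun x => Nz S (1 - κ) T x ω) o) ^ 2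
      ∂(S.law p κ) ≤ 1 / (2 * l) * (mT S p κ o T * (2 * B)) :=
    mul_le_mul_of_nonneg_left h3 (by positivity)
  have e : 1 / (2 * l) * (mT S p κ o T * (2 * B)) = mT S p κ o T * B / l := by
    field_simp
  rw [e] at h4
  have e2 : -(l / 2 * fT S p κ o T) = -(l / 2) * ∫ ω, (Fn S.nb T o ω : ℝ) ∂(S.law p κ) := by
    unfold fT; ring
  rw [e2]
  linarith

include hp hκ in
lemma main_ineq (B : ℝ) (o : V) (hB : ∀ J, S.U (1 - κ) o J o ≤ B) (T J : ℕ) {l : ℝ}
    (hl : 0 < l) :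
    Tri.SJ (1 - κ) (J + 1) * fT S p κ o T * (κ * mT S p κ o T) ≤
      l / 2 * fT S p κ o T + mT S p κ o T * B / l + B +
        (1 - κ) ^ J * Tri.SJ (1 - κ) (J + 1) + Tri.SJ (1 - κ) (J + 1) * aT S p κ o T := by
  have := law_prob S hp hκ
  have ha : 0 ≤ 1 - κ := by linarith [hκ.2]
  have n1 := N1 S hp hκ B o hB T (J + 1) hl
  have n2 := N2 S hp hκ B o hB T (J + 1)
  have n3 := N3 S hp hκ o T J
  have n4 := N4 S hp hκ o T (J + 1)
  have bF := bm_F S.nb T o
  have b1 := bF.mul (bm_R S (1 - κ) (J + 1) (fun y => bm_Nz S (1 - κ) T y) o)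
  have b2 := bF.mul (bm_R S (1 - κ) (J + 1) (fun y => bm_eta y) o)
  have b3 := bF.mul (bm_R S (1 - κ) (J + 1) (fun y => bm_F S.nb T y) o)
  have b4 := bF.mul (bm_R S (1 - κ) (J + 1) (fun y => bm_C S.nb T y) o)
  have h : ∫ ω, ((Fn S.nb T o ω : ℝ) * S.R (1 - κ) (J + 1) (fun x => Nz S (1 - κ) T x ω) o +
      (Fn S.nb T o ω : ℝ) * S.R (1 - κ) (J + 1) (fun x => eta x ω) o +
      (Fn S.nb T o ω : ℝ) * S.R (1 - κ) (J + 1) (fun x => (Fn S.nb T x ω : ℝ)) o -
      (Fn S.nb T o ω : ℝ) * S.R (1 - κ) (J + 1) (fun x => (Cn S.nb T x ω : ℝ)) o)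
      ∂(S.law p κ) ≤ 0 := by
    refine integral_nonpos fun ω => ?_
    have := pointwise S ha T (J + 1) o ω
    simp only [Pi.zero_apply]
    linarith
  rw [integral_sub (((b1.add b2).add b3).integrable _) (b4.integrable _),
    integral_add ((b1.add b2).integrable _) (b3.integrable _),
    integral_add (b1.integrable _) (b2.integrable _)] at h
  have hbal := balance S hp hκ o T
  have hS := SJ_nonneg ha (J + 1)
  have hf : 0 ≤ fT S p κ o T := integral_nonneg fun _ => Nat.cast_nonneg _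
  have haT := aT_nonneg S (p := p) (κ := κ) o T
  have e : fT S p κ o T ^ 2 * Tri.SJ (1 - κ) (J + 1) +
      (2 * p - 1) * fT S p κ o T * Tri.SJ (1 - κ) (J + 1) =
      Tri.SJ (1 - κ) (J + 1) * fT S p κ o T * (κ * mT S p κ o T) +
      Tri.SJ (1 - κ) (J + 1) * fT S p κ o T * aT S p κ o T := by
    calc _ = Tri.SJ (1 - κ) (J + 1) * fT S p κ o T * (fT S p κ o T - (1 - 2 * p)) := by ring
      _ = _ := by rw [hbal]; ring
  have : 0 ≤ Tri.SJ (1 - κ) (J + 1) * fT S p κ o T * aT S p κ o T := by positivity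
  linarith

include hp in
/-- the bound for the killed process, up to a fixed time -/
lemma mT_bound (hκ0 : 0 < κ) (hκ1 : κ ≤ 1) (hp2 : p < 1 / 2) (B : ℝ) (o : V)
    (hB : ∀ J, S.U (1 - κ) o J o ≤ B) (T : ℕ) :
    (1 - 2 * p) * mT S p κ o T ≤ 4 * B + 2 * aT S p κ o T / κ := by
  have hκ : 0 ≤ κ ∧ κ ≤ 1 := ⟨hκ0.le, hκ1⟩
  have ha : 0 ≤ 1 - κ := by linarith [hκ.2]
  have ha1 : 1 - κ < 1 := by linarith
  have hbal := balance S hp hκ o T
  have haT := aT_nonneg S (p := p) (κ := κ) o T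
  have hmT := mT_nonneg S (p := p) (κ := κ) o T
  set f := fT S p κ o T with hf
  set m := mT S p κ o T with hm
  set at' := aT S p κ o T with hat
  have hfδ : 1 - 2 * p ≤ f := by nlinarith
  have hf0 : 0 < f := by linarith
  have hB1 : 1 ≤ B := by
    have := hB 1
    simpa [Tri.U, Tri.Q] using this
  have hB0 : 0 < B := by linarith
  have hl : 0 < 2 * B / f := by positivity
  have h1 : ∀ J : ℕ, (1 - (1 - κ) ^ (J + 1)) * (f * m) ≤
      2 * B / f / 2 * f + m * B / (2 * B / f) + B + (1 - κ) ^ J / κ + at' / κ := by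
    intro J
    have h := main_ineq S hp hκ B o hB T J hl
    rw [← hf, ← hm, ← hat] at h
    have hS : κ * Tri.SJ (1 - κ) (J + 1) = 1 - (1 - κ) ^ (J + 1) := by
      unfold Tri.SJ
      have := mul_neg_geom_sum (1 - κ) (J + 1)
      rw [sub_sub_cancel] at this
      exact this
    have hS2 : Tri.SJ (1 - κ) (J + 1) ≤ 1 / κ := by
      rw [le_div_iff₀ hκ0]
      have := pow_nonneg ha (J + 1)
      linarith
    have h3 : (1 - κ) ^ J * Tri.SJ (1 - κ) (J + 1) ≤ (1 - κ) ^ J / κ := by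
      rw [div_eq_mul_one_div]
      exact mul_le_mul_of_nonneg_left hS2 (pow_nonneg ha _)
    have h4 : Tri.SJ (1 - κ) (J + 1) * at' ≤ at' / κ := by
      rw [div_eq_mul_one_div, mul_comm]
      exact mul_le_mul_of_nonneg_left hS2 haT
    calc (1 - (1 - κ) ^ (J + 1)) * (f * m) = Tri.SJ (1 - κ) (J + 1) * f * (κ * m) := by
          rw [← hS]; ring
      _ ≤ _ := by linarith
  have h2 : f * m ≤ 2 * B / f / 2 * f + m * B / (2 * B / f) + B + at' / κ := by
    have l1 : Tendsto (fun J : ℕ => (1 - (1 - κ) ^ (J + 1)) * (f * m)) atTop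
        (𝓝 ((1 - 0) * (f * m))) :=
      ((tendsto_const_nhds.sub ((tendsto_add_atTop_iff_nat 1).2
        (tendsto_pow_atTop_nhds_zero_of_lt_one ha ha1)))).mul_const _
    have l2 : Tendsto (fun J : ℕ => 2 * B / f / 2 * f + m * B / (2 * B / f) + B +
        (1 - κ) ^ J / κ + at' / κ) atTop (𝓝 (2 * B / f / 2 * f + m * B / (2 * B / f) + B +
        0 / κ + at' / κ)) :=
      (tendsto_const_nhds.add ((tendsto_pow_atTop_nhds_zero_of_lt_one ha ha1).div_const _)).add_const _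
    have := le_of_tendsto_of_tendsto' l1 l2 h1
    simpa using this
  have e1 : 2 * B / f / 2 * f = B := by field_simp
  have e2 : m * B / (2 * B / f) = f * m / 2 := by field_simp
  rw [e1, e2] at h2
  have h5 : f * m ≤ 4 * B + 2 * at' / κ := by
    have : 2 * at' / κ = 2 * (at' / κ) := by ring
    rw [this]; linarith
  exact (mul_le_mul_of_nonneg_right hfδ hmT).trans h5

include hp in
/-- the bound for the killed process -/
theorem mT_le (hκ0 : 0 < κ) (hκ1 : κ ≤ 1) (hp2 : p < 1 / 2) (B : ℝ) (o : V)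
    (hB : ∀ J, S.U (1 - κ) o J o ≤ B) (T : ℕ) :
    (1 - 2 * p) * mT S p κ o T ≤ 4 * B := by
  have hκ : 0 ≤ κ ∧ κ ≤ 1 := ⟨hκ0.le, hκ1⟩
  have ha : 0 ≤ 1 - κ := by linarith [hκ.2]
  have ha1 : 1 - κ < 1 := by linarith
  have h1 : ∀ T' : ℕ, (1 - 2 * p) * mT S p κ o T ≤ 4 * B + 2 * (1 - κ) ^ (T + T') / κ := by
    intro T'
    calc _ ≤ (1 - 2 * p) * mT S p κ o (T + T') :=
          mul_le_mul_of_nonneg_left (mT_mono S o (Nat.le_add_right _ _)) (by linarith)
      _ ≤ 4 * B + 2 * aT S p κ o (T + T') / κ := mT_bound S hp hκ0 hκ1 hp2 B o hB _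
      _ ≤ _ := by
          have := aT_le S hp hκ o (T + T')
          gcongr
  have l2 : Tendsto (fun T' : ℕ => 4 * B + 2 * (1 - κ) ^ (T + T') / κ) atTop
      (𝓝 (4 * B + 2 * 0 / κ)) := by
    refine tendsto_const_nhds.add (Tendsto.div_const (Tendsto.const_mul _ ?_) _)
    simp_rw [add_comm T]
    exact (tendsto_add_atTop_iff_nat T).2 (tendsto_pow_atTop_nhds_zero_of_lt_one ha ha1)
  have := ge_of_tendsto' l2 h1
  simpa using this

end

end Pool.Agent.TH996.Park
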