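import Pool.Agent.TH996.Main

/-!
Influences of the initial configuration.
-/

namespace Pool.Agent.TH996.Park

open MeasureTheory Measure Finset
open scoped ENNReal

variable {V : Type*} [DecidableEq V] [MeasurableSpace V] [MeasurableSingletonClass V] [Countable V]

/-- change the initial state of one vertex -/
def upe (x : V) (ω : Om V) (β : Bool) : Om V := (Function.update ω.1 x β, ω.2)

section

variable (S : Tri V) {p κ : ℝ} (hp : 0 ≤ p ∧ p ≤ 1) (hκ : 0 ≤ κ ∧ κ ≤ 1)

include hp hκ in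
lemma resamp_upe (x : V) : Resamp (S.law p κ) (bern p) (upe x) := by
  have := bern_prob hp.1 hp.2
  have := bern_prob hκ.1 hκ.2
  exact (Resamp.pi (fun _ : V => bern p) x).left
    ((infinitePi fun a : ℕ × V × ℕ => stepLaw S.nb S.K a.2.1).prod
      (infinitePi fun _ : ℕ × V × ℕ => bern κ))

omit [MeasurableSingletonClass V] [Countable V] in
lemma bm_upe {F : Om V → ℝ} (hF : BM F) (x : V) (β : Bool) : BM (fun ω => F (upe x ω β)) := by
  refine hF.comp (?_ : Measurable fun ω : Om V => upe x ω β)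
  exact (((measurable_upd x).comp (measurable_fst.prodMk measurable_const)).prodMk measurable_snd)

/-- `+1` for a car, `-1` for a spot -/
def eta (x : V) (ω : Om V) : ℝ := (c0 ω.1 x : ℝ) - f0 ω.1 x

omit [MeasurableSingletonClass V] [Countable V] [DecidableEq V] in
lemma bm_eta (x : V) : BM (eta x) := by
  refine ⟨?_, 1, fun ω => ?_⟩
  · exact (measurable_of_countable (fun b : Bool => (((if b then 1 else 0 : ℕ) : ℝ) -
      ((if b then 0 else 1 : ℕ) : ℝ)))).comp ((measurable_pi_apply x).comp measurable_fst)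
  · unfold eta c0 f0
    split_ifs <;> simp

omit [MeasurableSpace V] [MeasurableSingletonClass V] [Countable V] in
lemma eta_upe (x : V) (ω : Om V) (β : Bool) : eta x (upe x ω β) = if β then 1 else -1 := by
  unfold eta upe c0 f0
  simp
  split_ifs <;> simp

/-- the influence of `x` on the spot at `z` -/
noncomputable def infl (p κ : ℝ) (T : ℕ) (x z : V) : ℝ :=
  ∫ ω, ((Fn S.nb T z (upe x ω false) : ℝ) - Fn S.nb T z (upe x ω true)) ∂(S.law p κ)

include hp hκ in
lemma integral_F_eta (T : ℕ) (x z : V) :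
    ∫ ω, (Fn S.nb T z ω : ℝ) * eta x ω ∂(S.law p κ) =
      (2 * p - 1) * ∫ ω, (Fn S.nb T z ω : ℝ) ∂(S.law p κ) -
        2 * p * (1 - p) * infl S p κ T x z := by
  have := law_prob S hp hκ
  have := bern_prob hp.1 hp.2
  have hF := bm_F S.nb T z
  have b1 := (bm_upe hF x true).integrable (S.law p κ)
  have b0 := (bm_upe hF x false).integrable (S.law p κ)
  have e1 : ∫ ω, (Fn S.nb T z ω : ℝ) * eta x ω ∂(S.law p κ) =
      p * ∫ ω, (Fn S.nb T z (upe x ω true) : ℝ) ∂(S.law p κ) -
      (1 - p) * ∫ ω, (Fn S.nb T z (upe x ω false) : ℝ) ∂(S.law p κ) := by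
    rw [(resamp_upe S hp hκ x).integral (hF.mul (bm_eta x))]
    simp_rw [integral_bern hp.1 hp.2, eta_upe]
    simp only [if_true, Bool.false_eq_true, if_false, mul_one, mul_neg, ← sub_eq_add_neg]
    rw [integral_sub (b1.const_mul _) (b0.const_mul _), integral_const_mul, integral_const_mul]
  have e2 : ∫ ω, (Fn S.nb T z ω : ℝ) ∂(S.law p κ) =
      p * ∫ ω, (Fn S.nb T z (upe x ω true) : ℝ) ∂(S.law p κ) +
      (1 - p) * ∫ ω, (Fn S.nb T z (upe x ω false) : ℝ) ∂(S.law p κ) := by
    rw [(resamp_upe S hp hκ x).integral hF]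
    simp_rw [integral_bern hp.1 hp.2]
    rw [integral_add (b1.const_mul _) (b0.const_mul _), integral_const_mul, integral_const_mul]
  unfold infl
  rw [integral_sub b0 b1, e1, e2]
  ring

omit [MeasurableSpace V] [MeasurableSingletonClass V] [Countable V] in
lemma upe_mono (x : V) (ω : Om V) (y : V) :
    c0 (upe x ω false).1 y ≤ c0 (upe x ω true).1 y ∧
    f0 (upe x ω true).1 y ≤ f0 (upe x ω false).1 y := by
  unfold upe c0 f0
  by_cases h : y = x
  · subst h; simp
  · simp [h]

omit [MeasurableSpace V] [MeasurableSingletonClass V] [Countable V] in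
lemma Fn_upe_mono (T : ℕ) (x z : V) (ω : Om V) :
    Fn S.nb T z (upe x ω true) ≤ Fn S.nb T z (upe x ω false) :=
  (mono S.nb ω.2.1 ω.2.2 (c0 (upe x ω false).1) (f0 (upe x ω false).1)
    (c0 (upe x ω true).1) (f0 (upe x ω true).1) (fun y => (upe_mono x ω y).1)
    (fun y => (upe_mono x ω y).2) T).2 z

omit [MeasurableSpace V] [MeasurableSingletonClass V] [Countable V] in
lemma Cn_upe_mono (T : ℕ) (x z : V) (ω : Om V) :
    Cn S.nb T z (upe x ω false) ≤ Cn S.nb T z (upe x ω true) :=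
  (mono S.nb ω.2.1 ω.2.2 (c0 (upe x ω false).1) (f0 (upe x ω false).1)
    (c0 (upe x ω true).1) (f0 (upe x ω true).1) (fun y => (upe_mono x ω y).1)
    (fun y => (upe_mono x ω y).2) T).1 z

omit [MeasurableSpace V] [MeasurableSingletonClass V] [Countable V] in
lemma sum_upe (T : ℕ) (x : V) (ω : Om V) (A : Finset V) :
    ∑ z ∈ A, ((Fn S.nb T z (upe x ω false) : ℝ) - Fn S.nb T z (upe x ω true)) ≤ 2 := by
  have h := disc S.nb ω.2.1 ω.2.2 (c0 (upe x ω false).1) (f0 (upe x ω false).1)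
    (c0 (upe x ω true).1) (f0 (upe x ω true).1) (fun y => (upe_mono x ω y).1)
    (fun y => (upe_mono x ω y).2) 2 ?_ T A
  · refine le_trans (sum_le_sum fun z _ => ?_) h
    have h1 : Cn S.nb T z (upe x ω false) ≤ Cn S.nb T z (upe x ω true) := Cn_upe_mono S T x z ω
    have h2 : (Cn S.nb T z (upe x ω false) : ℝ) ≤ Cn S.nb T z (upe x ω true) := by
      exact_mod_cast h1
    have h3 : (cs S.nb ω.2.1 ω.2.2 (c0 (upe x ω false).1) (f0 (upe x ω false).1) T z : ℝ) ≤
      cs S.nb ω.2.1 ω.2.2 (c0 (upe x ω true).1) (f0 (upe x ω true).1) T z := h2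
    have h4 : (Fn S.nb T z (upe x ω false) : ℝ) =
      fr S.nb ω.2.1 ω.2.2 (c0 (upe x ω false).1) (f0 (upe x ω false).1) T z := rfl
    have h5 : (Fn S.nb T z (upe x ω true) : ℝ) =
      fr S.nb ω.2.1 ω.2.2 (c0 (upe x ω true).1) (f0 (upe x ω true).1) T z := rfl
    rw [h4, h5]
    linarith
  · intro B
    have e : ∀ z, (((c0 (upe x ω true).1 z : ℝ) - c0 (upe x ω false).1 z) +
        ((f0 (upe x ω false).1 z : ℝ) - f0 (upe x ω true).1 z)) = if z = x then 2 else 0 := by
      intro z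
      unfold upe c0 f0
      by_cases h : z = x
      · subst h; simp; norm_num
      · simp [h]
    simp_rw [e]
    rw [sum_ite_eq']
    split_ifs <;> norm_num

lemma bm_infl (T : ℕ) (x z : V) :
    BM (fun ω => (Fn S.nb T z (upe x ω false) : ℝ) - Fn S.nb T z (upe x ω true)) :=
  (bm_upe (bm_F S.nb T z) x false).sub (bm_upe (bm_F S.nb T z) x true)

omit [MeasurableSingletonClass V] [Countable V] in
lemma infl_nonneg (T : ℕ) (x z : V) : 0 ≤ infl S p κ T x z := by
  refine integral_nonneg fun ω => ?_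
  have := Fn_upe_mono S T x z ω
  simp only [Pi.zero_apply, sub_nonneg]
  exact_mod_cast this

include hp hκ in
lemma sum_infl_le (T : ℕ) (x : V) (A : Finset V) : ∑ z ∈ A, infl S p κ T x z ≤ 2 := by
  have := law_prob S hp hκ
  unfold infl
  rw [← integral_finsetSum _ fun z _ => (bm_infl S T x z).integrable _]
  have h : ∫ ω, ∑ z ∈ A, ((Fn S.nb T z (upe x ω false) : ℝ) - Fn S.nb T z (upe x ω true))
      ∂(S.law p κ) ≤ ∫ _ω : Om V, (2 : ℝ) ∂(S.law p κ) :=
    integral_mono ((BM.sum A fun z _ => bm_infl S T x z).integrable _) (integrable_const _)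
      fun ω => sum_upe S T x ω A
  simpa using h

omit [MeasurableSpace V] [MeasurableSingletonClass V] [Countable V] in
lemma shift_upe (γ : Equiv.Perm V) (x : V) (ω : Om V) (β : Bool) :
    upe (γ x) (shift γ ω) β = shift γ (upe x ω β) := by
  unfold upe shift
  refine Prod.ext ?_ rfl
  funext y
  simp only
  by_cases h : y = γ x
  · subst h; simp
  · have : γ.symm y ≠ x := fun e => h (by rw [← e]; simp)
    simp [h, this]

include hp hκ in
lemma infl_inv {γ : Equiv.Perm V} (hγ : γ ∈ S.Γ) (T : ℕ) (x z : V) :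
    infl S p κ T (γ x) (γ z) = infl S p κ T x z := by
  unfold infl
  rw [← integral_shift S hγ hp.1 hp.2 hκ.1 hκ.2 (bm_infl S T (γ x) (γ z))]
  simp_rw [shift_upe, Fn_shift S hγ]

include hp hκ in
lemma sum_infl_le' (T : ℕ) (z : V) (A : Finset V) : ∑ x ∈ A, infl S p κ T x z ≤ 2 := by
  have h := mtp S.trans S.fin S.unimod (fun x y => ENNReal.ofReal (infl S p κ T x y))
    (fun γ hγ x y => by rw [infl_inv S hp hκ hγ]) z
  have h2 : ∑' y, ENNReal.ofReal (infl S p κ T z y) ≤ ENNReal.ofReal 2 := by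
    rw [ENNReal.tsum_eq_iSup_sum]
    refine iSup_le fun B => ?_
    rw [← ENNReal.ofReal_sum_of_nonneg fun _ _ => infl_nonneg S T _ _]
    exact ENNReal.ofReal_le_ofReal (sum_infl_le S hp hκ T z B)
  rw [h] at h2
  have h3 : ∑ x ∈ A, ENNReal.ofReal (infl S p κ T x z) ≤ ENNReal.ofReal 2 :=
    (ENNReal.sum_le_tsum A).trans h2
  rw [← ENNReal.ofReal_sum_of_nonneg fun _ _ => infl_nonneg S T _ _] at h3
  exact (ENNReal.ofReal_le_ofReal_iff (by norm_num)).1 h3

end

end Pool.Agent.TH996.Park
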