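import Pool.Agent.TH996.Model

/-!
Invariance of the law under the group.
-/

namespace Pool.Agent.TH996.Park

open MeasureTheory Measure Finset

variable {V : Type*} [DecidableEq V] [MeasurableSpace V] [MeasurableSingletonClass V] [Countable V]

/-- the action of a permutation on the probability space -/
def shift (γ : Equiv.Perm V) (ω : Om V) : Om V :=
  (fun x => ω.1 (γ.symm x), (fun a => γ (ω.2.1 (a.1, γ.symm a.2.1, a.2.2)),
    fun a => ω.2.2 (a.1, γ.symm a.2.1, a.2.2)))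

/-- action on indices -/
def sh (γ : Equiv.Perm V) (a : ℕ × V × ℕ) : ℕ × V × ℕ := (a.1, γ.symm a.2.1, a.2.2)

omit [DecidableEq V] [MeasurableSpace V] [MeasurableSingletonClass V] [Countable V] in
lemma sh_inj (γ : Equiv.Perm V) : Function.Injective (sh γ) := by
  rintro ⟨t, x, i⟩ ⟨t', x', i'⟩ h
  simp only [sh, Prod.mk.injEq, EmbeddingLike.apply_eq_iff_eq] at h
  simp [h]

omit [MeasurableSingletonClass V] in
lemma map_stepLaw (S : Tri V) [MeasurableSingletonClass V] {γ : Equiv.Perm V} (hγ : γ ∈ S.Γ)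
    (y : V) : (stepLaw S.nb S.K (γ.symm y)).map γ = stepLaw S.nb S.K y := by
  have hm : Measurable γ := measurable_of_countable _
  have h1 : S.nb y = (S.nb (γ.symm y)).image γ := by rw [← S.inv_nb γ hγ]; simp
  have h3 : stepLaw S.nb S.K y = ∑ z ∈ S.nb (γ.symm y), ENNReal.ofReal (S.K y (γ z)) •
      dirac (γ z) := by
    unfold stepLaw
    rw [h1, sum_image (fun a _ b _ h => γ.injective h)]
  rw [h3]
  unfold stepLaw
  rw [Measure.map_finset_sum hm.aemeasurable]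
  refine sum_congr rfl fun z _ => ?_
  rw [Measure.map_smul, Measure.map_dirac' hm]
  congr 2
  rw [← S.inv_K γ hγ]; simp

lemma shift_mp (S : Tri V) {γ : Equiv.Perm V} (hγ : γ ∈ S.Γ) {p κ : ℝ} (h0 : 0 ≤ p) (h1 : p ≤ 1)
    (k0 : 0 ≤ κ) (k1 : κ ≤ 1) : MeasurePreserving (shift γ) (S.law p κ) (S.law p κ) := by
  have := bern_prob h0 h1
  have := bern_prob k0 k1
  have hm : Measurable γ := measurable_of_countable _
  have e1 : MeasurePreserving (fun (η : V → Bool) x => η (γ.symm x))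
      (infinitePi fun _ : V => bern p) (infinitePi fun _ : V => bern p) :=
    ⟨measurable_pi_lambda _ fun _ => measurable_pi_apply _,
      map_reindex (fun _ : V => bern p) γ.symm γ.symm.injective⟩
  have e2 : MeasurePreserving (fun (b : ℕ × V × ℕ → Bool) a => b (sh γ a))
      (infinitePi fun _ : ℕ × V × ℕ => bern κ) (infinitePi fun _ : ℕ × V × ℕ => bern κ) :=
    ⟨measurable_pi_lambda _ fun _ => measurable_pi_apply _,
      map_reindex (fun _ : ℕ × V × ℕ => bern κ) (sh γ) (sh_inj γ)⟩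
  have e3 : MeasurePreserving (fun (ξ : ℕ × V × ℕ → V) a => ξ (sh γ a))
      (infinitePi fun a : ℕ × V × ℕ => stepLaw S.nb S.K a.2.1)
      (infinitePi fun a : ℕ × V × ℕ => stepLaw S.nb S.K (sh γ a).2.1) :=
    ⟨measurable_pi_lambda _ fun _ => measurable_pi_apply _,
      map_reindex (fun a : ℕ × V × ℕ => stepLaw S.nb S.K a.2.1) (sh γ) (sh_inj γ)⟩
  have e4 : MeasurePreserving (fun (ξ : ℕ × V × ℕ → V) a => γ (ξ a))
      (infinitePi fun a : ℕ × V × ℕ => stepLaw S.nb S.K (sh γ a).2.1)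
      (infinitePi fun a : ℕ × V × ℕ => stepLaw S.nb S.K a.2.1) := by
    refine ⟨measurable_pi_lambda _ fun a => hm.comp (measurable_pi_apply _), ?_⟩
    rw [infinitePi_map_pi _ (fun _ => hm)]
    congr 1
    funext a
    exact map_stepLaw S hγ a.2.1
  exact e1.prod ((e4.comp e3).prod e2)

omit [MeasurableSpace V] [MeasurableSingletonClass V] [Countable V] in
lemma Cn_shift (S : Tri V) {γ : Equiv.Perm V} (hγ : γ ∈ S.Γ) (t : ℕ) (x : V) (ω : Om V) :
    Cn S.nb t (γ x) (shift γ ω) = Cn S.nb t x ω :=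
  (equiv_st S.nb ω.2.1 ω.2.2 (c0 ω.1) (f0 ω.1) γ (S.inv_nb γ hγ) t x).1

omit [MeasurableSpace V] [MeasurableSingletonClass V] [Countable V] in
lemma Fn_shift (S : Tri V) {γ : Equiv.Perm V} (hγ : γ ∈ S.Γ) (t : ℕ) (x : V) (ω : Om V) :
    Fn S.nb t (γ x) (shift γ ω) = Fn S.nb t x ω :=
  (equiv_st S.nb ω.2.1 ω.2.2 (c0 ω.1) (f0 ω.1) γ (S.inv_nb γ hγ) t x).2.1

omit [MeasurableSpace V] [MeasurableSingletonClass V] [Countable V] in
lemma An_shift (S : Tri V) {γ : Equiv.Perm V} (hγ : γ ∈ S.Γ) (t : ℕ) (x : V) (ω : Om V) :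
    An S.nb t (γ x) (shift γ ω) = An S.nb t x ω :=
  (equiv_st S.nb ω.2.1 ω.2.2 (c0 ω.1) (f0 ω.1) γ (S.inv_nb γ hγ) t x).2.2

lemma integral_shift (S : Tri V) {γ : Equiv.Perm V} (hγ : γ ∈ S.Γ) {p κ : ℝ} (h0 : 0 ≤ p)
    (h1 : p ≤ 1) (k0 : 0 ≤ κ) (k1 : κ ≤ 1) {F : Om V → ℝ} (hF : BM F) :
    ∫ ω, F (shift γ ω) ∂(S.law p κ) = ∫ ω, F ω ∂(S.law p κ) := by
  have h := shift_mp S hγ h0 h1 k0 k1
  have hm : AEStronglyMeasurable F (Measure.map (shift γ) (S.law p κ)) :=
    hF.meas.aestronglyMeasurable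
  have h2 := integral_map h.measurable.aemeasurable hm
  rw [h.map_eq] at h2
  exact h2.symm

end Pool.Agent.TH996.Park
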