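import Pool.Agent.TH996.Mtp

/-!
Kernels: forward and backward operators, truncated Green functions.
-/

namespace Pool.Agent.TH996.Park

open Finset
open scoped ENNReal

/-- A transitive unimodular triple, with the neighbourhoods given as finite sets. -/
structure Tri (V : Type*) [DecidableEq V] where
  /-- neighbours -/
  nb : V → Finset V
  /-- kernel -/
  K : V → V → ℝ
  symm : ∀ x y, y ∈ nb x → x ∈ nb y
  nonneg : ∀ x y, 0 ≤ K x y
  supp : ∀ x y, y ∉ nb x → K x y = 0
  sum_one : ∀ x, ∑ y ∈ nb x, K x y = 1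
  /-- group -/
  Γ : Subgroup (Equiv.Perm V)
  inv_nb : ∀ γ ∈ Γ, ∀ x, nb (γ x) = (nb x).image γ
  inv_K : ∀ γ ∈ Γ, ∀ x y, K (γ x) (γ y) = K x y
  trans : ∀ x y, ∃ γ ∈ Γ, γ x = y
  fin : ∀ u v, (orb Γ u v).Finite
  unimod : ∀ u v, (orb Γ u v).ncard = (orb Γ v u).ncard

namespace Tri

variable {V : Type*} [DecidableEq V] (S : Tri V)

lemma mem_comm {x y : V} : y ∈ S.nb x ↔ x ∈ S.nb y := ⟨S.symm x y, S.symm y x⟩

lemma col_one (x : V) : ∑ y ∈ S.nb x, S.K y x = 1 := by
  have h := mtp S.trans S.fin S.unimod (fun a b => ENNReal.ofReal (S.K a b))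
    (fun γ hγ a b => by rw [S.inv_K γ hγ]) x
  rw [tsum_eq_sum (s := S.nb x), tsum_eq_sum (s := S.nb x)] at h
  · rw [← ENNReal.ofReal_sum_of_nonneg (fun _ _ => S.nonneg _ _),
      ← ENNReal.ofReal_sum_of_nonneg (fun _ _ => S.nonneg _ _), S.sum_one] at h
    have h2 := (ENNReal.ofReal_eq_ofReal_iff zero_le_one
      (Finset.sum_nonneg fun _ _ => S.nonneg _ _)).1 h
    exact h2.symm
  · intro y hy
    rw [S.supp y x fun h' => hy (S.symm _ _ h'), ENNReal.ofReal_zero]
  · intro y hy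
    rw [S.supp x y hy, ENNReal.ofReal_zero]

/-- backward operator -/
def P (f : V → ℝ) (x : V) : ℝ := ∑ y ∈ S.nb x, S.K y x * f y

/-- forward operator -/
def Q (f : V → ℝ) (x : V) : ℝ := ∑ y ∈ S.nb x, S.K x y * f y

lemma P_add (f g : V → ℝ) (x : V) : S.P (fun y => f y + g y) x = S.P f x + S.P g x := by
  simp only [P, mul_add, sum_add_distrib]

lemma P_smul (c : ℝ) (f : V → ℝ) (x : V) : S.P (fun y => c * f y) x = c * S.P f x := by
  simp only [P, mul_sum]
  exact sum_congr rfl fun y _ => by ring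

lemma P_one (x : V) : S.P (fun _ => 1) x = 1 := by simp [P, S.col_one]

lemma P_mono {f g : V → ℝ} (h : ∀ x, f x ≤ g x) (x : V) : S.P f x ≤ S.P g x :=
  sum_le_sum fun y _ => mul_le_mul_of_nonneg_left (h y) (S.nonneg _ _)

lemma Q_mono {f g : V → ℝ} (h : ∀ x, f x ≤ g x) (x : V) : S.Q f x ≤ S.Q g x :=
  sum_le_sum fun y _ => mul_le_mul_of_nonneg_left (h y) (S.nonneg _ _)

lemma Q_zero (x : V) : S.Q (fun _ => 0) x = 0 := by simp [Q]

lemma Q_le_const {f : V → ℝ} {c : ℝ} (h : ∀ x, f x ≤ c) (x : V) : S.Q f x ≤ c := by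
  calc S.Q f x ≤ ∑ y ∈ S.nb x, S.K x y * c :=
        sum_le_sum fun y _ => mul_le_mul_of_nonneg_left (h y) (S.nonneg _ _)
    _ = c := by rw [← sum_mul, S.sum_one, one_mul]

/-- Truncated resolvent of the backward operator. -/
def R (a : ℝ) : ℕ → (V → ℝ) → V → ℝ
  | 0, _, _ => 0
  | J + 1, f, x => f x + a * S.P (R a J f) x

/-- truncated Green function -/
def U (a : ℝ) (o : V) : ℕ → V → ℝ
  | 0, _ => 0
  | J + 1, x => (if x = o then 1 else 0) + a * S.Q (U a o J) x

lemma U_succ (a : ℝ) (o : V) (J : ℕ) (x : V) :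
    S.U a o (J + 1) x = (if x = o then 1 else 0) + a * S.Q (S.U a o J) x := rfl

lemma R_succ (a : ℝ) (J : ℕ) (f : V → ℝ) (x : V) :
    S.R a (J + 1) f x = f x + a * S.P (S.R a J f) x := rfl

/-- balls -/
def ball (o : V) : ℕ → Finset V
  | 0 => {o}
  | n + 1 => ball o n ∪ (ball o n).biUnion S.nb

lemma ball_succ (o : V) (n : ℕ) : S.ball o n ⊆ S.ball o (n + 1) := subset_union_left

lemma nb_subset_ball (o : V) (n : ℕ) {x : V} (hx : x ∈ S.ball o n) :
    S.nb x ⊆ S.ball o (n + 1) :=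
  (subset_biUnion_of_mem S.nb hx).trans subset_union_right

lemma mem_ball (o : V) (n : ℕ) : o ∈ S.ball o n := by
  induction n with
  | zero => simp [ball]
  | succ n ih => exact S.ball_succ o n ih

lemma U_eq_zero (a : ℝ) (o : V) (J : ℕ) (x : V) (hx : x ∉ S.ball o J) : S.U a o J x = 0 := by
  induction J generalizing x with
  | zero => rfl
  | succ J ih =>
    rw [U_succ]
    have h1 : x ≠ o := fun h => hx (h ▸ S.mem_ball o _)
    have h2 : S.Q (S.U a o J) x = 0 := by
      refine sum_eq_zero fun y hy => ?_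
      rw [ih y, mul_zero]
      intro hy'
      exact hx (S.nb_subset_ball o J hy' (S.symm _ _ hy))
    simp [h1, h2]

/-- adjointness -/
lemma adj (u f : V → ℝ) (L L' : Finset V) (hu : ∀ x, x ∉ L → u x = 0)
    (hL : ∀ x ∈ L, S.nb x ⊆ L') :
    ∑ x ∈ L', S.Q u x * f x = ∑ x ∈ L, u x * S.P f x := by
  have h1 : ∀ x, S.Q u x = ∑ y ∈ L, S.K x y * u y := by
    intro x
    unfold Q
    refine (sum_subset (subset_union_left (s₂ := L)) ?_).trans
      (sum_subset (subset_union_right (s₁ := S.nb x)) ?_).symm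
    · intro y _ hy; rw [S.supp x y hy, zero_mul]
    · intro y _ hy; rw [hu y hy, mul_zero]
  simp_rw [h1, sum_mul]
  rw [sum_comm]
  refine sum_congr rfl fun y hy => ?_
  unfold P
  rw [mul_sum, ← sum_subset (hL y hy)]
  · exact sum_congr rfl fun x _ => by ring
  · intro x _ hx
    rw [S.supp x y fun h => hx (S.symm _ _ h)]; ring

lemma R_P (a : ℝ) (J : ℕ) (f : V → ℝ) (x : V) : S.R a J (S.P f) x = S.P (S.R a J f) x := by
  induction J generalizing x with
  | zero => simp [R, P]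
  | succ J ih =>
    rw [R_succ]
    have e : S.R a J (S.P f) = S.P (S.R a J f) := funext ih
    rw [e]
    have e2 : S.R a (J + 1) f = fun y => f y + a * S.P (S.R a J f) y := rfl
    rw [e2, S.P_add, S.P_smul]

lemma R_eq_sum (a : ℝ) (o : V) (J : ℕ) (f : V → ℝ) (L : Finset V) (hL : S.ball o J ⊆ L) :
    S.R a J f o = ∑ x ∈ L, S.U a o J x * f x := by
  induction J generalizing f L with
  | zero => simp [R, U]
  | succ J ih =>
    rw [R_succ, ← S.R_P, ih (S.P f) (S.ball o J) subset_rfl,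
      ← S.adj (S.U a o J) f (S.ball o J) L (fun x hx => S.U_eq_zero a o J x hx)
      (fun x hx => (S.nb_subset_ball o J hx).trans hL)]
    simp_rw [U_succ, add_mul, sum_add_distrib]
    congr 1
    · rw [sum_eq_single o]
      · simp
      · intro x _ hx; simp [hx]
      · intro h; exact absurd (hL (S.mem_ball o _)) h
    · rw [mul_sum]; exact sum_congr rfl fun x _ => by ring

lemma R_mono {a : ℝ} (ha : 0 ≤ a) (J : ℕ) {f g : V → ℝ} (h : ∀ x, f x ≤ g x) (x : V) :
    S.R a J f x ≤ S.R a J g x := by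
  induction J generalizing x with
  | zero => exact le_rfl
  | succ J ih =>
    rw [R_succ, R_succ]
    exact add_le_add (h x) (mul_le_mul_of_nonneg_left (S.P_mono ih x) ha)

lemma R_add (a : ℝ) (J : ℕ) (f g : V → ℝ) (x : V) :
    S.R a J (fun y => f y + g y) x = S.R a J f x + S.R a J g x := by
  induction J generalizing x with
  | zero => simp [R]
  | succ J ih =>
    rw [R_succ, R_succ, R_succ]
    have e : S.R a J (fun y => f y + g y) = fun y => S.R a J f y + S.R a J g y := funext ih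
    rw [e, S.P_add]; ring

lemma R_smul (a : ℝ) (J : ℕ) (c : ℝ) (f : V → ℝ) (x : V) :
    S.R a J (fun y => c * f y) x = c * S.R a J f x := by
  induction J generalizing x with
  | zero => simp [R]
  | succ J ih =>
    rw [R_succ, R_succ]
    have e : S.R a J (fun y => c * f y) = fun y => c * S.R a J f y := funext ih
    rw [e, S.P_smul]; ring

/-- If `f ≥ 0`, applying the truncated resolvent to `f - a P f` gives at most `f`. -/
lemma R_sub_le {a : ℝ} (ha : 0 ≤ a) (J : ℕ) {f : V → ℝ} (hf : ∀ x, 0 ≤ f x) (x : V) :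
    S.R a J (fun y => f y - a * S.P f y) x ≤ f x := by
  induction J generalizing x with
  | zero => exact hf x
  | succ J ih =>
    rw [R_succ]
    have := mul_le_mul_of_nonneg_left (S.P_mono ih x) ha
    linarith

/-- the sum `1 + a + ... + a ^ (J - 1)` -/
def SJ (a : ℝ) (J : ℕ) : ℝ := ∑ j ∈ range J, a ^ j

lemma SJ_succ (a : ℝ) (J : ℕ) : SJ a (J + 1) = 1 + a * SJ a J := by
  unfold SJ
  rw [sum_range_succ', mul_sum, pow_zero, add_comm]
  congr 1
  exact sum_congr rfl fun j _ => by ring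

lemma R_const (a : ℝ) (J : ℕ) (c : ℝ) (x : V) : S.R a J (fun _ => c) x = c * SJ a J := by
  induction J generalizing x with
  | zero => simp [R, SJ]
  | succ J ih =>
    rw [R_succ]
    have e : S.R a J (fun _ => c) = fun y => (c * SJ a J) * 1 := by
      funext y; rw [ih y, mul_one]
    rw [e, S.P_smul, S.P_one, SJ_succ]; ring

lemma sum_U (a : ℝ) (o : V) (J : ℕ) (L : Finset V) (hL : S.ball o J ⊆ L) :
    ∑ x ∈ L, S.U a o J x = SJ a J := by
  have := S.R_eq_sum a o J (fun _ => 1) L hL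
  simp only [mul_one] at this
  rw [← this, S.R_const, one_mul]

lemma U_nonneg {a : ℝ} (ha : 0 ≤ a) (o : V) (J : ℕ) (x : V) : 0 ≤ S.U a o J x := by
  induction J generalizing x with
  | zero => exact le_rfl
  | succ J ih =>
    rw [U_succ]
    have h : 0 ≤ S.Q (S.U a o J) x := by
      refine le_trans ?_ (S.Q_mono ih x)
      rw [Q_zero]
    positivity

lemma U_le_succ {a : ℝ} (ha : 0 ≤ a) (o : V) (J : ℕ) (x : V) :
    S.U a o J x ≤ S.U a o (J + 1) x := by
  induction J generalizing x with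
  | zero => exact S.U_nonneg ha o _ x
  | succ J ih =>
    rw [U_succ, U_succ]
    have := mul_le_mul_of_nonneg_left (S.Q_mono ih x) ha
    linarith

lemma U_le_diag {a : ℝ} (ha : 0 ≤ a) (ha1 : a ≤ 1) (o : V) (J : ℕ) (x : V) :
    S.U a o J x ≤ S.U a o J o := by
  induction J generalizing x with
  | zero => exact le_rfl
  | succ J ih =>
    by_cases hx : x = o
    · rw [hx]
    · have h1 : S.U a o (J + 1) x = a * S.Q (S.U a o J) x := by simp [U_succ, hx]
      have h2 := S.Q_le_const ih x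
      have h3 := S.U_nonneg ha o J o
      calc S.U a o (J + 1) x = a * S.Q (S.U a o J) x := h1
        _ ≤ a * S.U a o J o := mul_le_mul_of_nonneg_left h2 ha
        _ ≤ 1 * S.U a o J o := mul_le_mul_of_nonneg_right ha1 h3
        _ ≤ _ := by rw [one_mul]; exact S.U_le_succ ha o J o

/-- The deterministic inequality behind the noise estimate. -/
lemma noise_det {a : ℝ} (ha : 0 ≤ a) (ha1 : a ≤ 1) (o : V) (J : ℕ) (L : Finset V)
    (hL : S.ball o (J + 1) ⊆ L) :
    ∑ y ∈ L, (a * S.Q (fun z => S.U a o J z ^ 2) y - (a * S.Q (S.U a o J) y) ^ 2) ≤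
      2 * S.U a o (J + 1) o - 1 := by
  rw [sum_sub_distrib]
  have h1 : ∑ y ∈ L, a * S.Q (fun z => S.U a o J z ^ 2) y = a * ∑ x ∈ L, S.U a o J x ^ 2 := by
    rw [← mul_sum]
    congr 1
    have := S.adj (fun z => S.U a o J z ^ 2) (fun _ => 1) (S.ball o J) L
      (fun x hx => by simp [S.U_eq_zero a o J x hx])
      (fun x hx => (S.nb_subset_ball o J hx).trans hL)
    simp only [mul_one] at this
    rw [this]
    simp_rw [S.P_one, mul_one]
    refine sum_subset ((S.ball_succ o J).trans hL) fun x _ hx => ?_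
    rw [S.U_eq_zero a o J x hx]; simp
  have h2 : ∑ y ∈ L, (a * S.Q (S.U a o J) y) ^ 2 =
      ∑ y ∈ L, S.U a o (J + 1) y ^ 2 - 2 * S.U a o (J + 1) o + 1 := by
    have e : ∀ y, (a * S.Q (S.U a o J) y) ^ 2 = S.U a o (J + 1) y ^ 2 -
        2 * ((if y = o then 1 else 0) * S.U a o (J + 1) y) + (if y = o then 1 else 0) := by
      intro y
      have : a * S.Q (S.U a o J) y = S.U a o (J + 1) y - (if y = o then 1 else 0) := by
        rw [U_succ]; ring
      rw [this]
      split_ifs <;> ring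
    simp_rw [e, sum_add_distrib, sum_sub_distrib, ← mul_sum]
    have ho : o ∈ L := hL (S.mem_ball o _)
    simp [ho]
  rw [h1, h2]
  have h3 : ∑ x ∈ L, S.U a o J x ^ 2 ≤ ∑ x ∈ L, S.U a o (J + 1) x ^ 2 :=
    sum_le_sum fun x _ => pow_le_pow_left₀ (S.U_nonneg ha o J x) (S.U_le_succ ha o J x) 2
  have h4 : 0 ≤ ∑ x ∈ L, S.U a o J x ^ 2 := sum_nonneg fun x _ => sq_nonneg _
  nlinarith

end Tri

end Pool.Agent.TH996.Park
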