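import Pool.Agent.TH996.Final

/-!
Removing the killing.
-/

namespace Pool.Agent.TH996.Park

open MeasureTheory Measure Finset Filter
open scoped ENNReal Topology

variable {V : Type*} [DecidableEq V] [MeasurableSpace V] [MeasurableSingletonClass V] [Countable V]

/-- the law without killing -/
noncomputable def Tri.law0 (S : Tri V) (p : ℝ) : Measure ((V → Bool) × (ℕ × V × ℕ → V)) :=
  (infinitePi fun _ : V => bern p).prod
    (infinitePi fun a : ℕ × V × ℕ => stepLaw S.nb S.K a.2.1)

/-- embed with no killing -/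
def emb (ω : (V → Bool) × (ℕ × V × ℕ → V)) : Om V := (ω.1, (ω.2, fun _ => false))

section

variable (S : Tri V) {p κ : ℝ} (hp : 0 ≤ p ∧ p ≤ 1) (hκ : 0 ≤ κ ∧ κ ≤ 1)

omit [DecidableEq V] [MeasurableSingletonClass V] [Countable V] in
lemma measurable_emb : Measurable (emb (V := V)) :=
  measurable_fst.prodMk (measurable_snd.prodMk measurable_const)

include hp in
lemma law0_prob : IsProbabilityMeasure (S.law0 p) := by
  have := bern_prob hp.1 hp.2
  unfold Tri.law0
  infer_instance

include hp hκ in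
lemma integral_law (G : (V → Bool) × (ℕ × V × ℕ → V) → ℝ) (hG : BM G)
    (H : (ℕ × V × ℕ → Bool) → ℝ) (hH : BM H) :
    ∫ ω : Om V, G (ω.1, ω.2.1) * H ω.2.2 ∂(S.law p κ) =
      (∫ ω, G ω ∂(S.law0 p)) * ∫ b, H b ∂(infinitePi fun _ : ℕ × V × ℕ => bern κ) := by
  have := bern_prob hp.1 hp.2
  have := bern_prob hκ.1 hκ.2
  have := law_prob S hp hκ
  have := law0_prob S hp
  have hm1 : Measurable (fun ω : Om V => (ω.1, ω.2.1)) :=
    measurable_fst.prodMk (measurable_fst.comp measurable_snd)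
  have hb : BM (fun ω : Om V => G (ω.1, ω.2.1) * H ω.2.2) :=
    (hG.comp hm1).mul (hH.comp (measurable_snd.comp measurable_snd))
  have h1 := hb.integrable (S.law p κ)
  unfold Tri.law at h1 ⊢
  rw [integral_prod _ h1]
  have h2 : ∀ η : V → Bool, ∫ q : (ℕ × V × ℕ → V) × (ℕ × V × ℕ → Bool),
      G (η, q.1) * H q.2 ∂((infinitePi fun a : ℕ × V × ℕ => stepLaw S.nb S.K a.2.1).prod
      (infinitePi fun _ : ℕ × V × ℕ => bern κ)) =
      (∫ ξ, G (η, ξ) ∂(infinitePi fun a : ℕ × V × ℕ => stepLaw S.nb S.K a.2.1)) *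
      ∫ b, H b ∂(infinitePi fun _ : ℕ × V × ℕ => bern κ) := by
    intro η
    exact integral_prod_mul (fun ξ => G (η, ξ)) H
  simp only [h2]
  rw [integral_mul_const]
  congr 1
  unfold Tri.law0
  rw [integral_prod]
  exact hG.integrable _

lemma BM.indicator_pi (A : Finset (ℕ × V × ℕ)) :
    BM (fun b : ℕ × V × ℕ → Bool => ∏ a ∈ A, (if b a = false then (1 : ℝ) else 0)) := by
  refine ⟨?_, 1, fun b => ?_⟩
  · refine Finset.measurable_prod _ fun a _ => ?_
    exact (measurable_of_countable (fun c : Bool => if c = false then (1 : ℝ) else 0)).comp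
      (measurable_pi_apply a)
  · rw [abs_of_nonneg]
    · exact prod_le_one (fun a _ => by split_ifs <;> simp) fun a _ => by split_ifs <;> simp
    · exact prod_nonneg fun a _ => by split_ifs <;> simp

include hκ in
lemma integral_pi_false (A : Finset (ℕ × V × ℕ)) :
    ∫ b : ℕ × V × ℕ → Bool, ∏ a ∈ A, (if b a = false then (1 : ℝ) else 0)
      ∂(infinitePi fun _ : ℕ × V × ℕ => bern κ) = (1 - κ) ^ A.card := by
  have := bern_prob hκ.1 hκ.2
  induction A using Finset.induction_on with
  | empty => simp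
  | insert a A ha ih =>
    have hr := Resamp.pi (fun _ : ℕ × V × ℕ => bern κ) a
    have h := hr.integral_mul (BM.indicator_pi A)
      (G := fun b => if b a = false then (1 : ℝ) else 0)
      ⟨(measurable_of_countable (fun c : Bool => if c = false then (1 : ℝ) else 0)).comp
        (measurable_pi_apply a), 1, fun b => by split_ifs <;> simp⟩
      (fun c => if c = false then (1 : ℝ) else 0) ?_ ?_
    · simp_rw [prod_insert ha, mul_comm (if _ then _ else _)]
      rw [h, ih, integral_bern hκ.1 hκ.2, card_insert_of_notMem ha, pow_succ]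
      simp
    · intro b c
      refine prod_congr rfl fun a' ha' => ?_
      have : a' ≠ a := fun e => ha (e ▸ ha')
      rw [Function.update_of_ne this]
    · intro b c
      simp

include hp hκ in
/-- comparison of the killed and the unkilled process -/
lemma killed_ge (F : Om V → ℝ) (hF : BM F) (h0 : ∀ ω, 0 ≤ F ω) (A : Finset (ℕ × V × ℕ))
    (hA : ∀ ω : Om V, (∀ a ∈ A, ω.2.2 a = false) → F ω = F (emb (ω.1, ω.2.1))) :
    (1 - κ) ^ A.card * ∫ ω, F (emb ω) ∂(S.law0 p) ≤ ∫ ω, F ω ∂(S.law p κ) := by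
  have := law_prob S hp hκ
  have hFe : BM fun ω : (V → Bool) × (ℕ × V × ℕ → V) => F (emb ω) := hF.comp measurable_emb
  have hm1 : Measurable (fun ω : Om V => (ω.1, ω.2.1)) :=
    measurable_fst.prodMk (measurable_fst.comp measurable_snd)
  have h1 := integral_law S hp hκ _ hFe _ (BM.indicator_pi A)
  rw [integral_pi_false hκ] at h1
  rw [mul_comm, ← h1]
  refine integral_mono (((hFe.comp hm1).mul ((BM.indicator_pi A).comp
    (measurable_snd.comp measurable_snd))).integrable _) (hF.integrable _) fun ω => ?_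
  simp only
  by_cases h : ∀ a ∈ A, ω.2.2 a = false
  · rw [← hA ω h, prod_congr rfl (g := fun _ => (1 : ℝ)) fun a ha => by rw [if_pos (h a ha)]]
    simp
  · push Not at h
    obtain ⟨a, ha, hna⟩ := h
    rw [prod_eq_zero ha (by rw [if_neg hna]), mul_zero]
    exact h0 ω

include hp in
/-- The bound for the process without killing. -/
theorem sum_cars_le (hp2 : p < 1 / 2) (B : ℝ) (o : V)
    (hB : ∀ κ : ℝ, 0 < κ → κ ≤ 1 → ∀ J, S.U (1 - κ) o J o ≤ B) (T : ℕ) :
    (1 - 2 * p) * ∫ ω, Dn S T o (emb ω) ∂(S.law0 p) ≤ 4 * B := by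
  choose A hA using fun t => exists_finite_dep S.nb t o
  set AA := (range T).biUnion A with hAA
  have hDb : BM (Dn S T o) := BM.sum _ fun t _ => bm_C S.nb t o
  have key : ∀ κ : ℝ, 0 < κ → κ ≤ 1 → (1 - 2 * p) * ((1 - κ) ^ AA.card *
      ∫ ω, Dn S T o (emb ω) ∂(S.law0 p)) ≤ 4 * B := by
    intro κ k0 k1
    have hκ : 0 ≤ κ ∧ κ ≤ 1 := ⟨k0.le, k1⟩
    have := law_prob S hp hκ
    refine le_trans ?_ (mT_le S hp k0 k1 hp2 B o (hB κ k0 k1) T)
    refine mul_le_mul_of_nonneg_left ?_ (by linarith)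
    have h1 := killed_ge S hp hκ (Dn S T o) hDb (fun ω => Dn_nonneg S T o ω) AA ?_
    · refine h1.trans (le_of_eq ?_)
      unfold Dn mT aT
      exact integral_finsetSum _ fun t _ => (bm_C S.nb t o).integrable _
    · intro ω hω
      unfold Dn
      refine sum_congr rfl fun t ht => ?_
      have := (hA t (c0 ω.1) (f0 ω.1) (c0_le ω.1) ω.2.1 ω.2.2
        (fun a ha => hω a (mem_biUnion.2 ⟨t, ht, ha⟩))).1
      exact_mod_cast this
  set I := ∫ ω, Dn S T o (emb ω) ∂(S.law0 p)
  have l1 : Tendsto (fun n : ℕ => (1 - 2 * p) * ((1 - 1 / ((n : ℝ) + 1)) ^ AA.card * I)) atTop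
      (𝓝 ((1 - 2 * p) * ((1 - 0) ^ AA.card * I))) :=
    ((tendsto_const_nhds.sub tendsto_one_div_add_atTop_nhds_zero_nat).pow _ |>.mul_const _
      |>.const_mul _)
  have := le_of_tendsto' l1 fun n => key _ Nat.one_div_pos_of_nat (by
    rw [div_le_one (by positivity)]
    have : (0 : ℝ) ≤ n := Nat.cast_nonneg _
    linarith)
  simpa using this

end

end Pool.Agent.TH996.Park
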