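import Pool.Agent.TH996.Lump3

/-!
From graphs to the internal structure.
-/

namespace Pool.Agent.TH996.Park

open MeasureTheory Measure Finset
open scoped ENNReal
open Pool.Agent.TH996.Parking

/-- A connected locally finite graph is countable. -/
lemma countable_of_connected {V : Type*} (G : SimpleGraph V) [G.LocallyFinite]
    (hG : G.Connected) : Countable V := by
  classical
  obtain ⟨o⟩ := hG.nonempty
  let B : ℕ → Set V := fun n => Nat.rec {o} (fun _ s => s ∪ ⋃ v ∈ s, G.neighborSet v) n
  have hB : ∀ n, (B n).Countable := by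
    intro n
    induction n with
    | zero => exact Set.countable_singleton o
    | succ n ih =>
      refine ih.union (ih.biUnion fun v _ => ?_)
      have : (G.neighborSet v).Finite := Set.toFinite _
      exact this.countable
  have hall : ∀ v : V, ∃ n, v ∈ B n := by
    intro v
    obtain ⟨w⟩ := hG.preconnected v o
    induction w with
    | nil => exact ⟨0, rfl⟩
    | cons h w ih =>
      obtain ⟨n, hn⟩ := ih (by
        exact hB)
      refine ⟨n + 1, Or.inr ?_⟩
      simp only [Set.mem_iUnion]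
      exact ⟨_, hn, h.symm⟩
  have : (Set.univ : Set V) ⊆ ⋃ n, B n := fun v _ => Set.mem_iUnion.2 (hall v)
  exact Set.countable_univ_iff.1 ((Set.countable_iUnion hB).mono this)

section

variable {V : Type*} [DecidableEq V]

/-- the internal structure -/
def mkTri (G : SimpleGraph V) [G.LocallyFinite] (K : V → V → ℝ) (Γ : Subgroup (Equiv.Perm V))
    (hK : IsKernel G K) (hA : IsAut G K Γ) (hT : IsTransitive Γ) (hU : IsUnimodular Γ) : Tri V where
  nb := fun x => G.neighborFinset x
  K := K
  symm := fun x y h => by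
    rw [SimpleGraph.mem_neighborFinset] at h ⊢
    exact h.symm
  nonneg := hK.nonneg
  supp := fun x y h => hK.supp x y fun h' => h ((SimpleGraph.mem_neighborFinset _ _ _).2 h')
  sum_one := hK.sum_one
  Γ := Γ
  inv_nb := fun γ hγ x => by
    ext w
    simp only [SimpleGraph.mem_neighborFinset, Finset.mem_image]
    constructor
    · intro h
      refine ⟨γ.symm w, ?_, by simp⟩
      rw [← hA.adj γ hγ]
      simpa using h
    · rintro ⟨z, hz, rfl⟩
      exact (hA.adj γ hγ _ _).2 hz
  inv_K := hA.ker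
  trans := hT
  fin := fun u v => (hU u v).1
  unimod := fun u v => (hU u v).2

variable [MeasurableSpace V] [MeasurableSingletonClass V] [Countable V]

lemma aC_eq (S : Tri V) {p : ℝ} (hp : 0 ≤ p ∧ p ≤ 1) (x : V) (t : ℕ) :
    aC S p x t = ENNReal.ofReal (aT S p 0 x t) := by
  have := law0_prob S hp
  rw [LC_eq S hp, aT, law_emb S hp (bm_C S.nb t x)]
  rw [ofReal_integral_eq_lintegral_ofReal ((bm_C S.nb t x).comp measurable_emb |>.integrable _)
    (Filter.Eventually.of_forall fun _ => Nat.cast_nonneg _)]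
  refine lintegral_congr fun ω => ?_
  rw [ENNReal.ofReal_natCast]

lemma totalVisits_mean (S : Tri V) {p : ℝ} (hp : 0 ≤ p ∧ p ≤ 1) (x : V) :
    ∫⁻ ω, totalVisits x ω ∂(LL S p) = ∑' t : ℕ, ENNReal.ofReal (aT S p 0 x t) := by
  have := bern_prob hp.1 hp.2
  unfold totalVisits
  have hst : ∀ (ω : (V → Bool) × (ℕ → Noise V)) (t : ℕ),
      state ω.1 ω.2 t = chain next X0L ω t := fun ω t => state_eq ω.1 ω.2 t
  simp_rw [hst]
  have hA' : Measurable fun q : State V × Noise V => (((visitors q.1 q.2 x).encard : ℕ∞) : ℝ≥0∞) :=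
    measurable_encard (fun q : State V × Noise V => visitors q.1 q.2 x)
      fun c => measurableSet_visit c x
  have hm : ∀ t, Measurable fun ω : (V → Bool) × (ℕ → Noise V) =>
      (((visitors (chain next X0L ω t) (ω.2 t) x).encard : ℕ∞) : ℝ≥0∞) := fun t =>
    hA'.comp ((measurable_chain measurable_next measurable_X0L t).prodMk
      ((measurable_pi_apply t).comp measurable_snd))
  rw [lintegral_tsum fun t => (hm t).aemeasurable]
  refine tsum_congr fun t => ?_
  rw [mean_visitors S hp t x]
  have h1 : ∀ y, aC S p y t = ENNReal.ofReal (aT S p 0 x t) := by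
    intro y
    rw [aC_eq S hp]
    congr 1
    exact mean_inv S hp ⟨le_rfl, zero_le_one⟩ t y x
  simp_rw [h1]
  rw [← sum_mul, ← ENNReal.ofReal_sum_of_nonneg fun _ _ => S.nonneg _ _, S.col_one]
  simp

omit [MeasurableSingletonClass V] [Countable V] in
lemma parkingLaw_eq (G : SimpleGraph V) [G.LocallyFinite] (K : V → V → ℝ)
    (Γ : Subgroup (Equiv.Perm V)) (hK : IsKernel G K) (hA : IsAut G K Γ) (hT : IsTransitive Γ)
    (hU : IsUnimodular Γ) (p : ℝ) : parkingLaw G K p = LL (mkTri G K Γ hK hA hT hU) p := rfl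

/-- The expected number of visits as a series. -/
theorem expectedVisits_eq (G : SimpleGraph V) [G.LocallyFinite] (K : V → V → ℝ)
    (Γ : Subgroup (Equiv.Perm V)) (hK : IsKernel G K) (hA : IsAut G K Γ) (hT : IsTransitive Γ)
    (hU : IsUnimodular Γ) {p : ℝ} (hp : 0 ≤ p ∧ p ≤ 1) (x : V) :
    expectedVisits G K p x =
      ∑' t : ℕ, ENNReal.ofReal (aT (mkTri G K Γ hK hA hT hU) p 0 x t) := by
  unfold expectedVisits
  rw [parkingLaw_eq G K Γ hK hA hT hU]
  exact totalVisits_mean _ hp x

/-- If the partial sums of the numbers of cars are bounded, so is the number of visits. -/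
theorem expectedVisits_le (G : SimpleGraph V) [G.LocallyFinite] (K : V → V → ℝ)
    (Γ : Subgroup (Equiv.Perm V)) (hK : IsKernel G K) (hA : IsAut G K Γ) (hT : IsTransitive Γ)
    (hU : IsUnimodular Γ) {p : ℝ} (hp : 0 ≤ p ∧ p ≤ 1) (x : V) (C : ℝ)
    (h : ∀ T, ∑ t ∈ range T, aT (mkTri G K Γ hK hA hT hU) p 0 x t ≤ C) :
    expectedVisits G K p x ≤ ENNReal.ofReal C := by
  rw [expectedVisits_eq G K Γ hK hA hT hU hp x]
  refine ENNReal.tsum_le_of_sum_range_le fun T => ?_
  rw [← ENNReal.ofReal_sum_of_nonneg fun _ _ => aT_nonneg _ _ _]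
  exact ENNReal.ofReal_le_ofReal (h T)

omit [MeasurableSpace V] [MeasurableSingletonClass V] [Countable V] in
lemma U_le_stepProb (G : SimpleGraph V) [G.LocallyFinite] (K : V → V → ℝ)
    (Γ : Subgroup (Equiv.Perm V)) (hK : IsKernel G K) (hA : IsAut G K Γ) (hT : IsTransitive Γ)
    (hU : IsUnimodular Γ) {a : ℝ} (ha : 0 ≤ a) (ha1 : a ≤ 1) (o : V) (J : ℕ) (x : V) :
    (mkTri G K Γ hK hA hT hU).U a o J x ≤ ∑ j ∈ range J, stepProb G K j x o := by
  induction J generalizing x with
  | zero => simp [Tri.U]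
  | succ J ih =>
    rw [Tri.U_succ, sum_range_succ']
    have h0 : stepProb G K 0 x o = if x = o then 1 else 0 := by
      simp only [stepProb]
      by_cases h : x = o <;> simp [h]
    have h1 : (mkTri G K Γ hK hA hT hU).Q ((mkTri G K Γ hK hA hT hU).U a o J) x ≤
        ∑ j ∈ range J, stepProb G K (j + 1) x o := by
      calc _ ≤ ∑ y ∈ G.neighborFinset x, K x y * ∑ j ∈ range J, stepProb G K j y o :=
            sum_le_sum fun y _ => mul_le_mul_of_nonneg_left (ih y) (hK.nonneg _ _)
        _ = _ := by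
            simp_rw [mul_sum]
            rw [Finset.sum_comm]
            rfl
    have h2 : 0 ≤ (mkTri G K Γ hK hA hT hU).Q ((mkTri G K Γ hK hA hT hU).U a o J) x :=
      sum_nonneg fun y _ => mul_nonneg (hK.nonneg _ _) (Tri.U_nonneg _ ha o J y)
    rw [h0]
    nlinarith

end

end Pool.Agent.TH996.Park
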