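import Pool.Agent.TH996.ParkDefs
import Pool.Agent.TH996.Limit

/-!
The process with named cars has the same counts as the process with anonymous cars.
-/

namespace Pool.Agent.TH996.Park

open MeasureTheory Measure Finset
open scoped ENNReal
open Pool.Agent.TH996.Parking

/-! ### Markov chains driven by independent noise -/

section chain

variable {St N In : Type*} [MeasurableSpace St] [MeasurableSpace N] [MeasurableSpace In]

/-- chain driven by noise -/
def chain (step : St → N → St) (X0 : In → St) (ω : In × (ℕ → N)) : ℕ → St
  | 0 => X0 ω.1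
  | t + 1 => step (chain step X0 ω t) (ω.2 t)

lemma chain_update (step : St → N → St) (X0 : In → St) (i : In) (ω : ℕ → N) (t s : ℕ) (h : t ≤ s)
    (n : N) : chain step X0 (i, Function.update ω s n) t = chain step X0 (i, ω) t := by
  induction t with
  | zero => rfl
  | succ t ih =>
    simp only [chain]
    rw [ih (by omega), Function.update_of_ne (by omega)]

lemma measurable_chain {step : St → N → St} (hs : Measurable fun q : St × N => step q.1 q.2)
    {X0 : In → St} (h0 : Measurable X0) (t : ℕ) :
    Measurable fun ω : In × (ℕ → N) => chain step X0 ω t := by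
  induction t with
  | zero => exact h0.comp measurable_fst
  | succ t ih =>
    exact hs.comp (ih.prodMk ((measurable_pi_apply t).comp measurable_snd))

variable (M : Measure N) [IsProbabilityMeasure M] (ν : Measure In) [IsProbabilityMeasure ν]

/-- law of a chain -/
lemma chain_succ {step : St → N → St} (hs : Measurable fun q : St × N => step q.1 q.2)
    {X0 : In → St} (h0 : Measurable X0) (t : ℕ) {Φ : St × N → ℝ≥0∞} (hΦ : Measurable Φ) :
    ∫⁻ ω, Φ (chain step X0 ω t, ω.2 t) ∂(ν.prod (infinitePi fun _ : ℕ => M)) =
      ∫⁻ ω, (∫⁻ n, Φ (chain step X0 ω t, n) ∂M) ∂(ν.prod (infinitePi fun _ : ℕ => M)) := by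
  have hr := (Resamp.pi (fun _ : ℕ => M) t).right ν
  have hc := measurable_chain hs h0 t
  have hF : Measurable fun ω : In × (ℕ → N) => Φ (chain step X0 ω t, ω.2 t) :=
    hΦ.comp (hc.prodMk ((measurable_pi_apply t).comp measurable_snd))
  have h1 := lintegral_map (μ := (ν.prod (infinitePi fun _ : ℕ => M)).prod M) hF hr.measurable
  rw [hr.map_eq] at h1
  have h2 := lintegral_prod (μ := ν.prod (infinitePi fun _ : ℕ => M)) (ν := M)
    (fun q => Φ (chain step X0 (q.1.1, Function.update q.1.2 t q.2) t,
      Function.update q.1.2 t q.2 t)) (hF.comp hr.measurable).aemeasurable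
  refine (h1.trans h2).trans ?_
  refine lintegral_congr fun ω => lintegral_congr fun n => ?_
  have := chain_update step X0 ω.1 ω.2 t t le_rfl n
  simp only [this, Function.update_self]

end chain

/-! ### One step of the process with named cars -/

variable {V : Type*}

/-- unparked cars at `x` -/
def occ (s : State V) (x : V) : Set V := {c | s.2.1 c = true ∧ s.1 c = x}

/-- number of unparked cars at `x` -/
noncomputable def cnt (s : State V) (x : V) : ℕ := (occ s x).ncard

/-- number of free spots at `x` -/
def frs (s : State V) (x : V) : ℕ := if s.2.2 x then 1 else 0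

/-- moves along edges, no ties -/
def GoodN (nb : V → Finset V) (n : Noise V) : Prop :=
  (∀ c y, n.1 (c, y) ∈ nb y) ∧ ∀ c d, c ≠ d → n.2 c ≠ n.2 d

lemma mem_visitors {s : State V} {n : Noise V} {x c : V} :
    c ∈ visitors s n x ↔ s.2.1 c = true ∧ n.1 (c, s.1 c) = x := by
  unfold visitors newPos
  simp only [Set.mem_ofPred_eq]
  constructor
  · rintro ⟨h1, h2⟩
    rw [if_pos h1] at h2
    exact ⟨h1, h2⟩
  · rintro ⟨h1, h2⟩
    rw [if_pos h1]
    exact ⟨h1, h2⟩

section onestep

variable [DecidableEq V] {nb : V → Finset V} (hnb : ∀ x y, y ∈ nb x → x ∈ nb y)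
  {s : State V} (hs : ∀ x, (occ s x).Finite) {n : Noise V} (hn : GoodN nb n)

/-- visitors as a finite set -/
noncomputable def visF (nb : V → Finset V) (hs : ∀ x, (occ s x).Finite) (n : Noise V) (x : V) :
    Finset V :=
  (nb x).biUnion fun y => (hs y).toFinset.filter fun c => n.1 (c, y) = x

include hnb hn in
lemma coe_visF (x : V) : (visF nb hs n x : Set V) = visitors s n x := by
  ext c
  rw [mem_visitors]
  simp only [visF, Finset.coe_biUnion, Finset.coe_filter, Set.Finite.mem_toFinset, occ,
    Set.mem_iUnion, Set.mem_ofPred_eq, exists_prop, Finset.mem_coe]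
  constructor
  · rintro ⟨y, _, ⟨h1, h2⟩, h3⟩
    refine ⟨h1, ?_⟩
    rw [h2]; exact h3
  · rintro ⟨h1, h2⟩
    refine ⟨s.1 c, ?_, ⟨h1, rfl⟩, h2⟩
    have := hn.1 c (s.1 c)
    rw [h2] at this
    exact hnb _ _ this

include hnb hs hn in
lemma visitors_finite (x : V) : (visitors s n x).Finite := by
  rw [← coe_visF hnb hs hn x]
  exact Finset.finite_toSet _

include hnb hn in
lemma ncard_visitors (x : V) : (visitors s n x).ncard =
    ∑ y ∈ nb x, ((hs y).toFinset.filter fun c => n.1 (c, y) = x).card := by
  rw [← coe_visF hnb hs hn x, Set.ncard_coe_finset, visF, card_biUnion]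
  intro y _ y' _ hyy
  rw [Function.onFun, disjoint_left]
  intro c hc hc'
  simp only [mem_filter, Set.Finite.mem_toFinset, occ, Set.mem_ofPred_eq] at hc hc'
  exact hyy (hc.1.2.symm.trans hc'.1.2)

lemma mem_occ_next {c x : V} : c ∈ occ (next s n) x ↔ c ∈ visitors s n x ∧
    ¬ (s.2.2 x = true ∧ ∀ d ∈ visitors s n x, d ≠ c → n.2 c < n.2 d) := by
  simp only [occ, next, Set.mem_ofPred_eq, Bool.and_eq_true, Bool.not_eq_true',
    decide_eq_false_iff_not]
  constructor
  · rintro ⟨⟨h1, h2⟩, h3⟩
    have h4 : c ∈ visitors s n x := ⟨h1, h3⟩
    rw [h3] at h2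
    exact ⟨h4, h2⟩
  · rintro ⟨⟨h1, h3⟩, h2⟩
    rw [h3]
    exact ⟨⟨h1, h2⟩, rfl⟩

include hnb hs hn in
lemma occ_next_finite (x : V) : (occ (next s n) x).Finite :=
  (visitors_finite hnb hs hn x).subset fun _ hc => (mem_occ_next.1 hc).1

include hnb hs hn in
lemma cnt_next (x : V) : cnt (next s n) x = (visitors s n x).ncard - frs s x := by
  unfold cnt frs
  by_cases hf : s.2.2 x = true
  · rw [if_pos hf]
    rcases (visitors s n x).eq_empty_or_nonempty with he | hne
    · have : occ (next s n) x = ∅ := by
        ext c
        rw [mem_occ_next, he]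
        simp
      rw [this, he]
      simp
    · obtain ⟨c0, hc0, hmin⟩ := (visitors_finite hnb hs hn x).exists_minimalFor n.2 _ hne
      have hmin' : ∀ d ∈ visitors s n x, d ≠ c0 → n.2 c0 < n.2 d := by
        intro d hd hne'
        rcases lt_trichotomy (n.2 c0) (n.2 d) with h | h | h
        · exact h
        · exact absurd h.symm (hn.2 d c0 hne')
        · exact absurd (hmin hd h.le) (not_le.2 h)
      have : occ (next s n) x = visitors s n x \ {c0} := by
        ext c
        rw [mem_occ_next, Set.mem_sdiff, Set.mem_singleton_iff]
        refine and_congr_right fun hc => ?_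
        rw [not_iff_not]
        constructor
        · rintro ⟨_, h⟩
          by_contra hcc
          have h1 := h c0 hc0 (Ne.symm hcc)
          have h2 := hmin' c hc hcc
          exact lt_asymm h1 h2
        · rintro rfl
          exact ⟨hf, hmin'⟩
      rw [this, Set.ncard_sdiff_singleton_of_mem hc0]
  · rw [if_neg hf]
    have : occ (next s n) x = visitors s n x := by
      ext c
      rw [mem_occ_next]
      simp [hf]
    rw [this]
    simp

include hnb hs hn in
lemma frs_next (x : V) : frs (next s n) x = frs s x - (visitors s n x).ncard := by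
  have hfin := visitors_finite hnb hs hn x
  unfold frs next
  simp only [Bool.and_eq_true, decide_eq_true_eq]
  by_cases hf : s.2.2 x = true
  · rw [if_pos hf]
    by_cases he : visitors s n x = ∅
    · rw [if_pos ⟨hf, he⟩, he]; simp
    · rw [if_neg fun h => he h.2]
      have : 0 < (visitors s n x).ncard := by
        rw [Nat.pos_iff_ne_zero, Ne, Set.ncard_eq_zero hfin]
        exact he
      omega
  · rw [if_neg hf, if_neg fun h => hf h.1]
    simp

end onestep

/-! ### Measurability -/

section meas

variable [MeasurableSpace V] [MeasurableSingletonClass V] [Countable V]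

lemma measurable_newPos (c : V) : Measurable fun q : State V × Noise V => newPos q.1 q.2 c := by
  unfold newPos
  have h1 : Measurable fun q : State V × Noise V => q.1.2.1 c :=
    (measurable_pi_apply c).comp (measurable_fst.comp (measurable_snd.comp measurable_fst))
  have h2 : Measurable fun q : State V × Noise V => q.1.1 c :=
    (measurable_pi_apply c).comp (measurable_fst.comp measurable_fst)
  have h3 : Measurable fun r : V × (State V × Noise V) => r.2.2.1 (c, r.1) := by
    refine measurable_from_prod_countable_right fun y => ?_
    exact (measurable_pi_apply (c, y)).comp (measurable_fst.comp measurable_snd)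
  have h4 : Measurable fun q : State V × Noise V => q.2.1 (c, q.1.1 c) :=
    h3.comp (h2.prodMk measurable_id)
  exact Measurable.ite (h1 (measurableSet_singleton true)) h4 h2

lemma measurableSet_visit (c x : V) :
    MeasurableSet {q : State V × Noise V | c ∈ visitors q.1 q.2 x} := by
  have h1 : Measurable fun q : State V × Noise V => q.1.2.1 c :=
    (measurable_pi_apply c).comp (measurable_fst.comp (measurable_snd.comp measurable_fst))
  exact (h1 (measurableSet_singleton true)).inter
    ((measurable_newPos c) (measurableSet_singleton x))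

lemma measurable_next : Measurable fun q : State V × Noise V => next q.1 q.2 := by
  classical
  have h1 : ∀ c, Measurable fun q : State V × Noise V => q.1.2.1 c := fun c =>
    (measurable_pi_apply c).comp (measurable_fst.comp (measurable_snd.comp measurable_fst))
  have hf : ∀ c, Measurable fun q : State V × Noise V => q.1.2.2 c := fun c =>
    (measurable_pi_apply c).comp (measurable_snd.comp (measurable_snd.comp measurable_fst))
  have hr : ∀ c, Measurable fun q : State V × Noise V => q.2.2 c := fun c =>
    (measurable_pi_apply c).comp (measurable_snd.comp measurable_snd)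
  refine Measurable.prodMk (measurable_pi_lambda _ measurable_newPos) (Measurable.prodMk ?_ ?_)
  · refine measurable_pi_lambda _ fun c => measurable_to_bool ?_
    have hfree : MeasurableSet {q : State V × Noise V | q.1.2.2 (newPos q.1 q.2 c) = true} := by
      have h3 : Measurable fun r : V × (State V × Noise V) => r.2.1.2.2 r.1 := by
        refine measurable_from_prod_countable_right fun y => ?_
        exact hf y
      have h4 : Measurable fun q : State V × Noise V => q.1.2.2 (newPos q.1 q.2 c) :=
        h3.comp ((measurable_newPos c).prodMk measurable_id)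
      exact h4 (measurableSet_singleton true)
    have hvis : ∀ d, MeasurableSet {q : State V × Noise V |
        d ∈ visitors q.1 q.2 (newPos q.1 q.2 c)} := by
      intro d
      have h3 : MeasurableSet {r : V × (State V × Noise V) | d ∈ visitors r.2.1 r.2.2 r.1} := by
        have : {r : V × (State V × Noise V) | d ∈ visitors r.2.1 r.2.2 r.1} =
            ⋃ x : V, ({x} : Set V) ×ˢ {q | d ∈ visitors q.1 q.2 x} := by
          ext ⟨x, q⟩
          simp
        rw [this]
        exact MeasurableSet.iUnion fun x =>
          (measurableSet_singleton x).prod (measurableSet_visit d x)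
      exact ((measurable_newPos c).prodMk measurable_id) h3
    have hall : MeasurableSet {q : State V × Noise V |
        ∀ d ∈ visitors q.1 q.2 (newPos q.1 q.2 c), d ≠ c → q.2.2 c < q.2.2 d} := by
      have : {q : State V × Noise V |
          ∀ d ∈ visitors q.1 q.2 (newPos q.1 q.2 c), d ≠ c → q.2.2 c < q.2.2 d} =
          ⋂ d : V, ({q | d ∈ visitors q.1 q.2 (newPos q.1 q.2 c)}ᶜ ∪
            ({_q | d = c} ∪ {q | q.2.2 c < q.2.2 d})) := by
        ext q
        simp only [Set.mem_ofPred_eq, Set.mem_iInter, Set.mem_union, Set.mem_compl_iff]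
        refine forall_congr' fun d => ?_
        tauto
      rw [this]
      refine MeasurableSet.iInter fun d => (hvis d).compl.union (MeasurableSet.union ?_ ?_)
      · exact MeasurableSet.const _
      · exact measurableSet_lt (hr c) (hr d)
    have : (fun q : State V × Noise V => (next q.1 q.2).2.1 c) ⁻¹' {true} =
        {q | q.1.2.1 c = true} ∩ ({q : State V × Noise V | q.1.2.2 (newPos q.1 q.2 c) = true} ∩
        {q | ∀ d ∈ visitors q.1 q.2 (newPos q.1 q.2 c), d ≠ c → q.2.2 c < q.2.2 d})ᶜ := by
      ext q
      simp only [next, Set.mem_preimage, Set.mem_singleton_iff, Bool.and_eq_true,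
        Bool.not_eq_true', decide_eq_false_iff_not, Set.mem_inter_iff, Set.mem_ofPred_eq,
        Set.mem_compl_iff]
    exact this ▸ ((h1 c) (measurableSet_singleton true)).inter (hfree.inter hall).compl
  · refine measurable_pi_lambda _ fun x => measurable_to_bool ?_
    have : (fun q : State V × Noise V => (next q.1 q.2).2.2 x) ⁻¹' {true} =
        {q | q.1.2.2 x = true} ∩ ⋂ c : V, {q | c ∈ visitors q.1 q.2 x}ᶜ := by
      ext q
      simp only [next, Set.mem_preimage, Set.mem_singleton_iff, Bool.and_eq_true,
        decide_eq_true_eq, Set.mem_inter_iff, Set.mem_ofPred_eq, Set.mem_iInter,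
        Set.mem_compl_iff, Set.eq_empty_iff_forall_notMem]
    exact this ▸ ((hf x) (measurableSet_singleton true)).inter
      (MeasurableSet.iInter fun c => (measurableSet_visit c x).compl)

lemma encard_eq_tsum (A : Set V) :
    ((A.encard : ℕ∞) : ℝ≥0∞) = ∑' c : V, A.indicator (fun _ => (1 : ℝ≥0∞)) c := by
  rw [← _root_.tsum_subtype, ENNReal.tsum_set_one]

omit [MeasurableSpace V] [MeasurableSingletonClass V] [Countable V] in
lemma ncard_eq_floor (A : Set V) : A.ncard = ⌊((A.encard : ℕ∞) : ℝ≥0∞).toReal⌋₊ := by
  rcases A.finite_or_infinite with h | h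
  · rw [← h.cast_ncard_eq]
    simp
  · rw [h.encard_eq, h.ncard]
    simp

lemma measurable_encard {α : Type*} [MeasurableSpace α] (A : α → Set V)
    (hA : ∀ c, MeasurableSet {a | c ∈ A a}) :
    Measurable fun a => (((A a).encard : ℕ∞) : ℝ≥0∞) := by
  simp_rw [encard_eq_tsum]
  refine Measurable.tsum fun c => ?_
  have : (fun a => (A a).indicator (fun _ => (1 : ℝ≥0∞)) c) =
      {a | c ∈ A a}.indicator fun _ => 1 := by
    funext a
    simp only [Set.indicator, Set.mem_ofPred_eq]
  rw [this]
  exact measurable_const.indicator (hA c)

lemma measurable_ncard {α : Type*} [MeasurableSpace α] (A : α → Set V)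
    (hA : ∀ c, MeasurableSet {a | c ∈ A a}) : Measurable fun a => (A a).ncard := by
  simp_rw [ncard_eq_floor]
  exact Nat.measurable_floor.comp (measurable_encard A hA).ennreal_toReal

/-- projection to counts -/
noncomputable def pr (s : State V) : (V → ℕ) × (V → ℕ) := (cnt s, frs s)

lemma measurable_pr : Measurable (pr (V := V)) := by
  refine Measurable.prodMk (measurable_pi_lambda _ fun x => ?_) (measurable_pi_lambda _ fun x => ?_)
  · refine measurable_ncard (fun s : State V => occ s x) fun c => ?_
    have h1 : Measurable fun s : State V => s.2.1 c :=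
      (measurable_pi_apply c).comp (measurable_fst.comp measurable_snd)
    have h2 : Measurable fun s : State V => s.1 c :=
      (measurable_pi_apply c).comp measurable_fst
    exact (h1 (measurableSet_singleton true)).inter (h2 (measurableSet_singleton x))
  · exact (measurable_of_countable (fun b : Bool => if b then 1 else 0)).comp
      ((measurable_pi_apply x).comp (measurable_snd.comp measurable_snd))

end meas

end Pool.Agent.TH996.Park
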