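import Pool.Agent.TH996.Lump

/-!
The process with named cars has the same counts as the process with anonymous cars: laws.
-/

namespace Pool.Agent.TH996.Park

open MeasureTheory Measure Finset
open scoped ENNReal
open Pool.Agent.TH996.Parking

variable {V : Type*} [DecidableEq V] [MeasurableSpace V] [MeasurableSingletonClass V] [Countable V]

/-- uniform law -/
noncomputable def unif : Measure ℝ := volume.restrict (Set.Icc (0 : ℝ) 1)

instance : IsProbabilityMeasure unif := by
  constructor
  simp [unif]

instance : NullSingletonClass unif := by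
  unfold unif; infer_instance

section

variable (S : Tri V)

/-- noise of one step, named cars -/
noncomputable def ML : Measure (Noise V) :=
  (infinitePi fun q : V × V => stepLaw S.nb S.K q.2).prod (infinitePi fun _ : V => unif)

/-- noise of one step, anonymous cars -/
noncomputable def MC : Measure (V × ℕ → V) := infinitePi fun q : V × ℕ => stepLaw S.nb S.K q.1

instance : IsProbabilityMeasure (ML S) := by unfold ML; infer_instance
instance : IsProbabilityMeasure (MC S) := by unfold MC; infer_instance

omit [Countable V] in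
lemma stepLaw_compl (y : V) : stepLaw S.nb S.K y {x | x ∉ S.nb y} = 0 := by
  unfold stepLaw
  rw [Measure.finsetSum_apply]
  refine sum_eq_zero fun z hz => ?_
  rw [Measure.smul_apply, Measure.dirac_apply]
  simp [hz]

lemma ties_null (c d : V) (h : c ≠ d) :
    (infinitePi fun _ : V => unif) {r | r c = r d} = 0 := by
  have hr := Resamp.pi (fun _ : V => unif) c
  have hms : MeasurableSet {r : V → ℝ | r c = r d} :=
    measurableSet_eq_fun (measurable_pi_apply c) (measurable_pi_apply d)
  rw [← hr.map_eq, map_apply hr.measurable hms, Measure.prod_apply (hr.measurable hms)]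
  have : ∀ r : V → ℝ, unif (Prod.mk r ⁻¹' ((fun q : (V → ℝ) × ℝ => Function.update q.1 c q.2) ⁻¹'
      {r | r c = r d})) = 0 := by
    intro r
    have e : Prod.mk r ⁻¹' ((fun q : (V → ℝ) × ℝ => Function.update q.1 c q.2) ⁻¹'
      {r | r c = r d}) = {r d} := by
      ext v
      simp [Function.update_of_ne h.symm]
    rw [e]
    exact measure_singleton _
  simp only [this, lintegral_zero]

lemma good_ae : ∀ᵐ n ∂(ML S), GoodN S.nb n := by
  have h1 : ∀ c y : V, ∀ᵐ n ∂(ML S), n.1 (c, y) ∈ S.nb y := by
    intro c y
    have hp : MeasurePreserving (fun n : Noise V => n.1 (c, y)) (ML S) (stepLaw S.nb S.K y) :=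
      (measurePreserving_eval_infinitePi (fun q : V × V => stepLaw S.nb S.K q.2) (c, y)).comp
        measurePreserving_fst
    rw [ae_iff]
    have := hp.measure_preimage (s := {x | x ∉ S.nb y}) (by measurability)
    rw [stepLaw_compl] at this
    exact this
  have h2 : ∀ c d : V, ∀ᵐ n ∂(ML S), c ≠ d → n.2 c ≠ n.2 d := by
    intro c d
    by_cases h : c = d
    · simp [h]
    · have hp : MeasurePreserving (fun n : Noise V => n.2) (ML S) (infinitePi fun _ : V => unif) :=
        measurePreserving_snd
      rw [ae_iff]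
      have hms : MeasurableSet {r : V → ℝ | r c = r d} :=
        measurableSet_eq_fun (measurable_pi_apply c) (measurable_pi_apply d)
      have := hp.measure_preimage hms.nullMeasurableSet
      rw [ties_null c d h] at this
      refine (measure_mono_null ?_ this)
      intro n hn
      simp only [Set.mem_ofPred_eq, not_forall, not_not, Set.mem_preimage] at hn ⊢
      exact hn.2
  have h1' := ae_all_iff.2 fun c => ae_all_iff.2 fun y => h1 c y
  have h2' := ae_all_iff.2 fun c => ae_all_iff.2 fun d => h2 c d
  filter_upwards [h1', h2'] with n a b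
  exact ⟨a, b⟩

/-- one step of the counts -/
def stepC (nb : V → Finset V) (s : (V → ℕ) × (V → ℕ)) (ζ : V × ℕ → V) : (V → ℕ) × (V → ℕ) :=
  (fun x => (∑ y ∈ nb x, ((range (s.1 y)).filter fun i => ζ (y, i) = x).card) - s.2 x,
    fun x => s.2 x - ∑ y ∈ nb x, ((range (s.1 y)).filter fun i => ζ (y, i) = x).card)

lemma measurable_stepC (nb : V → Finset V) :
    Measurable fun q : ((V → ℕ) × (V → ℕ)) × (V × ℕ → V) => stepC nb q.1 q.2 := by
  have hA : ∀ x, Measurable fun q : ((V → ℕ) × (V → ℕ)) × (V × ℕ → V) =>
      ∑ y ∈ nb x, ((range (q.1.1 y)).filter fun i => q.2 (y, i) = x).card := by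
    intro x
    refine Finset.measurable_fun_sum _ fun y _ => ?_
    have h : Measurable fun q : ℕ × (V × ℕ → V) => ((range q.1).filter
        fun i => q.2 (y, i) = x).card := by
      refine measurable_from_prod_countable_right fun n => ?_
      simp only [card_filter]
      refine Finset.measurable_fun_sum _ fun i _ => ?_
      have hm : Measurable fun q : V × ℕ → V => q (y, i) := measurable_pi_apply (y, i)
      exact Measurable.ite (hm (measurableSet_singleton x)) measurable_const measurable_const
    have hc : Measurable fun q : ((V → ℕ) × (V → ℕ)) × (V × ℕ → V) => q.1.1 y :=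
      (measurable_pi_apply y).comp (measurable_fst.comp measurable_fst)
    exact h.comp (hc.prodMk measurable_snd)
  have hf : ∀ x, Measurable fun q : ((V → ℕ) × (V → ℕ)) × (V × ℕ → V) => q.1.2 x := fun x =>
    (measurable_pi_apply x).comp (measurable_snd.comp measurable_fst)
  refine Measurable.prodMk (measurable_pi_lambda _ fun x => ?_) (measurable_pi_lambda _ fun x => ?_)
  · exact (measurable_of_countable (fun q : ℕ × ℕ => q.1 - q.2)).comp ((hA x).prodMk (hf x))
  · exact (measurable_of_countable (fun q : ℕ × ℕ => q.1 - q.2)).comp ((hf x).prodMk (hA x))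

section onestep

variable {s : State V} (hs : ∀ x, (occ s x).Finite)

omit [DecidableEq V] [MeasurableSpace V] [MeasurableSingletonClass V] [Countable V] in
include hs in
lemma card_occ (y : V) : (hs y).toFinset.card = cnt s y :=
  (Set.ncard_eq_toFinset_card _ (hs y)).symm

/-- the cars at `y` in some order -/
noncomputable def enum (hs : ∀ x, (occ s x).Finite) (y : V) : (hs y).toFinset ≃ Fin (cnt s y) :=
  Finset.equivFinOfCardEq (card_occ hs y)

/-- index set -/
abbrev Ix (s : State V) : Type _ := {q : V × ℕ // q.2 < cnt s q.1}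

/-- embedding of indices -/
noncomputable def jL (hs : ∀ x, (occ s x).Finite) (q : Ix s) : V × V :=
  (((enum hs q.1.1).symm ⟨q.1.2, q.2⟩ : (hs q.1.1).toFinset), q.1.1)

omit [DecidableEq V] [MeasurableSpace V] [MeasurableSingletonClass V] [Countable V] in
lemma jL_inj : Function.Injective (jL hs) := by
  rintro ⟨⟨y, i⟩, hi⟩ ⟨⟨y', i'⟩, hi'⟩ h
  simp only [jL, Prod.mk.injEq] at h
  obtain ⟨h1, rfl⟩ := h
  have h2 := (enum hs y).symm.injective (Subtype.ext h1)
  simp only [Fin.mk.injEq] at h2
  subst h2
  rfl

/-- arrivals from indices -/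
noncomputable def AI (nb : V → Finset V) (s : State V) (z : Ix s → V) (x : V) : ℕ :=
  ∑ y ∈ nb x, ((univ : Finset (Fin (cnt s y))).filter
    fun i : Fin (cnt s y) => z ⟨(y, (i : ℕ)), i.2⟩ = x).card

/-- next counts from indices -/
noncomputable def GI (nb : V → Finset V) (s : State V) (z : Ix s → V) : (V → ℕ) × (V → ℕ) :=
  (fun x => AI nb s z x - frs s x, fun x => frs s x - AI nb s z x)

lemma measurable_GI (nb : V → Finset V) : Measurable (GI nb s) := by
  have hA : ∀ x, Measurable fun z : Ix s → V => AI nb s z x := by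
    intro x
    unfold AI
    refine Finset.measurable_fun_sum _ fun y _ => ?_
    simp only [card_filter]
    refine Finset.measurable_fun_sum _ fun i _ => ?_
    have hm : Measurable fun z : Ix s → V => z ⟨(y, (i : ℕ)), i.2⟩ := measurable_pi_apply _
    exact Measurable.ite (hm (measurableSet_singleton x)) measurable_const measurable_const
  refine Measurable.prodMk (measurable_pi_lambda _ fun x => ?_) (measurable_pi_lambda _ fun x => ?_)
  · exact (measurable_of_countable (fun k : ℕ => k - frs s x)).comp (hA x)
  · exact (measurable_of_countable (fun k : ℕ => frs s x - k)).comp (hA x)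

omit [MeasurableSpace V] [MeasurableSingletonClass V] [Countable V] in
lemma ncard_visitors_AI {n : Noise V} (hn : GoodN S.nb n) (x : V) :
    (visitors s n x).ncard = AI S.nb s (fun q => n.1 (jL hs q)) x := by
  rw [ncard_visitors (fun x y h => S.symm x y h) hs hn]
  unfold AI
  refine sum_congr rfl fun y _ => ?_
  symm
  refine Finset.card_bij (fun i _ => (((enum hs y).symm i : (hs y).toFinset) : V)) ?_ ?_ ?_
  · intro i hi
    rw [Finset.mem_filter] at hi
    rw [Finset.mem_filter]
    exact ⟨((enum hs y).symm i).2, hi.2⟩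
  · intro i _ i' _ h
    exact (enum hs y).symm.injective (Subtype.ext h)
  · intro c hc
    rw [Finset.mem_filter] at hc
    refine ⟨enum hs y ⟨c, hc.1⟩, ?_, by simp⟩
    rw [Finset.mem_filter]
    refine ⟨mem_univ _, ?_⟩
    have e : jL hs ⟨(y, ((enum hs y ⟨c, hc.1⟩ : Fin (cnt s y)) : ℕ)), (enum hs y ⟨c, hc.1⟩).2⟩ =
        (c, y) := by
      simp [jL]
    change n.1 (jL hs _) = x
    rw [e]
    exact hc.2

omit [MeasurableSpace V] [MeasurableSingletonClass V] [Countable V] in
lemma pr_next {n : Noise V} (hn : GoodN S.nb n) :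
    pr (next s n) = GI S.nb s (fun q => n.1 (jL hs q)) := by
  refine Prod.ext (funext fun x => ?_) (funext fun x => ?_)
  · change cnt (next s n) x = _
    rw [cnt_next (fun x y h => S.symm x y h) hs hn, ncard_visitors_AI S hs hn]
    rfl
  · change frs (next s n) x = _
    rw [frs_next (fun x y h => S.symm x y h) hs hn, ncard_visitors_AI S hs hn]
    rfl

omit [MeasurableSpace V] [MeasurableSingletonClass V] [Countable V] in
lemma stepC_eq (nb : V → Finset V) (ζ : V × ℕ → V) :
    stepC nb (pr s) ζ = GI nb s (fun q => ζ q.1) := by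
  have h : ∀ x, ∑ y ∈ nb x, ((range ((pr s).1 y)).filter fun i => ζ (y, i) = x).card =
      AI nb s (fun q => ζ q.1) x := by
    intro x
    unfold AI
    refine sum_congr rfl fun y _ => ?_
    rw [card_filter, card_filter, Finset.sum_range]
    rfl
  unfold stepC GI
  simp only [h]
  rfl

include hs in
/-- one step of the lumping -/
lemma onestep {Φ : (V → ℕ) × (V → ℕ) → ℝ≥0∞} (hΦ : Measurable Φ) :
    ∫⁻ n, Φ (pr (next s n)) ∂(ML S) = ∫⁻ ζ, Φ (stepC S.nb (pr s) ζ) ∂(MC S) := by
  have hG : Measurable fun z : Ix s → V => Φ (GI S.nb s z) := hΦ.comp (measurable_GI S.nb)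
  have h1 : ∫⁻ n, Φ (pr (next s n)) ∂(ML S) =
      ∫⁻ n : Noise V, Φ (GI S.nb s (fun q => n.1 (jL hs q))) ∂(ML S) := by
    refine lintegral_congr_ae ?_
    filter_upwards [good_ae S] with n hn
    rw [pr_next S hs hn]
  have hm1 : Measurable fun (m : V × V → V) (q : Ix s) => m (jL hs q) :=
    measurable_pi_lambda _ fun _ => measurable_pi_apply _
  have hm2 : Measurable fun (m : V × ℕ → V) (q : Ix s) => m q.1 :=
    measurable_pi_lambda _ fun _ => measurable_pi_apply _
  have h2 : ∫⁻ n : Noise V, Φ (GI S.nb s (fun q => n.1 (jL hs q))) ∂(ML S) =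
      ∫⁻ z, Φ (GI S.nb s z) ∂(infinitePi fun q : Ix s => stepLaw S.nb S.K q.1.1) := by
    have hp : MeasurePreserving (fun n : Noise V => n.1) (ML S)
      (infinitePi fun q : V × V => stepLaw S.nb S.K q.2) := measurePreserving_fst
    rw [hp.lintegral_comp (f := fun m : V × V → V => Φ (GI S.nb s (fun q => m (jL hs q))))
      (hG.comp hm1)]
    have h3 := map_reindex (fun q : V × V => stepLaw S.nb S.K q.2) (jL hs) (jL_inj hs)
    have h4 := lintegral_map (μ := infinitePi fun q : V × V => stepLaw S.nb S.K q.2) hG hm1
    rw [h3] at h4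
    exact h4.symm
  have h5 : ∫⁻ ζ, Φ (stepC S.nb (pr s) ζ) ∂(MC S) =
      ∫⁻ z, Φ (GI S.nb s z) ∂(infinitePi fun q : Ix s => stepLaw S.nb S.K q.1.1) := by
    simp_rw [stepC_eq]
    have h3 := map_reindex (fun q : V × ℕ => stepLaw S.nb S.K q.1) (Subtype.val : Ix s → V × ℕ)
      Subtype.val_injective
    have h4 := lintegral_map (μ := infinitePi fun q : V × ℕ => stepLaw S.nb S.K q.1) hG hm2
    rw [h3] at h4
    exact h4.symm
  rw [h1, h2, h5]

end onestep

end

end Pool.Agent.TH996.Park
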