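import Pool.Agent.TH996.Lump2

/-!
The expected number of visits in terms of the anonymous process.
-/

namespace Pool.Agent.TH996.Park

open MeasureTheory Measure Finset
open scoped ENNReal
open Pool.Agent.TH996.Parking

variable {V : Type*} [DecidableEq V] [MeasurableSpace V] [MeasurableSingletonClass V] [Countable V]

/-- initial state, named cars -/
def X0L (η : V → Bool) : State V := (id, η, fun x => !η x)

/-- initial state, anonymous cars -/
def X0C (η : V → Bool) : (V → ℕ) × (V → ℕ) := (c0 η, f0 η)

omit [DecidableEq V] [MeasurableSpace V] [MeasurableSingletonClass V] [Countable V] in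
lemma state_eq (η : V → Bool) (ω : ℕ → Noise V) (t : ℕ) :
    state η ω t = chain next X0L (η, ω) t := by
  induction t with
  | zero => rfl
  | succ t ih => simp only [state, chain]; rw [ih]

omit [DecidableEq V] [MeasurableSingletonClass V] [Countable V] in
lemma measurable_X0L : Measurable (X0L (V := V)) := by
  refine Measurable.prodMk measurable_const (Measurable.prodMk measurable_id ?_)
  exact measurable_pi_lambda _ fun x =>
    (measurable_of_countable (fun b : Bool => !b)).comp (measurable_pi_apply x)

omit [DecidableEq V] [MeasurableSpace V] [MeasurableSingletonClass V] [Countable V] in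
lemma measurable_X0C : Measurable (X0C (V := V)) := by
  refine Measurable.prodMk (measurable_pi_lambda _ fun x => ?_) (measurable_pi_lambda _ fun x => ?_)
  · exact (measurable_of_countable (fun b : Bool => if b then 1 else 0)).comp
      (measurable_pi_apply x)
  · exact (measurable_of_countable (fun b : Bool => if b then 0 else 1)).comp
      (measurable_pi_apply x)

omit [DecidableEq V] [MeasurableSpace V] [MeasurableSingletonClass V] [Countable V] in
lemma occ_X0L_finite (η : V → Bool) (x : V) : (occ (X0L η) x).Finite :=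
  (Set.finite_singleton x).subset fun _ hc => hc.2

omit [DecidableEq V] [MeasurableSpace V] [MeasurableSingletonClass V] [Countable V] in
lemma pr_X0L (η : V → Bool) : pr (X0L η) = X0C η := by
  refine Prod.ext (funext fun x => ?_) (funext fun x => ?_)
  · change (occ (X0L η) x).ncard = c0 η x
    unfold c0
    by_cases h : η x = true
    · have : occ (X0L η) x = {x} := by
        ext c
        simp only [occ, X0L, Set.mem_ofPred_eq, id, Set.mem_singleton_iff]
        constructor
        · exact fun h => h.2
        · rintro rfl; exact ⟨h, rfl⟩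
      rw [this, if_pos h]; simp
    · have : occ (X0L η) x = ∅ := by
        ext c
        simp only [occ, X0L, Set.mem_ofPred_eq, id, Set.mem_empty_iff_false, iff_false]
        rintro ⟨h1, rfl⟩
        exact h h1
      rw [this, if_neg h]; simp
  · change frs (X0L η) x = f0 η x
    unfold frs f0 X0L
    by_cases h : η x = true <;> simp [h]

section

variable (S : Tri V) {p : ℝ} (hp : 0 ≤ p ∧ p ≤ 1)

/-- law, named cars -/
noncomputable def LL (p : ℝ) : Measure ((V → Bool) × (ℕ → Noise V)) :=
  (infinitePi fun _ : V => bern p).prod (infinitePi fun _ : ℕ => ML S)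

/-- law, anonymous cars -/
noncomputable def LC (p : ℝ) : Measure ((V → Bool) × (ℕ → (V × ℕ → V))) :=
  (infinitePi fun _ : V => bern p).prod (infinitePi fun _ : ℕ => MC S)

include hp in
lemma occ_ae : ∀ᵐ ω ∂(LL S p), ∀ t x, (occ (chain next X0L ω t) x).Finite := by
  have := bern_prob hp.1 hp.2
  have h1 : ∀ t : ℕ, ∀ᵐ ω ∂(LL S p), GoodN S.nb (ω.2 t) := by
    intro t
    have hpr : MeasurePreserving (fun ω : (V → Bool) × (ℕ → Noise V) => ω.2 t) (LL S p) (ML S) :=
      (measurePreserving_eval_infinitePi (fun _ : ℕ => ML S) t).comp measurePreserving_snd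
    exact hpr.quasiMeasurePreserving.ae (good_ae S)
  filter_upwards [ae_all_iff.2 h1] with ω hω t
  induction t with
  | zero => exact fun x => occ_X0L_finite ω.1 x
  | succ t ih => exact fun x => occ_next_finite (fun x y h => S.symm x y h) ih (hω t) x

include hp in
/-- the counts have the same law -/
lemma lump (t : ℕ) {Φ : (V → ℕ) × (V → ℕ) → ℝ≥0∞} (hΦ : Measurable Φ) :
    ∫⁻ ω, Φ (pr (chain next X0L ω t)) ∂(LL S p) =
      ∫⁻ ω, Φ (chain (stepC S.nb) X0C ω t) ∂(LC S p) := by
  have := bern_prob hp.1 hp.2
  induction t generalizing Φ with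
  | zero =>
    have h1 : MeasurePreserving (fun ω : (V → Bool) × (ℕ → Noise V) => ω.1) (LL S p)
      (infinitePi fun _ : V => bern p) := measurePreserving_fst
    have h2 : MeasurePreserving (fun ω : (V → Bool) × (ℕ → (V × ℕ → V)) => ω.1) (LC S p)
      (infinitePi fun _ : V => bern p) := measurePreserving_fst
    have hm : Measurable fun η : V → Bool => Φ (X0C η) := hΦ.comp measurable_X0C
    have e1 := h1.lintegral_comp hm
    have e2 := h2.lintegral_comp hm
    simp only [chain, pr_X0L]
    exact e1.trans e2.symm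
  | succ t ih =>
    have hA : Measurable fun q : State V × Noise V => Φ (pr (next q.1 q.2)) :=
      hΦ.comp (measurable_pr.comp measurable_next)
    have hB : Measurable fun q : ((V → ℕ) × (V → ℕ)) × (V × ℕ → V) => Φ (stepC S.nb q.1 q.2) :=
      hΦ.comp (measurable_stepC S.nb)
    have e1 := chain_succ (ML S) (infinitePi fun _ : V => bern p) measurable_next measurable_X0L
      t hA
    have e2 := chain_succ (MC S) (infinitePi fun _ : V => bern p) (measurable_stepC S.nb)
      measurable_X0C t hB
    have e3 := ih (Φ := fun s => ∫⁻ ζ, Φ (stepC S.nb s ζ) ∂(MC S)) hB.lintegral_prod_right'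
    refine e1.trans (Eq.trans ?_ (e3.trans e2.symm))
    refine lintegral_congr_ae ?_
    filter_upwards [occ_ae S hp] with ω hω
    exact onestep S (hω t) hΦ

omit [DecidableEq V] [MeasurableSpace V] [MeasurableSingletonClass V] [Countable V] in
lemma encard_card (A : Finset V) : (((A : Set V).encard : ℕ∞) : ℝ≥0∞) = A.card := by
  rw [Set.encard_coe_eq_coe_finsetCard]
  simp

/-- expected number of visitors given the state -/
lemma visitors_mean {s : State V} (hs : ∀ x, (occ s x).Finite) (x : V) :
    ∫⁻ n, (((visitors s n x).encard : ℕ∞) : ℝ≥0∞) ∂(ML S) =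
      ∑ y ∈ S.nb x, ENNReal.ofReal (S.K y x) * cnt s y := by
  have hcoord : ∀ c y : V, MeasurePreserving (fun n : Noise V => n.1 (c, y)) (ML S)
      (stepLaw S.nb S.K y) := fun c y =>
    (measurePreserving_eval_infinitePi (fun q : V × V => stepLaw S.nb S.K q.2) (c, y)).comp
        measurePreserving_fst
  have hms : ∀ c y : V, Measurable fun n : Noise V => if n.1 (c, y) = x then (1 : ℝ≥0∞) else 0 :=
    fun c y => Measurable.ite ((hcoord c y).measurable (measurableSet_singleton x))
      measurable_const measurable_const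
  have h1 : ∫⁻ n, (((visitors s n x).encard : ℕ∞) : ℝ≥0∞) ∂(ML S) =
      ∫⁻ n : Noise V, ∑ y ∈ S.nb x, ∑ c ∈ (hs y).toFinset,
        (if n.1 (c, y) = x then (1 : ℝ≥0∞) else 0) ∂(ML S) := by
    refine lintegral_congr_ae ?_
    filter_upwards [good_ae S] with n hn
    rw [← coe_visF (fun x y h => S.symm x y h) hs hn x, encard_card]
    have h2 := ncard_visitors (fun x y h => S.symm x y h) hs hn x
    rw [← coe_visF (fun x y h => S.symm x y h) hs hn x, Set.ncard_coe_finset] at h2
    rw [h2]
    push_cast
    refine sum_congr rfl fun y _ => ?_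
    rw [card_filter]
    push_cast
    rfl
  rw [h1, lintegral_finsetSum _ fun y _ => Finset.measurable_fun_sum _ fun c _ => hms c y]
  refine sum_congr rfl fun y hy => ?_
  rw [lintegral_finsetSum _ fun c _ => hms c y]
  have h3 : ∀ c : V, ∫⁻ n : Noise V, (if n.1 (c, y) = x then (1 : ℝ≥0∞) else 0) ∂(ML S) =
      ENNReal.ofReal (S.K y x) := by
    intro c
    have hm : Measurable fun v : V => if v = x then (1 : ℝ≥0∞) else 0 := measurable_of_countable _
    have := (hcoord c y).lintegral_comp hm
    rw [this]
    unfold stepLaw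
    rw [lintegral_finsetSum_measure, sum_eq_single x]
    · rw [lintegral_smul_measure, lintegral_dirac' _ hm]; simp
    · intro z _ hz
      rw [lintegral_smul_measure, lintegral_dirac' _ hm]; simp [hz]
    · intro h
      exact absurd (S.symm _ _ hy) h
  simp_rw [h3]
  rw [sum_const, card_occ hs, nsmul_eq_mul, mul_comm]

/-- expected number of cars at `x` at time `t`, anonymous cars -/
noncomputable def aC (p : ℝ) (x : V) (t : ℕ) : ℝ≥0∞ :=
  ∫⁻ ω, ((chain (stepC S.nb) X0C ω t).1 x : ℝ≥0∞) ∂(LC S p)

include hp in
lemma mean_visitors (t : ℕ) (x : V) :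
    ∫⁻ ω, (((visitors (chain next X0L ω t) (ω.2 t) x).encard : ℕ∞) : ℝ≥0∞) ∂(LL S p) =
      ∑ y ∈ S.nb x, ENNReal.ofReal (S.K y x) * aC S p y t := by
  have := bern_prob hp.1 hp.2
  have hA : Measurable fun q : State V × Noise V => (((visitors q.1 q.2 x).encard : ℕ∞) : ℝ≥0∞) :=
    measurable_encard (fun q : State V × Noise V => visitors q.1 q.2 x)
      fun c => measurableSet_visit c x
  have e1 := chain_succ (ML S) (infinitePi fun _ : V => bern p) measurable_next measurable_X0L
    t hA
  refine e1.trans ?_
  have hm : ∀ y, Measurable fun s : (V → ℕ) × (V → ℕ) => (s.1 y : ℝ≥0∞) := fun y =>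
    (measurable_of_countable (fun k : ℕ => (k : ℝ≥0∞))).comp
      ((measurable_pi_apply y).comp measurable_fst)
  have e2 : ∫⁻ ω, (∫⁻ n, (((visitors (chain next X0L ω t) n x).encard : ℕ∞) : ℝ≥0∞) ∂(ML S))
      ∂(LL S p) = ∫⁻ ω, ∑ y ∈ S.nb x, ENNReal.ofReal (S.K y x) *
        ((pr (chain next X0L ω t)).1 y : ℝ≥0∞) ∂(LL S p) := by
    refine lintegral_congr_ae ?_
    filter_upwards [occ_ae S hp] with ω hω
    exact visitors_mean S (hω t) x
  refine e2.trans ?_
  rw [lump S hp t (Φ := fun s => ∑ y ∈ S.nb x, ENNReal.ofReal (S.K y x) * (s.1 y : ℝ≥0∞))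
    (Finset.measurable_fun_sum _ fun y _ => (hm y).const_mul _)]
  have hc := measurable_chain (In := V → Bool) (measurable_stepC S.nb) measurable_X0C t
  have hmc : ∀ y, Measurable fun ω : (V → Bool) × (ℕ → V × ℕ → V) =>
    ((chain (stepC S.nb) X0C ω t).1 y : ℝ≥0∞) := fun y => (hm y).comp hc
  rw [lintegral_finsetSum _ fun y _ => (hmc y).const_mul _]
  refine sum_congr rfl fun y _ => ?_
  rw [lintegral_const_mul _ (hmc y)]
  rfl

/-! ### Relation with the flat noise -/

omit [MeasurableSpace V] [MeasurableSingletonClass V] [Countable V] in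
lemma chainC_eq (η : V → Bool) (ξ : ℕ × V × ℕ → V) (t : ℕ) :
    chain (stepC S.nb) X0C (η, fun t q => ξ (t, q)) t =
      st S.nb ξ (fun _ => false) (c0 η) (f0 η) t := by
  induction t with
  | zero => rfl
  | succ t ih =>
    simp only [chain, st]
    rw [ih]
    have : ∀ x, ∑ y ∈ S.nb x, ((range ((st S.nb ξ (fun _ => false) (c0 η) (f0 η) t).1 y)).filter
        fun i => ξ (t, y, i) = x).card =
        arr S.nb ξ (fun _ => false) (st S.nb ξ (fun _ => false) (c0 η) (f0 η) t).1 t x := by
      intro x
      unfold arr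
      simp
    unfold stepC
    simp only [this]

include hp in
lemma LC_eq (t : ℕ) (x : V) : aC S p x t = ∫⁻ ω, (Cn S.nb t x (emb ω) : ℝ≥0∞) ∂(S.law0 p) := by
  have := bern_prob hp.1 hp.2
  have hcur : MeasurePreserving (fun (ξ : ℕ × V × ℕ → V) (t : ℕ) (q : V × ℕ) => ξ (t, q))
      (infinitePi fun a : ℕ × V × ℕ => stepLaw S.nb S.K a.2.1)
      (infinitePi fun _ : ℕ => MC S) := by
    refine ⟨measurable_pi_lambda _ fun t => measurable_pi_lambda _ fun q =>
      measurable_pi_apply _, ?_⟩
    exact infinitePi_map_curry (fun (_ : ℕ) (q : V × ℕ) => stepLaw S.nb S.K q.1)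
  have hpr := (MeasurePreserving.id (infinitePi fun _ : V => bern p)).prod hcur
  have hc := measurable_chain (In := V → Bool) (measurable_stepC S.nb) measurable_X0C t
  have hm : Measurable fun s : (V → ℕ) × (V → ℕ) => (s.1 x : ℝ≥0∞) :=
    (measurable_of_countable (fun k : ℕ => (k : ℝ≥0∞))).comp
      ((measurable_pi_apply x).comp measurable_fst)
  have h1 := hpr.lintegral_comp (hm.comp hc)
  unfold aC
  refine h1.symm.trans ?_
  refine lintegral_congr fun ω => ?_
  have := chainC_eq S ω.1 ω.2 t
  simp only [Function.comp, Prod.map, id]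
  rw [this]
  rfl

include hp in
lemma law_emb {F : Om V → ℝ} (hF : BM F) :
    ∫ ω, F ω ∂(S.law p 0) = ∫ ω, F (emb ω) ∂(S.law0 p) := by
  have := bern_prob hp.1 hp.2
  have hb : bern 0 = dirac false := by simp [bern]
  have h0 : (infinitePi fun _ : ℕ × V × ℕ => bern 0) = dirac (fun _ => false) := by
    rw [hb]; exact infinitePi_dirac _
  have he : S.law p 0 = (S.law0 p).map emb := by
    unfold Tri.law Tri.law0
    rw [h0, prod_dirac]
    have hg : Measurable fun ξ : ℕ × V × ℕ → V => (ξ, fun _ : ℕ × V × ℕ => false) :=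
      measurable_id.prodMk measurable_const
    have h2 := map_prod_map (infinitePi fun _ : V => bern p)
      (infinitePi fun a : ℕ × V × ℕ => stepLaw S.nb S.K a.2.1) measurable_id hg
    rw [Measure.map_id] at h2
    exact h2
  rw [he, integral_map measurable_emb.aemeasurable hF.meas.aestronglyMeasurable]

end

end Pool.Agent.TH996.Park
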