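import Pool.Agent.TH996.Noise

/-!
The main inequality.
-/

namespace Pool.Agent.TH996.Park

open MeasureTheory Measure Finset

variable {V : Type*} [DecidableEq V] [MeasurableSpace V] [MeasurableSingletonClass V] [Countable V]

section

variable (S : Tri V) {p κ : ℝ} (hp : 0 ≤ p ∧ p ≤ 1) (hκ : 0 ≤ κ ∧ κ ≤ 1)

/-! ### fields -/

omit [MeasurableSingletonClass V] [Countable V] in
lemma bm_P {X : V → Om V → ℝ} (hX : ∀ x, BM (X x)) (x : V) :
    BM (fun ω => S.P (fun y => X y ω) x) :=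
  BM.sum _ fun y _ => (hX y).smul _

omit [MeasurableSingletonClass V] [Countable V] in
lemma bm_R (a : ℝ) (J : ℕ) {X : V → Om V → ℝ} (hX : ∀ x, BM (X x)) (x : V) :
    BM (fun ω => S.R a J (fun y => X y ω) x) := by
  induction J generalizing x with
  | zero => exact BM.const _
  | succ J ih => exact (hX x).add ((bm_P S ih x).smul a)

omit [MeasurableSpace V] [MeasurableSingletonClass V] [Countable V] in
lemma P_shift {X : V → Om V → ℝ} {γ : Equiv.Perm V} (hγ : γ ∈ S.Γ)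
    (h : ∀ x ω, X (γ x) (shift γ ω) = X x ω) (x : V) (ω : Om V) :
    S.P (fun y => X y (shift γ ω)) (γ x) = S.P (fun y => X y ω) x := by
  unfold Tri.P
  rw [S.inv_nb γ hγ, sum_image (fun a _ b _ h => γ.injective h)]
  exact sum_congr rfl fun y _ => by rw [S.inv_K γ hγ]; dsimp only; rw [h]

omit [MeasurableSpace V] [MeasurableSingletonClass V] [Countable V] in
lemma R_shift (a : ℝ) (J : ℕ) {X : V → Om V → ℝ} {γ : Equiv.Perm V} (hγ : γ ∈ S.Γ)
    (h : ∀ x ω, X (γ x) (shift γ ω) = X x ω) (x : V) (ω : Om V) :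
    S.R a J (fun y => X y (shift γ ω)) (γ x) = S.R a J (fun y => X y ω) x := by
  induction J generalizing x ω with
  | zero => rfl
  | succ J ih =>
    rw [Tri.R_succ, Tri.R_succ, h]
    exact congrArg _ (congrArg _
      (P_shift S (X := fun x ω => S.R a J (fun y => X y ω) x) hγ ih x ω))

include hp hκ in
/-- expectation of an equivariant field does not depend on the vertex -/
lemma integral_inv {X : V → Om V → ℝ} (hX : ∀ x, BM (X x))
    (h : ∀ γ ∈ S.Γ, ∀ x ω, X (γ x) (shift γ ω) = X x ω) (x y : V) :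
    ∫ ω, X x ω ∂(S.law p κ) = ∫ ω, X y ω ∂(S.law p κ) := by
  obtain ⟨γ, hγ, rfl⟩ := S.trans x y
  rw [← integral_shift S hγ hp.1 hp.2 hκ.1 hκ.2 (hX (γ x))]
  simp_rw [h γ hγ]

include hp hκ in
lemma integral_P {X : V → Om V → ℝ} (hX : ∀ x, BM (X x))
    (h : ∀ γ ∈ S.Γ, ∀ x ω, X (γ x) (shift γ ω) = X x ω) (x : V) :
    ∫ ω, S.P (fun y => X y ω) x ∂(S.law p κ) = ∫ ω, X x ω ∂(S.law p κ) := by
  have := law_prob S hp hκ
  unfold Tri.P
  rw [integral_finsetSum _ fun y _ => ((hX y).smul _).integrable _]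
  simp_rw [integral_const_mul, integral_inv S hp hκ hX h _ x]
  rw [← sum_mul, S.col_one, one_mul]

include hp hκ in
lemma integral_R (a : ℝ) (J : ℕ) {X : V → Om V → ℝ} (hX : ∀ x, BM (X x))
    (h : ∀ γ ∈ S.Γ, ∀ x ω, X (γ x) (shift γ ω) = X x ω) (x : V) :
    ∫ ω, S.R a J (fun y => X y ω) x ∂(S.law p κ) = Tri.SJ a J * ∫ ω, X x ω ∂(S.law p κ) := by
  have := law_prob S hp hκ
  induction J generalizing x with
  | zero => simp [Tri.R, Tri.SJ]
  | succ J ih =>
    simp_rw [Tri.R_succ]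
    have hb := bm_R S a J hX
    rw [integral_add ((hX x).integrable _) (((bm_P S hb x).smul a).integrable _),
      integral_const_mul, integral_P S hp hκ hb
        (fun γ hγ x ω => R_shift S a J hγ (h γ hγ) x ω), ih, Tri.SJ_succ]
    ring

include hp hκ in
/-- positivity of the resolvent form -/
lemma psd {a : ℝ} (ha : 0 ≤ a) (ha1 : a ≤ 1) (J : ℕ) {X : V → Om V → ℝ} (hX : ∀ x, BM (X x))
    (h : ∀ γ ∈ S.Γ, ∀ x ω, X (γ x) (shift γ ω) = X x ω) (o : V) :
    (1 / 2 : ℝ) * (∫ ω, (S.R a (J + 1) (fun y => X y ω) o) ^ 2 ∂(S.law p κ) -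
      ∫ ω, (S.R a J (fun y => X y ω) o) ^ 2 ∂(S.law p κ)) ≤
    ∫ ω, X o ω * S.R a (J + 1) (fun y => X y ω) o ∂(S.law p κ) := by
  have := law_prob S hp hκ
  have hb := bm_R S a J hX
  have hb1 := bm_R S a (J + 1) hX
  have hsq : ∀ x, BM (fun ω => (S.R a J (fun y => X y ω) x) ^ 2) := fun x => (hb x).pow 2
  have e1 := integral_P S hp hκ hsq (fun γ hγ x ω => by
    simp only [R_shift S a J hγ (h γ hγ) x ω]) o
  rw [← e1, ← integral_sub (((hb1 o).pow 2).integrable _) ((bm_P S hsq o).integrable _),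
    ← integral_const_mul]
  refine integral_mono (((((hb1 o).pow 2).sub (bm_P S hsq o)).smul _).integrable _)
    (((hX o).mul (hb1 o)).integrable _) fun ω => ?_
  simp only
  set g := fun y => S.R a J (fun z => X z ω) y with hg
  set G := S.R a (J + 1) (fun y => X y ω) o with hG
  have e2 : X o ω = G - a * S.P g o := by rw [hG, Tri.R_succ]; ring
  rw [e2]
  have e3 : S.P g o * G ≤ (1 / 2 : ℝ) * (S.P (fun y => g y ^ 2) o + G ^ 2) := by
    have e4 : G ^ 2 = ∑ y ∈ S.nb o, S.K y o * G ^ 2 := by rw [← sum_mul, S.col_one, one_mul]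
    rw [e4]
    unfold Tri.P
    rw [sum_mul, ← sum_add_distrib, mul_sum]
    refine sum_le_sum fun y _ => ?_
    nlinarith [S.nonneg y o, mul_nonneg (S.nonneg y o) (sq_nonneg (g y - G))]
  have e5 : 0 ≤ S.P (fun y => g y ^ 2) o :=
    sum_nonneg fun y _ => mul_nonneg (S.nonneg _ _) (sq_nonneg _)
  have e6 : a * (S.P g o * G) ≤ a * ((1 / 2 : ℝ) * (S.P (fun y => g y ^ 2) o + G ^ 2)) :=
    mul_le_mul_of_nonneg_left e3 ha
  have e7 : 0 ≤ (1 - a) * (S.P (fun y => g y ^ 2) o + G ^ 2) :=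
    mul_nonneg (by linarith) (by positivity)
  nlinarith

omit [MeasurableSpace V] [MeasurableSingletonClass V] [Countable V] in
lemma P_abs_le {f : V → ℝ} {c : ℝ} (h : ∀ x, |f x| ≤ c) (x : V) : |S.P f x| ≤ c := by
  unfold Tri.P
  calc _ ≤ ∑ y ∈ S.nb x, |S.K y x * f y| := abs_sum_le_sum_abs _ _
    _ ≤ ∑ y ∈ S.nb x, S.K y x * c := by
        refine sum_le_sum fun y _ => ?_
        rw [abs_mul, abs_of_nonneg (S.nonneg _ _)]
        exact mul_le_mul_of_nonneg_left (h y) (S.nonneg _ _)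
    _ = c := by rw [← sum_mul, S.col_one, one_mul]

lemma SJ_nonneg {a : ℝ} (ha : 0 ≤ a) (J : ℕ) : 0 ≤ Tri.SJ a J :=
  sum_nonneg fun _ _ => pow_nonneg ha _

omit [MeasurableSpace V] [MeasurableSingletonClass V] [Countable V] in
lemma R_abs_le {a : ℝ} (ha : 0 ≤ a) (J : ℕ) {f : V → ℝ} {c : ℝ} (h : ∀ x, |f x| ≤ c) (x : V) :
    |S.R a J f x| ≤ c * Tri.SJ a J := by
  induction J generalizing x with
  | zero => simp [Tri.R, Tri.SJ]
  | succ J ih =>
    rw [Tri.R_succ, Tri.SJ_succ]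
    calc _ ≤ |f x| + |a * S.P (S.R a J f) x| := abs_add_le _ _
      _ ≤ c + a * (c * Tri.SJ a J) := by
          rw [abs_mul, abs_of_nonneg ha]
          exact add_le_add (h x) (mul_le_mul_of_nonneg_left (P_abs_le S ih x) ha)
      _ = _ := by ring

omit [MeasurableSpace V] [MeasurableSingletonClass V] [Countable V] in
lemma R_diff_le {a : ℝ} (ha : 0 ≤ a) (J : ℕ) {f : V → ℝ} {c : ℝ} (h : ∀ x, |f x| ≤ c) (x : V) :
    |S.R a (J + 1) f x - S.R a J f x| ≤ c * a ^ J := by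
  induction J generalizing x with
  | zero => simpa [Tri.R, Tri.P] using h x
  | succ J ih =>
    rw [Tri.R_succ, Tri.R_succ]
    have e : f x + a * S.P (S.R a (J + 1) f) x - (f x + a * S.P (S.R a J f) x) =
        a * S.P (fun y => S.R a (J + 1) f y - S.R a J f y) x := by
      unfold Tri.P
      simp_rw [mul_sub, sum_sub_distrib]
      ring
    rw [e, abs_mul, abs_of_nonneg ha, pow_succ]
    calc _ ≤ a * (c * a ^ J) := mul_le_mul_of_nonneg_left (P_abs_le S ih x) ha
      _ = _ := by ring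

include hp hκ in
/-- lower bound for the resolvent form of a bounded centred field -/
lemma psd' {a : ℝ} (ha : 0 ≤ a) (ha1 : a ≤ 1) (J : ℕ) {X : V → Om V → ℝ} (hX : ∀ x, BM (X x))
    (h : ∀ γ ∈ S.Γ, ∀ x ω, X (γ x) (shift γ ω) = X x ω) (hb : ∀ x ω, |X x ω| ≤ 1) (o : V) :
    -(a ^ J * Tri.SJ a (J + 1)) ≤
    ∫ ω, X o ω * S.R a (J + 1) (fun y => X y ω) o ∂(S.law p κ) := by
  have := law_prob S hp hκ
  refine le_trans ?_ (psd S hp hκ ha ha1 J hX h o)
  rw [← integral_sub (((bm_R S a (J + 1) hX o).pow 2).integrable _)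
    (((bm_R S a J hX o).pow 2).integrable _)]
  have h1 : ∫ _ω : Om V, (-(2 * (a ^ J * Tri.SJ a (J + 1)))) ∂(S.law p κ) ≤
      ∫ ω, ((S.R a (J + 1) (fun y => X y ω) o) ^ 2 - (S.R a J (fun y => X y ω) o) ^ 2)
      ∂(S.law p κ) := by
    refine integral_mono (integrable_const _)
      ((((bm_R S a (J + 1) hX o).pow 2).sub ((bm_R S a J hX o).pow 2)).integrable _) fun ω => ?_
    simp only
    have e1 := R_abs_le S ha (J + 1) (f := fun y => X y ω) (fun x => hb x ω) o
    have e2 := R_abs_le S ha J (f := fun y => X y ω) (fun x => hb x ω) o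
    have e3 := R_diff_le S ha J (f := fun y => X y ω) (fun x => hb x ω) o
    rw [one_mul] at e1 e2 e3
    have e4 : Tri.SJ a J ≤ Tri.SJ a (J + 1) := by
      unfold Tri.SJ; rw [sum_range_succ]; linarith [pow_nonneg ha J]
    set u := S.R a (J + 1) (fun y => X y ω) o
    set v := S.R a J (fun y => X y ω) o
    have e5 : |u + v| ≤ 2 * Tri.SJ a (J + 1) := by
      have := abs_add_le u v
      linarith
    have e6 : |(u - v) * (u + v)| ≤ a ^ J * (2 * Tri.SJ a (J + 1)) := by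
      rw [abs_mul]
      exact mul_le_mul e3 e5 (abs_nonneg _) (pow_nonneg ha _)
    have e7 := neg_abs_le ((u - v) * (u + v))
    nlinarith
  rw [integral_const] at h1
  simp only [probReal_univ, smul_eq_mul, one_mul] at h1
  linarith

end

end Pool.Agent.TH996.Park
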