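import Pool.Agent.TH996.Prob

/-!
Resampling maps.
-/

namespace Pool.Agent.TH996.Park

open MeasureTheory Measure Finset

/-- `u` resamples part of the randomness of `μ` from `ν`. -/
def Resamp {Ω X : Type*} [MeasurableSpace Ω] [MeasurableSpace X] (μ : Measure Ω) (ν : Measure X)
    (u : Ω → X → Ω) : Prop := MeasurePreserving (fun q : Ω × X => u q.1 q.2) (μ.prod ν) μ

namespace Resamp

variable {Ω Ω' X Y : Type*} [MeasurableSpace Ω] [MeasurableSpace Ω'] [MeasurableSpace X]
  [MeasurableSpace Y]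

lemma pi {ι : Type*} [DecidableEq ι] (μ : ι → Measure X) [∀ i, IsProbabilityMeasure (μ i)]
    (a : ι) : Resamp (infinitePi μ) (μ a) (fun x v => Function.update x a v) :=
  ⟨measurable_upd a, map_update μ a⟩

lemma left {μ : Measure Ω} {ν : Measure X} {u : Ω → X → Ω} (h : Resamp μ ν u)
    (μ' : Measure Ω') [IsProbabilityMeasure μ] [IsProbabilityMeasure ν] [IsProbabilityMeasure μ'] :
    Resamp (μ.prod μ') ν (fun ω x => (u ω.1 x, ω.2)) := by
  have h1 := measurePreserving_prodAssoc μ μ' ν
  have h2 : MeasurePreserving (Prod.map (id : Ω → Ω) (Prod.swap : Ω' × X → X × Ω'))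
    (μ.prod (μ'.prod ν)) (μ.prod (ν.prod μ')) := (MeasurePreserving.id μ).prod measurePreserving_swap
  have h3 := (measurePreserving_prodAssoc μ ν μ').symm
  have h4 : MeasurePreserving (Prod.map (fun q : Ω × X => u q.1 q.2) (id : Ω' → Ω'))
    ((μ.prod ν).prod μ') (μ.prod μ') := h.prod (MeasurePreserving.id μ')
  exact ((h4.comp h3).comp h2).comp h1

lemma right {μ : Measure Ω} {ν : Measure X} {u : Ω → X → Ω} (h : Resamp μ ν u)
    (μ' : Measure Ω') [IsProbabilityMeasure μ] [IsProbabilityMeasure ν] [IsProbabilityMeasure μ'] :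
    Resamp (μ'.prod μ) ν (fun ω x => (ω.1, u ω.2 x)) := by
  have h1 := measurePreserving_prodAssoc μ' μ ν
  have h2 : MeasurePreserving (Prod.map (id : Ω' → Ω') (fun q : Ω × X => u q.1 q.2))
    (μ'.prod (μ.prod ν)) (μ'.prod μ) := (MeasurePreserving.id μ').prod h
  exact h2.comp h1

lemma comp {μ : Measure Ω} {ν : Measure X} {ν' : Measure Y} {u : Ω → X → Ω} {u' : Ω → Y → Ω}
    (h : Resamp μ ν u) (h' : Resamp μ ν' u') [IsProbabilityMeasure μ] [IsProbabilityMeasure ν]
    [IsProbabilityMeasure ν'] :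
    Resamp μ (ν.prod ν') (fun ω x => u' (u ω x.1) x.2) := by
  have h1 := (measurePreserving_prodAssoc μ ν ν').symm
  have h2 : MeasurePreserving (Prod.map (fun q : Ω × X => u q.1 q.2) (id : Y → Y))
    ((μ.prod ν).prod ν') (μ.prod ν') := h.prod (MeasurePreserving.id ν')
  have h3 : MeasurePreserving (fun q : Ω × Y => u' q.1 q.2) (μ.prod ν') μ := h'
  exact (h3.comp h2).comp h1

variable {μ : Measure Ω} {ν : Measure X} {u : Ω → X → Ω} (h : Resamp μ ν u)
  [IsProbabilityMeasure μ] [IsProbabilityMeasure ν]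

include h in
lemma integral {F : Ω → ℝ} (hF : BM F) : ∫ ω, F ω ∂μ = ∫ ω, ∫ x, F (u ω x) ∂ν ∂μ := by
  have hm : AEStronglyMeasurable F (Measure.map (fun q : Ω × X => u q.1 q.2) (μ.prod ν)) :=
    hF.meas.aestronglyMeasurable
  have h1 := integral_map h.measurable.aemeasurable hm
  rw [h.map_eq] at h1
  rw [h1, integral_prod]
  exact (hF.comp h.measurable).integrable _

include h in
/-- If `F` is not changed by the resampling and `G` becomes `g`, then the expectation of the
product factorises. -/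
lemma integral_mul {F G : Ω → ℝ} (hF : BM F) (hG : BM G) (g : X → ℝ)
    (h1 : ∀ ω x, F (u ω x) = F ω) (h2 : ∀ ω x, G (u ω x) = g x) :
    ∫ ω, F ω * G ω ∂μ = (∫ ω, F ω ∂μ) * ∫ x, g x ∂ν := by
  rw [h.integral (hF.mul hG)]
  simp_rw [h1, h2, integral_const_mul]
  rw [integral_mul_const]

end Resamp

/-- The Bernoulli law. -/
noncomputable def bern (p : ℝ) : Measure Bool :=
  ENNReal.ofReal p • dirac true + ENNReal.ofReal (1 - p) • dirac false

lemma bern_prob {p : ℝ} (h0 : 0 ≤ p) (h1 : p ≤ 1) : IsProbabilityMeasure (bern p) := by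
  constructor
  simp only [bern, Measure.coe_add, Measure.coe_smul, Pi.add_apply, Pi.smul_apply, measure_univ, smul_eq_mul,
    mul_one]
  rw [← ENNReal.ofReal_add h0 (by linarith)]
  simp

lemma integral_bern {p : ℝ} (h0 : 0 ≤ p) (h1 : p ≤ 1) (g : Bool → ℝ) :
    ∫ x, g x ∂(bern p) = p * g true + (1 - p) * g false := by
  have := bern_prob h0 h1
  have hi : ∀ b, Integrable g (dirac b) := fun b => Integrable.of_finite
  rw [bern, integral_add_measure ((hi _).smul_measure ENNReal.ofReal_ne_top)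
    ((hi _).smul_measure ENNReal.ofReal_ne_top), integral_smul_measure, integral_smul_measure,
    integral_dirac, integral_dirac, ENNReal.toReal_ofReal h0,
    ENNReal.toReal_ofReal (by linarith)]
  simp

end Pool.Agent.TH996.Park
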