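import Pool.Agent.TH996.Dyn
import Pool.Agent.TH996.Ker
import Pool.Agent.TH996.Resamp

/-!
The probability space and the random variables of the (killed) parking process.
-/

namespace Pool.Agent.TH996.Park

open MeasureTheory Measure Finset

variable {V : Type*} [DecidableEq V] [MeasurableSpace V] [MeasurableSingletonClass V] [Countable V]

/-- the law of one step from `x` -/
noncomputable def stepLaw (nb : V → Finset V) (K : V → V → ℝ) (x : V) : Measure V :=
  ∑ y ∈ nb x, ENNReal.ofReal (K x y) • dirac y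

namespace Tri

variable (S : Tri V)

instance (x : V) : IsProbabilityMeasure (stepLaw S.nb S.K x) := by
  constructor
  unfold stepLaw
  rw [Measure.finsetSum_apply]
  simp only [Measure.coe_smul, Pi.smul_apply, measure_univ, smul_eq_mul, mul_one]
  rw [← ENNReal.ofReal_sum_of_nonneg (fun _ _ => S.nonneg _ _), S.sum_one]
  simp

lemma integral_stepLaw (x : V) (g : V → ℝ) :
    ∫ y, g y ∂(stepLaw S.nb S.K x) = ∑ y ∈ S.nb x, S.K x y * g y := by
  have hi : ∀ b, Integrable g (dirac b) := fun b => by
    refine ⟨(measurable_of_countable g).aestronglyMeasurable, ?_⟩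
    rw [HasFiniteIntegral, lintegral_dirac]
    exact enorm_lt_top
  unfold stepLaw
  rw [integral_finsetSum_measure fun y _ => (hi y).smul_measure ENNReal.ofReal_ne_top]
  refine sum_congr rfl fun y _ => ?_
  rw [integral_smul_measure, integral_dirac, ENNReal.toReal_ofReal (S.nonneg _ _), smul_eq_mul]

end Tri

/-- initial cars -/
def c0 (η : V → Bool) (x : V) : ℕ := if η x then 1 else 0
/-- initial free spots -/
def f0 (η : V → Bool) (x : V) : ℕ := if η x then 0 else 1

/-- the probability space -/
abbrev Om (V : Type*) := (V → Bool) × ((ℕ × V × ℕ → V) × (ℕ × V × ℕ → Bool))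

/-- the law -/
noncomputable def Tri.law (S : Tri V) (p κ : ℝ) : Measure (Om V) :=
  (infinitePi fun _ : V => bern p).prod
    ((infinitePi fun a : ℕ × V × ℕ => stepLaw S.nb S.K a.2.1).prod
      (infinitePi fun _ : ℕ × V × ℕ => bern κ))

section rv

variable (nb : V → Finset V)

/-- number of unparked cars -/
def Cn (t : ℕ) (x : V) (ω : Om V) : ℕ := cs nb ω.2.1 ω.2.2 (c0 ω.1) (f0 ω.1) t x
/-- number of free spots -/
def Fn (t : ℕ) (x : V) (ω : Om V) : ℕ := fr nb ω.2.1 ω.2.2 (c0 ω.1) (f0 ω.1) t x
/-- number of arrivals -/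
def An (t : ℕ) (x : V) (ω : Om V) : ℕ := ar nb ω.2.1 ω.2.2 (c0 ω.1) (f0 ω.1) t x

omit [MeasurableSpace V] [MeasurableSingletonClass V] [Countable V] in
lemma c0_le (η : V → Bool) (x : V) : c0 η x ≤ 1 := by unfold c0; split_ifs <;> simp

omit [MeasurableSpace V] [MeasurableSingletonClass V] [Countable V] in
lemma c0_add_f0 (η : V → Bool) (x : V) : c0 η x + f0 η x = 1 := by
  unfold c0 f0; split_ifs <;> simp

omit [DecidableEq V] [MeasurableSingletonClass V] [Countable V] in
lemma meas_b (a : ℕ × V × ℕ) : Measurable fun ω : Om V => ω.2.2 a :=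
  (measurable_pi_apply a).comp measurable_snd.snd

omit [DecidableEq V] [MeasurableSingletonClass V] [Countable V] in
lemma meas_xi (a : ℕ × V × ℕ) : Measurable fun ω : Om V => ω.2.1 a :=
  (measurable_pi_apply a).comp measurable_snd.fst

omit [Countable V] in
lemma measurable_used (t : ℕ) (y x : V) (i : ℕ) :
    MeasurableSet {ω : Om V | ω.2.2 (t, y, i) = false ∧ ω.2.1 (t, y, i) = x} := by
  refine MeasurableSet.inter ?_ ?_
  · exact (meas_b (t, y, i)) (measurableSet_singleton false)
  · exact (meas_xi (t, y, i)) (measurableSet_singleton x)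

omit [Countable V] in
lemma measurable_card (f : Om V → ℕ) (hf : Measurable f) (t : ℕ) (y x : V) :
    Measurable fun ω : Om V => ((range (f ω)).filter
      fun i => ω.2.2 (t, y, i) = false ∧ ω.2.1 (t, y, i) = x).card := by
  have h : Measurable fun q : ℕ × Om V => ((range q.1).filter
      fun i => q.2.2.2 (t, y, i) = false ∧ q.2.2.1 (t, y, i) = x).card := by
    refine measurable_from_prod_countable_right fun n => ?_
    simp only [card_filter]
    refine Finset.measurable_fun_sum _ fun i _ => ?_
    exact Measurable.ite (measurable_used t y x i) measurable_const measurable_const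
  exact h.comp (hf.prodMk measurable_id)

omit [Countable V] in
lemma measurable_CF (t : ℕ) : (∀ x, Measurable (Cn nb t x)) ∧ (∀ x, Measurable (Fn nb t x)) ∧
    (∀ x, Measurable (An nb t x)) := by
  have key : ∀ t, (∀ x, Measurable (Cn nb t x)) → ∀ x, Measurable (An nb t x) := by
    intro t h x
    have : An nb t x = fun ω => ∑ y ∈ nb x, ((range (Cn nb t y ω)).filter
      fun i => ω.2.2 (t, y, i) = false ∧ ω.2.1 (t, y, i) = x).card := rfl
    rw [this]
    exact Finset.measurable_fun_sum _ fun y _ => measurable_card _ (h y) t y x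
  have hsub : ∀ f g : Om V → ℕ, Measurable f → Measurable g →
      Measurable fun ω => f ω - g ω := by
    intro f g hf hg
    exact (measurable_of_countable (fun q : ℕ × ℕ => q.1 - q.2)).comp (hf.prodMk hg)
  induction t with
  | zero =>
    have h1 : ∀ x, Measurable (Cn nb 0 x) := by
      intro x
      exact (measurable_of_countable (fun b : Bool => if b then 1 else 0)).comp
        ((measurable_pi_apply x).comp measurable_fst)
    refine ⟨h1, fun x => ?_, key 0 h1⟩
    exact (measurable_of_countable (fun b : Bool => if b then 0 else 1)).comp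
        ((measurable_pi_apply x).comp measurable_fst)
  | succ t ih =>
    have h1 : ∀ x, Measurable (Cn nb (t + 1) x) := fun x => hsub _ _ (ih.2.2 x) (ih.2.1 x)
    exact ⟨h1, fun x => hsub _ _ (ih.2.1 x) (ih.2.2 x), key _ h1⟩

omit [Countable V] in
lemma bm_nat {f : Om V → ℕ} (hf : Measurable f) (N : ℕ) (h : ∀ ω, f ω ≤ N) :
    BM fun ω => (f ω : ℝ) := by
  refine ⟨(measurable_of_countable (fun n : ℕ => (n : ℝ))).comp hf, N, fun ω => ?_⟩
  rw [abs_of_nonneg (Nat.cast_nonneg _)]
  exact_mod_cast h ω

omit [Countable V] in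
lemma bm_C (t : ℕ) (x : V) : BM fun ω => (Cn nb t x ω : ℝ) :=
  bm_nat ((measurable_CF nb t).1 x) (bd nb t x) fun ω =>
    cs_le_bd nb _ _ _ _ (c0_le ω.1) t x

omit [Countable V] in
lemma bm_A (t : ℕ) (x : V) : BM fun ω => (An nb t x ω : ℝ) :=
  bm_nat ((measurable_CF nb t).2.2 x) (bd nb (t + 1) x) fun ω =>
    ar_le_bd nb _ _ _ _ (c0_le ω.1) t x

omit [MeasurableSpace V] [MeasurableSingletonClass V] [Countable V] in
lemma Fn_le (t : ℕ) (x : V) (ω : Om V) : Fn nb t x ω ≤ 1 := by
  refine (fr_le nb _ _ _ _ t x).trans ?_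
  unfold f0; split_ifs <;> simp

omit [Countable V] in
lemma bm_F (t : ℕ) (x : V) : BM fun ω => (Fn nb t x ω : ℝ) :=
  bm_nat ((measurable_CF nb t).2.1 x) 1 fun ω => Fn_le nb t x ω

end rv

end Pool.Agent.TH996.Park
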