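import Mathlib

/-!
The mass transport principle for a transitive unimodular group of permutations.
-/

namespace Pool.Agent.TH996.Park

open scoped ENNReal

variable {V : Type*}

/-- the orbit of `v` under the stabiliser of `u` -/
def orb (Γ : Subgroup (Equiv.Perm V)) (u v : V) : Set V := {w | ∃ γ ∈ Γ, γ u = u ∧ γ v = w}

/-- `z` is a reflection of `y` in `o` -/
def Refl (Γ : Subgroup (Equiv.Perm V)) (o y z : V) : Prop := ∃ γ ∈ Γ, γ y = o ∧ γ o = z

variable {Γ : Subgroup (Equiv.Perm V)} (trans : ∀ x y, ∃ γ ∈ Γ, γ x = y)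
  (fin : ∀ u v, (orb Γ u v).Finite) (unimod : ∀ u v, (orb Γ u v).ncard = (orb Γ v u).ncard)

lemma refl_symm {o y z : V} (h : Refl Γ o y z) : Refl Γ o z y := by
  obtain ⟨γ, hγ, h1, h2⟩ := h
  refine ⟨γ⁻¹, Γ.inv_mem hγ, ?_, ?_⟩
  · rw [← h2]; simp
  · rw [← h1]; simp

lemma refl_comm {o y z : V} : Refl Γ o y z ↔ Refl Γ o z y := ⟨refl_symm, refl_symm⟩

include trans in
lemma refl_image (o y : V) : ∃ γ0 ∈ Γ, γ0 y = o ∧ {z | Refl Γ o y z} = γ0 '' orb Γ y o := by
  obtain ⟨γ0, h0, h1⟩ := trans y o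
  refine ⟨γ0, h0, h1, ?_⟩
  ext z
  constructor
  · rintro ⟨γ, hγ, h2, h3⟩
    refine ⟨γ0⁻¹ z, ⟨γ0⁻¹ * γ, Γ.mul_mem (Γ.inv_mem h0) hγ, ?_, ?_⟩, by simp⟩
    · rw [Equiv.Perm.mul_apply, h2, ← h1]; simp
    · rw [Equiv.Perm.mul_apply, h3]
  · rintro ⟨w, ⟨g, hg, h2, h3⟩, rfl⟩
    refine ⟨γ0 * g, Γ.mul_mem h0 hg, ?_, ?_⟩
    · rw [Equiv.Perm.mul_apply, h2, h1]
    · rw [Equiv.Perm.mul_apply, h3]

include trans fin in
lemma refl_finite (o y : V) : {z | Refl Γ o y z}.Finite := by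
  obtain ⟨γ0, _, _, h⟩ := refl_image trans o y
  rw [h]; exact (fin y o).image _

include trans in
lemma refl_ncard (o y : V) : {z | Refl Γ o y z}.ncard = (orb Γ y o).ncard := by
  obtain ⟨γ0, _, _, h⟩ := refl_image trans o y
  rw [h]; exact Set.ncard_image_of_injective _ γ0.injective

lemma orb_ncard_of_refl {o y z : V} (h : Refl Γ o y z) :
    (orb Γ z o).ncard = (orb Γ o y).ncard := by
  obtain ⟨γ, hγ, h1, h2⟩ := h
  have : orb Γ z o = γ '' orb Γ o y := by
    ext w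
    constructor
    · rintro ⟨g, hg, h3, h4⟩
      refine ⟨γ⁻¹ w, ⟨γ⁻¹ * g * γ, Γ.mul_mem (Γ.mul_mem (Γ.inv_mem hγ) hg) hγ, ?_, ?_⟩, by simp⟩
      · simp only [Equiv.Perm.mul_apply, h2, h3]
        rw [← h2]; simp
      · simp only [Equiv.Perm.mul_apply, h1, h4]
    · rintro ⟨x, ⟨g, hg, h3, h4⟩, rfl⟩
      refine ⟨γ * g * γ⁻¹, Γ.mul_mem (Γ.mul_mem hγ hg) (Γ.inv_mem hγ), ?_, ?_⟩
      · have e : γ⁻¹ z = o := by rw [← h2]; simp
        simp only [Equiv.Perm.mul_apply, e, h3, h2]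
      · have e : γ⁻¹ o = y := by rw [← h1]; simp
        simp only [Equiv.Perm.mul_apply, e, h4]
  rw [this]; exact Set.ncard_image_of_injective _ γ.injective

include trans fin in
lemma refl_avg (o y : V) (c : ℝ≥0∞) :
    ∑' z, (open Classical in if Refl Γ o y z then
      (({z | Refl Γ o y z}.ncard : ℝ≥0∞))⁻¹ * c else 0) = c := by
  classical
  have hf := refl_finite trans fin o y
  have hne : {z | Refl Γ o y z}.Nonempty := by
    obtain ⟨γ0, h0, h1⟩ := trans y o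
    exact ⟨γ0 o, γ0, h0, h1, rfl⟩
  have hn : {z | Refl Γ o y z}.ncard ≠ 0 := by
    rw [Ne, Set.ncard_eq_zero hf]; exact hne.ne_empty
  rw [tsum_eq_sum (s := hf.toFinset)]
  · rw [Finset.sum_congr rfl (g := fun _ => (({z | Refl Γ o y z}.ncard : ℝ≥0∞))⁻¹ * c)]
    · rw [Finset.sum_const, nsmul_eq_mul, ← Set.ncard_eq_toFinset_card _ hf, ← mul_assoc,
        ENNReal.mul_inv_cancel (by exact_mod_cast hn) (ENNReal.natCast_ne_top _), one_mul]
    · intro z hz
      rw [Set.Finite.mem_toFinset, Set.mem_setOf_eq] at hz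
      rw [if_pos hz]
  · intro z hz
    rw [Set.Finite.mem_toFinset, Set.mem_setOf_eq] at hz
    rw [if_neg hz]

include trans fin unimod in
/-- Mass transport principle. -/
theorem mtp (F : V → V → ℝ≥0∞) (hF : ∀ γ ∈ Γ, ∀ x y, F (γ x) (γ y) = F x y) (o : V) :
    ∑' y, F o y = ∑' y, F y o := by
  classical
  calc ∑' y, F o y = ∑' y, ∑' z, (if Refl Γ o y z then
        (({z | Refl Γ o y z}.ncard : ℝ≥0∞))⁻¹ * F o y else 0) := by
        refine tsum_congr fun y => ?_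
        exact (refl_avg trans fin o y _).symm
    _ = ∑' y, ∑' z, (if Refl Γ o z y then
        (({y | Refl Γ o z y}.ncard : ℝ≥0∞))⁻¹ * F z o else 0) := by
        refine tsum_congr fun y => tsum_congr fun z => ?_
        by_cases h : Refl Γ o y z
        · rw [if_pos h, if_pos (refl_symm h)]
          have e1 : F o y = F z o := by
            obtain ⟨γ, hγ, h1, h2⟩ := h
            rw [← hF γ hγ, h1, h2]
          rw [e1, refl_ncard trans, refl_ncard trans, orb_ncard_of_refl h, unimod]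
        · rw [if_neg h, if_neg fun h' => h (refl_symm h')]
    _ = ∑' z, ∑' y, (if Refl Γ o z y then
        (({y | Refl Γ o z y}.ncard : ℝ≥0∞))⁻¹ * F z o else 0) := ENNReal.tsum_comm
    _ = ∑' z, F z o := by
        refine tsum_congr fun z => ?_
        exact refl_avg trans fin o z _

end Pool.Agent.TH996.Park
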