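import Pool.Agent.TH996.Inv

/-!
The second moment of the noise.
-/

namespace Pool.Agent.TH996.Park

open MeasureTheory Measure Finset

variable {V : Type*} [DecidableEq V] [MeasurableSpace V] [MeasurableSingletonClass V] [Countable V]

/-- replace the two variables at `α` -/
def upd (α : ℕ × V × ℕ) (ω : Om V) (q : V × Bool) : Om V :=
  (ω.1, (Function.update ω.2.1 α q.1, Function.update ω.2.2 α q.2))

section

variable (S : Tri V) {p κ : ℝ} (hp : 0 ≤ p ∧ p ≤ 1) (hκ : 0 ≤ κ ∧ κ ≤ 1)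

include hp hκ in
lemma law_prob : IsProbabilityMeasure (S.law p κ) := by
  have := bern_prob hp.1 hp.2
  have := bern_prob hκ.1 hκ.2
  unfold Tri.law
  infer_instance

include hp hκ in
lemma resamp_upd (α : ℕ × V × ℕ) :
    Resamp (S.law p κ) ((stepLaw S.nb S.K α.2.1).prod (bern κ)) (upd α) := by
  have := bern_prob hp.1 hp.2
  have := bern_prob hκ.1 hκ.2
  have := law_prob S hp hκ
  have r1 := ((Resamp.pi (fun a : ℕ × V × ℕ => stepLaw S.nb S.K a.2.1) α).left
    (infinitePi fun _ : ℕ × V × ℕ => bern κ)).right (infinitePi fun _ : V => bern p)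
  have r2 := ((Resamp.pi (fun _ : ℕ × V × ℕ => bern κ) α).right
    (infinitePi fun a : ℕ × V × ℕ => stepLaw S.nb S.K a.2.1)).right
    (infinitePi fun _ : V => bern p)
  exact r1.comp r2

omit [MeasurableSpace V] [MeasurableSingletonClass V] [Countable V] in
lemma Cn_upd (nb : V → Finset V) {s t : ℕ} (h : s ≤ t) (x y : V) (i : ℕ) (ω : Om V)
    (q : V × Bool) : Cn nb s x (upd (t, y, i) ω q) = Cn nb s x ω := by
  refine congrFun (congrArg Prod.fst (st_congr nb (c0 ω.1) (f0 ω.1) s ?_)) x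
  intro t' ht' y' i'
  have hne : (t', y', i') ≠ (t, y, i) := by
    intro e; simp only [Prod.mk.injEq] at e; omega
  simp [upd, Function.update_of_ne hne]

include hκ in
lemma integral_step (y : V) (g : V × Bool → ℝ) (hg : BM g) :
    ∫ q, g q ∂((stepLaw S.nb S.K y).prod (bern κ)) =
      ∑ v ∈ S.nb y, S.K y v * (κ * g (v, true) + (1 - κ) * g (v, false)) := by
  have := bern_prob hκ.1 hκ.2
  rw [integral_prod _ (hg.integrable _)]
  simp_rw [integral_bern hκ.1 hκ.2]
  exact S.integral_stepLaw y _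

/-- contribution of a car that steps from `y` -/
noncomputable def hf (a : ℝ) (o : V) (J : ℕ) (y : V) (q : V × Bool) : ℝ :=
  if q.2 = false ∧ q.1 ∈ S.nb y then S.U a o J q.1 else 0

/-- its mean -/
noncomputable def hb (a : ℝ) (o : V) (J : ℕ) (y : V) : ℝ := a * S.Q (S.U a o J) y

lemma bm_hf {a : ℝ} (ha : 0 ≤ a) (ha1 : a ≤ 1) (o : V) (J : ℕ) (y : V) : BM (hf S a o J y) := by
  refine ⟨measurable_of_countable _, S.U a o J o, fun q => ?_⟩
  unfold hf
  split_ifs
  · rw [abs_of_nonneg (S.U_nonneg ha o J _)]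
    exact S.U_le_diag ha ha1 o J _
  · simpa using S.U_nonneg ha o J o

include hκ in
lemma integral_hf (o : V) (J : ℕ) (y : V) :
    ∫ q, (hf S (1 - κ) o J y q - hb S (1 - κ) o J y) ∂((stepLaw S.nb S.K y).prod (bern κ)) = 0 := by
  have hb1 := bm_hf S (a := 1 - κ) (by linarith [hκ.2]) (by linarith [hκ.1]) o J y
  rw [integral_step S hκ y _ (hb1.sub (BM.const _))]
  have e : ∀ v ∈ S.nb y, S.K y v * (κ * (hf S (1 - κ) o J y (v, true) - hb S (1 - κ) o J y) +
      (1 - κ) * (hf S (1 - κ) o J y (v, false) - hb S (1 - κ) o J y)) =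
      (1 - κ) * (S.K y v * S.U (1 - κ) o J v) - S.K y v * hb S (1 - κ) o J y := by
    intro v hv
    simp only [hf, hv]
    simp
    ring
  rw [sum_congr rfl e, sum_sub_distrib, ← mul_sum, ← sum_mul, S.sum_one, one_mul]
  simp [hb, Tri.Q]

include hκ in
lemma integral_hf_sq (o : V) (J : ℕ) (y : V) :
    ∫ q, (hf S (1 - κ) o J y q - hb S (1 - κ) o J y) ^ 2 ∂((stepLaw S.nb S.K y).prod (bern κ)) =
      (1 - κ) * S.Q (fun z => S.U (1 - κ) o J z ^ 2) y - ((1 - κ) * S.Q (S.U (1 - κ) o J) y) ^ 2 := by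
  have hb1 := bm_hf S (a := 1 - κ) (by linarith [hκ.2]) (by linarith [hκ.1]) o J y
  rw [integral_step S hκ y _ ((hb1.sub (BM.const _)).pow 2)]
  have e : ∀ v ∈ S.nb y, S.K y v * (κ * (hf S (1 - κ) o J y (v, true) - hb S (1 - κ) o J y) ^ 2 +
      (1 - κ) * (hf S (1 - κ) o J y (v, false) - hb S (1 - κ) o J y) ^ 2) =
      (1 - κ) * (S.K y v * S.U (1 - κ) o J v ^ 2) -
        2 * hb S (1 - κ) o J y * ((1 - κ) * (S.K y v * S.U (1 - κ) o J v)) +
        S.K y v * hb S (1 - κ) o J y ^ 2 := by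
    intro v hv
    simp only [hf, hv]
    simp
    ring
  rw [sum_congr rfl e, sum_add_distrib, sum_sub_distrib, ← mul_sum, ← mul_sum, ← mul_sum, ← sum_mul,
    S.sum_one, one_mul]
  have e2 : ∑ i ∈ S.nb y, S.K y i * S.U (1 - κ) o J i = S.Q (S.U (1 - κ) o J) y := rfl
  have e3 : ∑ i ∈ S.nb y, S.K y i * S.U (1 - κ) o J i ^ 2 =
    S.Q (fun z => S.U (1 - κ) o J z ^ 2) y := rfl
  rw [e2, e3]
  unfold hb
  ring

/-- indicator that the `i`-th car at `y` exists at time `t` -/
noncomputable def ind (α : ℕ × V × ℕ) (ω : Om V) : ℝ :=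
  if α.2.2 < Cn S.nb α.1 α.2.1 ω then 1 else 0

/-- martingale increment -/
noncomputable def inc (a : ℝ) (o : V) (J : ℕ) (α : ℕ × V × ℕ) (ω : Om V) : ℝ :=
  ind S α ω * (hf S a o J α.2.1 (ω.2.1 α, ω.2.2 α) - hb S a o J α.2.1)

omit [Countable V] in
lemma bm_ind (α : ℕ × V × ℕ) : BM (ind S α) := by
  refine ⟨?_, 1, fun ω => ?_⟩
  · refine Measurable.ite ?_ measurable_const measurable_const
    have h := (measurable_CF S.nb α.1).1 α.2.1
    exact h (measurableSet_Ioi (a := α.2.2))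
  · unfold ind; split_ifs <;> simp

omit [MeasurableSingletonClass V] in
lemma bm_coord [MeasurableSingletonClass V] (α : ℕ × V × ℕ) {g : V × Bool → ℝ} (hg : BM g) :
    BM (fun ω : Om V => g (ω.2.1 α, ω.2.2 α)) :=
  hg.comp ((meas_xi α).prodMk (meas_b α))

lemma bm_inc {a : ℝ} (ha : 0 ≤ a) (ha1 : a ≤ 1) (o : V) (J : ℕ) (α : ℕ × V × ℕ) :
    BM (inc S a o J α) :=
  (bm_ind S α).mul ((bm_coord α (bm_hf S ha ha1 o J α.2.1)).sub (BM.const _))

omit [MeasurableSpace V] [MeasurableSingletonClass V] [Countable V] in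
lemma ind_upd (α β : ℕ × V × ℕ) (h : β.1 ≤ α.1) (ω : Om V) (q : V × Bool) :
    ind S β (upd α ω q) = ind S β ω := by
  unfold ind
  rw [show upd α = upd (α.1, α.2.1, α.2.2) from rfl, Cn_upd S.nb h]

omit [MeasurableSpace V] [MeasurableSingletonClass V] [Countable V] in
lemma inc_upd (a : ℝ) (o : V) (J : ℕ) (α β : ℕ × V × ℕ) (h : β.1 ≤ α.1) (hne : β ≠ α)
    (ω : Om V) (q : V × Bool) : inc S a o J β (upd α ω q) = inc S a o J β ω := by
  unfold inc
  rw [ind_upd S α β h]
  simp [upd, Function.update_of_ne hne]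

include hp hκ in
lemma orth_aux (o : V) (J : ℕ) (α β : ℕ × V × ℕ) (h : β.1 ≤ α.1) (hne : β ≠ α) :
    ∫ ω, inc S (1 - κ) o J β ω * inc S (1 - κ) o J α ω ∂(S.law p κ) = 0 := by
  have := bern_prob hκ.1 hκ.2
  have := law_prob S hp hκ
  have ha : 0 ≤ 1 - κ := by linarith [hκ.2]
  have ha1 : 1 - κ ≤ 1 := by linarith [hκ.1]
  have hb1 := bm_hf S ha ha1 o J α.2.1
  have e : ∀ ω, inc S (1 - κ) o J β ω * inc S (1 - κ) o J α ω =
      (inc S (1 - κ) o J β ω * ind S α ω) *
        (hf S (1 - κ) o J α.2.1 (ω.2.1 α, ω.2.2 α) - hb S (1 - κ) o J α.2.1) := by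
    intro ω; unfold inc; ring
  simp_rw [e]
  rw [(resamp_upd S hp hκ α).integral_mul ((bm_inc S ha ha1 o J β).mul (bm_ind S α))
    ((bm_coord α hb1).sub (BM.const _)) (fun q => hf S (1 - κ) o J α.2.1 q -
      hb S (1 - κ) o J α.2.1), integral_hf S hκ, mul_zero]
  · intro ω q
    rw [inc_upd S _ o J α β h hne, ind_upd S α α le_rfl]
  · intro ω q
    simp [upd]

include hp hκ in
lemma orth (o : V) (J : ℕ) (α β : ℕ × V × ℕ) (hne : β ≠ α) :
    ∫ ω, inc S (1 - κ) o J β ω * inc S (1 - κ) o J α ω ∂(S.law p κ) = 0 := by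
  rcases le_total β.1 α.1 with h | h
  · exact orth_aux S hp hκ o J α β h hne
  · have := orth_aux S hp hκ o J β α h hne.symm
    simpa only [mul_comm] using this

include hp hκ in
lemma diag_inc (o : V) (J : ℕ) (α : ℕ × V × ℕ) :
    ∫ ω, inc S (1 - κ) o J α ω * inc S (1 - κ) o J α ω ∂(S.law p κ) =
      (∫ ω, ind S α ω ∂(S.law p κ)) * ((1 - κ) * S.Q (fun z => S.U (1 - κ) o J z ^ 2) α.2.1 -
        ((1 - κ) * S.Q (S.U (1 - κ) o J) α.2.1) ^ 2) := by
  have := bern_prob hκ.1 hκ.2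
  have := law_prob S hp hκ
  have ha : 0 ≤ 1 - κ := by linarith [hκ.2]
  have ha1 : 1 - κ ≤ 1 := by linarith [hκ.1]
  have hb1 := bm_hf S ha ha1 o J α.2.1
  have e : ∀ ω, inc S (1 - κ) o J α ω * inc S (1 - κ) o J α ω =
      ind S α ω *
        (hf S (1 - κ) o J α.2.1 (ω.2.1 α, ω.2.2 α) - hb S (1 - κ) o J α.2.1) ^ 2 := by
    intro ω
    unfold inc
    have : ind S α ω * ind S α ω = ind S α ω := by unfold ind; split_ifs <;> simp
    calc _ = (ind S α ω * ind S α ω) *
        (hf S (1 - κ) o J α.2.1 (ω.2.1 α, ω.2.2 α) - hb S (1 - κ) o J α.2.1) ^ 2 := by ring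
      _ = _ := by rw [this]
  simp_rw [e]
  rw [(resamp_upd S hp hκ α).integral_mul (bm_ind S α)
    (((bm_coord α hb1).sub (BM.const _)).pow 2) (fun q => (hf S (1 - κ) o J α.2.1 q -
      hb S (1 - κ) o J α.2.1) ^ 2), integral_hf_sq S hκ]
  · intro ω q
    rw [ind_upd S α α le_rfl]
  · intro ω q
    simp [upd]

include hp hκ in
lemma sum_inc_sq (o : V) (J : ℕ) (A : Finset (ℕ × V × ℕ)) :
    ∫ ω, (∑ α ∈ A, inc S (1 - κ) o J α ω) ^ 2 ∂(S.law p κ) =
      ∑ α ∈ A, (∫ ω, ind S α ω ∂(S.law p κ)) *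
        ((1 - κ) * S.Q (fun z => S.U (1 - κ) o J z ^ 2) α.2.1 -
        ((1 - κ) * S.Q (S.U (1 - κ) o J) α.2.1) ^ 2) := by
  have := law_prob S hp hκ
  have ha : 0 ≤ 1 - κ := by linarith [hκ.2]
  have ha1 : 1 - κ ≤ 1 := by linarith [hκ.1]
  have hbm := fun α => bm_inc S ha ha1 o J α
  simp_rw [sq (∑ α ∈ A, _), sum_mul_sum]
  rw [integral_finsetSum _ fun α _ =>
    (BM.sum A fun β _ => (hbm α).mul (hbm β)).integrable _]
  refine sum_congr rfl fun α hα => ?_
  rw [integral_finsetSum _ fun β _ => ((hbm α).mul (hbm β)).integrable _,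
    sum_eq_single α]
  · exact diag_inc S hp hκ o J α
  · intro β _ hne
    exact orth S hp hκ o J β α hne.symm
  · intro h; exact absurd hα h

omit [MeasurableSpace V] [MeasurableSingletonClass V] [Countable V] in
lemma ind_sum (t : ℕ) (y : V) (N : ℕ) (h : bd S.nb t y ≤ N) (ω : Om V) (f : ℕ → ℝ) :
    ∑ i ∈ range N, ind S (t, y, i) ω * f i = ∑ i ∈ range (Cn S.nb t y ω), f i := by
  have h1 : Cn S.nb t y ω ≤ N := (cs_le_bd S.nb _ _ _ _ (c0_le ω.1) t y).trans h
  rw [← sum_subset (range_subset_range.2 h1)]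
  · refine sum_congr rfl fun i hi => ?_
    rw [mem_range] at hi
    simp [ind, hi]
  · intro i _ hi
    rw [mem_range] at hi
    simp [ind, hi]

omit [MeasurableSpace V] [MeasurableSingletonClass V] [Countable V] in
lemma step_identity (a : ℝ) (o : V) (J : ℕ) (L : Finset V) (hL : S.ball o (J + 1) ⊆ L) (t : ℕ)
    (ω : Om V) :
    ∑ x ∈ L, S.U a o J x * ((An S.nb t x ω : ℝ) - a * S.P (fun y => (Cn S.nb t y ω : ℝ)) x) =
      ∑ y ∈ L, ∑ i ∈ range (Cn S.nb t y ω),
        (hf S a o J y (ω.2.1 (t, y, i), ω.2.2 (t, y, i)) - hb S a o J y) := by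
  have h1 : ∑ x ∈ L, S.U a o J x * (An S.nb t x ω : ℝ) =
      ∑ y ∈ L, ∑ i ∈ range (Cn S.nb t y ω), hf S a o J y (ω.2.1 (t, y, i), ω.2.2 (t, y, i)) := by
    have e1 : ∀ x ∈ L, S.U a o J x * (An S.nb t x ω : ℝ) = ∑ y ∈ L,
        ∑ i ∈ range (Cn S.nb t y ω), (if ω.2.1 (t, y, i) = x then
          hf S a o J y (ω.2.1 (t, y, i), ω.2.2 (t, y, i)) else 0) := by
      intro x _
      by_cases hx : x ∈ S.ball o J
      · have hs : S.nb x ⊆ L := (S.nb_subset_ball o J hx).trans hL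
        have e2 : (An S.nb t x ω : ℝ) = ∑ y ∈ S.nb x, ∑ i ∈ range (Cn S.nb t y ω),
            (if ω.2.2 (t, y, i) = false ∧ ω.2.1 (t, y, i) = x then (1 : ℝ) else 0) := by
          have : An S.nb t x ω = ∑ y ∈ S.nb x, ((range (Cn S.nb t y ω)).filter
            fun i => ω.2.2 (t, y, i) = false ∧ ω.2.1 (t, y, i) = x).card := rfl
          rw [this]
          push_cast
          refine sum_congr rfl fun y _ => ?_
          rw [card_filter]
          push_cast
          rfl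
        rw [e2, mul_sum, ← sum_subset hs]
        · refine sum_congr rfl fun y hy => ?_
          rw [mul_sum]
          refine sum_congr rfl fun i _ => ?_
          by_cases h3 : ω.2.1 (t, y, i) = x
          · rw [if_pos h3]
            have h4 : ω.2.1 (t, y, i) ∈ S.nb y := by rw [h3]; exact S.symm _ _ hy
            unfold hf
            by_cases h5 : ω.2.2 (t, y, i) = false
            · simp [h5, h3, S.symm _ _ hy]
            · simp [h5]
          · simp [h3]
        · intro y _ hy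
          refine sum_eq_zero fun i _ => ?_
          split_ifs with h3
          · unfold hf
            rw [if_neg]
            rintro ⟨_, h4⟩
            simp only [h3] at h4
            exact hy (S.symm _ _ h4)
          · rfl
      · rw [S.U_eq_zero a o J x hx, zero_mul]
        symm
        refine sum_eq_zero fun y _ => sum_eq_zero fun i _ => ?_
        split_ifs with h3
        · unfold hf
          simp only [h3, S.U_eq_zero a o J x hx]
          split_ifs <;> rfl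
        · rfl
    rw [sum_congr rfl e1, Finset.sum_comm]
    refine sum_congr rfl fun y _ => ?_
    rw [Finset.sum_comm]
    refine sum_congr rfl fun i _ => ?_
    rw [sum_ite_eq]
    split_ifs with h3
    · rfl
    · have : ω.2.1 (t, y, i) ∉ S.ball o J := fun h => h3 (hL (S.ball_succ o J h))
      unfold hf
      simp only [S.U_eq_zero a o J _ this]
      split_ifs <;> rfl
  have h2 : ∑ x ∈ L, S.U a o J x * (a * S.P (fun y => (Cn S.nb t y ω : ℝ)) x) =
      ∑ y ∈ L, ∑ i ∈ range (Cn S.nb t y ω), hb S a o J y := by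
    have := S.adj (S.U a o J) (fun y => (Cn S.nb t y ω : ℝ)) (S.ball o J) L
      (fun x hx => S.U_eq_zero a o J x hx) (fun x hx => (S.nb_subset_ball o J hx).trans hL)
    calc _ = a * ∑ x ∈ L, S.U a o J x * S.P (fun y => (Cn S.nb t y ω : ℝ)) x := by
          rw [mul_sum]; exact sum_congr rfl fun x _ => by ring
      _ = a * ∑ x ∈ S.ball o J, S.U a o J x * S.P (fun y => (Cn S.nb t y ω : ℝ)) x := by
          congr 1
          symm
          refine sum_subset ((S.ball_succ o J).trans hL) fun x _ hx => ?_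
          rw [S.U_eq_zero a o J x hx, zero_mul]
      _ = _ := by
          rw [← this, mul_sum]
          refine sum_congr rfl fun y _ => ?_
          rw [sum_const, card_range, nsmul_eq_mul]
          unfold hb
          ring
  simp_rw [mul_sub, sum_sub_distrib]
  rw [h1, h2]

/-- the noise up to time `T` -/
noncomputable def Nz (a : ℝ) (T : ℕ) (x : V) (ω : Om V) : ℝ :=
  ∑ t ∈ range T, ((An S.nb t x ω : ℝ) - a * S.P (fun y => (Cn S.nb t y ω : ℝ)) x)

omit [MeasurableSpace V] [MeasurableSingletonClass V] [Countable V] in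
lemma noise_identity (a : ℝ) (o : V) (J T : ℕ) :
    ∃ N : ℕ, ∀ ω : Om V, S.R a J (fun x => Nz S a T x ω) o =
      ∑ α ∈ range T ×ˢ (S.ball o (J + 1) ×ˢ range N), inc S a o J α ω := by
  refine ⟨∑ t ∈ range T, ∑ y ∈ S.ball o (J + 1), bd S.nb t y, fun ω => ?_⟩
  rw [S.R_eq_sum a o J _ (S.ball o (J + 1)) (S.ball_succ o J)]
  unfold Nz
  simp_rw [mul_sum]
  rw [Finset.sum_comm, sum_product]
  refine sum_congr rfl fun t ht => ?_
  rw [sum_product, step_identity S a o J _ subset_rfl t ω]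
  refine sum_congr rfl fun y hy => ?_
  symm
  have hN : bd S.nb t y ≤ ∑ t ∈ range T, ∑ y ∈ S.ball o (J + 1), bd S.nb t y :=
    (single_le_sum (f := fun y => bd S.nb t y) (fun _ _ => Nat.zero_le _) hy).trans
      (single_le_sum (f := fun t => ∑ y ∈ S.ball o (J + 1), bd S.nb t y)
        (fun _ _ => Nat.zero_le _) ht)
  exact ind_sum S t y _ hN ω _

include hp hκ in
/-- invariance of the mean number of cars -/
lemma mean_inv (t : ℕ) (x y : V) :
    ∫ ω, (Cn S.nb t x ω : ℝ) ∂(S.law p κ) = ∫ ω, (Cn S.nb t y ω : ℝ) ∂(S.law p κ) := by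
  obtain ⟨γ, hγ, rfl⟩ := S.trans x y
  rw [← integral_shift S hγ hp.1 hp.2 hκ.1 hκ.2 (bm_C S.nb t (γ x))]
  simp_rw [Cn_shift S hγ]

/-- mean number of cars at time `t` -/
noncomputable def aT (p κ : ℝ) (o : V) (t : ℕ) : ℝ := ∫ ω, (Cn S.nb t o ω : ℝ) ∂(S.law p κ)

include hp hκ in
lemma noise_sq (o : V) (J T : ℕ) :
    ∫ ω, (S.R (1 - κ) J (fun x => Nz S (1 - κ) T x ω) o) ^ 2 ∂(S.law p κ) ≤
      (∑ t ∈ range T, aT S p κ o t) * (2 * S.U (1 - κ) o (J + 1) o - 1) := by
  have := law_prob S hp hκ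
  have ha : 0 ≤ 1 - κ := by linarith [hκ.2]
  have ha1 : 1 - κ ≤ 1 := by linarith [hκ.1]
  obtain ⟨N, hN⟩ := noise_identity S (1 - κ) o J T
  simp_rw [hN]
  rw [sum_inc_sq S hp hκ, sum_product]
  -- enlarge `N` is not needed: use the sum over `i`
  have key : ∀ t ∈ range T, ∑ q ∈ S.ball o (J + 1) ×ˢ range N,
      (∫ ω, ind S (t, q) ω ∂(S.law p κ)) *
        ((1 - κ) * S.Q (fun z => S.U (1 - κ) o J z ^ 2) q.1 -
        ((1 - κ) * S.Q (S.U (1 - κ) o J) q.1) ^ 2) ≤ aT S p κ o t *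
        ∑ y ∈ S.ball o (J + 1), ((1 - κ) * S.Q (fun z => S.U (1 - κ) o J z ^ 2) y -
        ((1 - κ) * S.Q (S.U (1 - κ) o J) y) ^ 2) := by
    intro t _
    rw [sum_product, mul_sum]
    refine sum_le_sum fun y _ => ?_
    have hv : 0 ≤ (1 - κ) * S.Q (fun z => S.U (1 - κ) o J z ^ 2) y -
        ((1 - κ) * S.Q (S.U (1 - κ) o J) y) ^ 2 := by
      rw [← integral_hf_sq S hκ]
      exact integral_nonneg fun q => sq_nonneg _
    dsimp only
    rw [← sum_mul]
    refine mul_le_mul_of_nonneg_right ?_ hv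
    rw [← integral_finsetSum _ fun i _ => (bm_ind S (t, y, i)).integrable _]
    unfold aT
    rw [mean_inv S hp hκ t o y]
    refine integral_mono ((BM.sum _ fun i _ => bm_ind S (t, y, i)).integrable _)
      ((bm_C S.nb t y).integrable _) fun ω => ?_
    have h1 := ind_sum S t y (max N (bd S.nb t y)) (le_max_right _ _) ω (fun _ => 1)
    simp only [mul_one, sum_const, card_range, nsmul_eq_mul] at h1
    simp only
    rw [← h1]
    refine sum_le_sum_of_subset_of_nonneg (range_subset_range.2 (le_max_left _ _)) ?_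
    intro i _ _
    unfold ind; split_ifs <;> simp
  calc _ ≤ ∑ t ∈ range T, aT S p κ o t *
        ∑ y ∈ S.ball o (J + 1), ((1 - κ) * S.Q (fun z => S.U (1 - κ) o J z ^ 2) y -
        ((1 - κ) * S.Q (S.U (1 - κ) o J) y) ^ 2) := sum_le_sum key
    _ = (∑ t ∈ range T, aT S p κ o t) *
        ∑ y ∈ S.ball o (J + 1), ((1 - κ) * S.Q (fun z => S.U (1 - κ) o J z ^ 2) y -
        ((1 - κ) * S.Q (S.U (1 - κ) o J) y) ^ 2) := (sum_mul _ _ _).symm
    _ ≤ _ := by
        refine mul_le_mul_of_nonneg_left (S.noise_det ha ha1 o J _ subset_rfl) ?_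
        exact sum_nonneg fun t _ => integral_nonneg fun ω => Nat.cast_nonneg _

end

end Pool.Agent.TH996.Park
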