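import Mathlib

/-!
The parking process: definitions used in the statements.
-/

namespace Pool.Agent.TH996.Parking

open MeasureTheory
open scoped ENNReal

variable {V : Type*}

/-- `K` is a kernel on `G`: nonnegative, carried by the edges, with row sums one. -/
structure IsKernel (G : SimpleGraph V) [G.LocallyFinite] (K : V → V → ℝ) : Prop where
  nonneg : ∀ u v, 0 ≤ K u v
  supp : ∀ u v, ¬ G.Adj u v → K u v = 0
  sum_one : ∀ u, ∑ v ∈ G.neighborFinset u, K u v = 1

/-- `Γ` is a group of automorphisms of the graph `G` that preserve `K`. -/
structure IsAut (G : SimpleGraph V) (K : V → V → ℝ) (Γ : Subgroup (Equiv.Perm V)) : Prop where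
  adj : ∀ φ ∈ Γ, ∀ u v, G.Adj (φ u) (φ v) ↔ G.Adj u v
  ker : ∀ φ ∈ Γ, ∀ u v, K (φ u) (φ v) = K u v

/-- For all `u, v` some element of `Γ` sends `u` to `v`. -/
def IsTransitive (Γ : Subgroup (Equiv.Perm V)) : Prop := ∀ u v, ∃ φ ∈ Γ, φ u = v

/-- The orbit of `v` under the stabiliser of `u` in `Γ`. -/
def stabOrbit (Γ : Subgroup (Equiv.Perm V)) (u v : V) : Set V :=
  {w | ∃ φ ∈ Γ, φ u = u ∧ φ v = w}

/-- For all `u, v` the orbit of `v` under the stabiliser of `u` and the orbit of `u` under the
stabiliser of `v` are finite and have the same number of elements. -/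
def IsUnimodular (Γ : Subgroup (Equiv.Perm V)) : Prop :=
  ∀ u v, (stabOrbit Γ u v).Finite ∧ (stabOrbit Γ u v).ncard = (stabOrbit Γ v u).ncard

/-- `u` is accessible from `v`: there is a path from `v` to `u` in `G` along which `K` is
positive. -/
def Accessible (G : SimpleGraph V) (K : V → V → ℝ) (v u : V) : Prop :=
  Relation.ReflTransGen (fun x y => G.Adj x y ∧ 0 < K x y) v u

/-- Some `φ` in `Γ` and some `u` are such that the set of all `φ ^ n u` with `n ≥ 0` is infinite
and `u` is accessible from `φ u`. -/
def IsInfinitelyAccessible (G : SimpleGraph V) (K : V → V → ℝ) (Γ : Subgroup (Equiv.Perm V)) :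
    Prop :=
  ∃ φ ∈ Γ, ∃ u, (Set.range fun n : ℕ => (φ ^ n) u).Infinite ∧ Accessible G K (φ u) u

open Classical in
/-- The `n`-step transition probabilities of the random walk with kernel `K`. -/
noncomputable def stepProb (G : SimpleGraph V) [G.LocallyFinite] (K : V → V → ℝ) :
    ℕ → V → V → ℝ
  | 0, u, v => if u = v then 1 else 0
  | n + 1, u, v => ∑ w ∈ G.neighborFinset u, K u w * stepProb G K n w v

/-- The randomness of one time step: `m (c, y)` is the vertex to which the car `c` moves if it is
unparked at `y`, and `r c` is the number that the car `c` draws to break ties. -/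
abbrev Noise (V : Type*) : Type _ := (V × V → V) × (V → ℝ)

/-- A state of the process: the positions of the cars, which cars are present and unparked, and
which parking spots are free. A car is named after the vertex at which it starts. -/
abbrev State (V : Type*) : Type _ := (V → V) × (V → Bool) × (V → Bool)

/-- The position of the car `c` after one step. -/
def newPos (s : State V) (n : Noise V) (c : V) : V := if s.2.1 c then n.1 (c, s.1 c) else s.1 c

/-- The set of the cars that visit `x` in one step. -/
def visitors (s : State V) (n : Noise V) (x : V) : Set V :=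
  {c | s.2.1 c = true ∧ newPos s n c = x}

open Classical in
/-- One step. Every unparked car moves. If the spot at `x` is free, then of the cars that arrive at
`x` the one that has drawn the smallest number parks there. -/
noncomputable def next (s : State V) (n : Noise V) : State V :=
  (newPos s n,
    (fun c => s.2.1 c && !decide (s.2.2 (newPos s n c) = true ∧
      ∀ d ∈ visitors s n (newPos s n c), d ≠ c → n.2 c < n.2 d)),
    fun x => s.2.2 x && decide (visitors s n x = ∅))

/-- The state at time `t`, when `η x` says whether there is a car at `x` at time `0` (otherwise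
there is a free parking spot at `x`) and `ω t` is the randomness of the step from time `t` to time
`t + 1`. -/
noncomputable def state (η : V → Bool) (ω : ℕ → Noise V) : ℕ → State V
  | 0 => (id, η, fun x => !η x)
  | t + 1 => next (state η ω t) (ω t)

/-- The number of visits to `x` during all times `t + 1`, `t ≥ 0`. -/
noncomputable def totalVisits (x : V) (ω : (V → Bool) × (ℕ → Noise V)) : ℝ≥0∞ :=
  ∑' t : ℕ, (((visitors (state ω.1 ω.2 t) (ω.2 t) x).encard : ℕ∞) : ℝ≥0∞)

/-- The law of a variable that is `true` with probability `p` and `false` otherwise. -/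
noncomputable def coin (p : ℝ) : Measure Bool :=
  ENNReal.ofReal p • Measure.dirac true + ENNReal.ofReal (1 - p) • Measure.dirac false

variable [MeasurableSpace V]

/-- The law of one step of the random walk with kernel `K` from `y`. -/
noncomputable def moveLaw (G : SimpleGraph V) [G.LocallyFinite] (K : V → V → ℝ) (y : V) :
    Measure V :=
  ∑ v ∈ G.neighborFinset y, ENNReal.ofReal (K y v) • Measure.dirac v

/-- The law of the process at density `p`: all initial states of the vertices, all moves and all
numbers drawn to break ties (uniformly in `[0, 1]`) are independent. -/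
noncomputable def parkingLaw (G : SimpleGraph V) [G.LocallyFinite] (K : V → V → ℝ) (p : ℝ) :
    Measure ((V → Bool) × (ℕ → Noise V)) :=
  (Measure.infinitePi fun _ : V => coin p).prod
    (Measure.infinitePi fun _ : ℕ =>
      (Measure.infinitePi fun q : V × V => moveLaw G K q.2).prod
        (Measure.infinitePi fun _ : V => volume.restrict (Set.Icc (0 : ℝ) 1)))

/-- The expected total number of visits to `x` in the parking process at density `p`. -/
noncomputable def expectedVisits (G : SimpleGraph V) [G.LocallyFinite] (K : V → V → ℝ) (p : ℝ)
    (x : V) : ℝ≥0∞ :=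
  ∫⁻ ω, totalVisits x ω ∂(parkingLaw G K p)

end Pool.Agent.TH996.Parking
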