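import Mathlib

/-!
Product measures: resampling one coordinate, reindexing; bounded measurable functions.
-/

namespace Pool.Agent.TH996.Park

open MeasureTheory Measure Finset

section update

variable {ι X : Type*} [DecidableEq ι] [MeasurableSpace X] (μ : ι → Measure X)
  [∀ i, IsProbabilityMeasure (μ i)]

lemma measurable_upd (a : ι) :
    Measurable (fun p : (ι → X) × X => Function.update p.1 a p.2) := by
  refine measurable_pi_lambda _ fun i => ?_
  by_cases h : i = a
  · subst h; simpa using measurable_snd
  · have : (fun p : (ι → X) × X => Function.update p.1 a p.2 i) = fun p => p.1 i := by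
      funext p; simp [h]
    rw [this]
    exact (measurable_pi_apply i).comp measurable_fst

lemma map_update (a : ι) :
    ((infinitePi μ).prod (μ a)).map (fun p => Function.update p.1 a p.2) = infinitePi μ := by
  refine eq_infinitePi μ fun s t ht => ?_
  rw [map_apply (measurable_upd a) (.pi s.countable_toSet fun _ _ ↦ ht _)]
  by_cases h : a ∈ s
  · have : (fun p : (ι → X) × X => Function.update p.1 a p.2) ⁻¹' ((s : Set ι).pi t) =
        ((s.erase a : Finset ι) : Set ι).pi t ×ˢ t a := by
      ext p
      simp only [Set.mem_preimage, Set.mem_pi, Finset.mem_coe, Set.mem_prod, Finset.mem_erase]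
      constructor
      · intro h1
        refine ⟨fun i hi => ?_, by simpa using h1 a h⟩
        have := h1 i hi.2
        rwa [Function.update_of_ne hi.1] at this
      · rintro ⟨h1, h2⟩ i hi
        by_cases hia : i = a
        · subst hia; simpa using h2
        · rw [Function.update_of_ne hia]; exact h1 i ⟨hia, hi⟩
    rw [this, prod_prod, infinitePi_pi _ (fun i _ => ht i), mul_comm]
    exact Finset.mul_prod_erase s (fun i => μ i (t i)) h
  · have : (fun p : (ι → X) × X => Function.update p.1 a p.2) ⁻¹' ((s : Set ι).pi t) =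
        ((s : Set ι).pi t) ×ˢ Set.univ := by
      ext p
      simp only [Set.mem_preimage, Set.mem_pi, Finset.mem_coe, Set.mem_prod, Set.mem_univ, and_true]
      refine forall₂_congr fun i hi => ?_
      have hia : i ≠ a := fun e => h (e ▸ hi)
      rw [Function.update_of_ne hia]
    rw [this, prod_prod, infinitePi_pi _ (fun i _ => ht i)]
    simp

end update

section reindex

variable {ι J X : Type*} [MeasurableSpace X] (μ : ι → Measure X)
  [∀ i, IsProbabilityMeasure (μ i)]

lemma map_reindex (e : J → ι) (he : Function.Injective e) :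
    (infinitePi μ).map (fun x j => x (e j)) = infinitePi (fun j => μ (e j)) := by
  classical
  refine eq_infinitePi _ fun s t ht => ?_
  have hm : Measurable (fun (x : ι → X) (j : J) => x (e j)) :=
    measurable_pi_lambda _ fun j => measurable_pi_apply _
  rw [map_apply hm (.pi s.countable_toSet fun _ _ ↦ ht _)]
  rcases isEmpty_or_nonempty J with hJ | hJ
  · have hs : s = ∅ := Finset.eq_empty_of_isEmpty s
    subst hs
    simp
  let t' : ι → Set X := fun i => t (Function.invFun e i)
  have h1 : (fun (x : ι → X) j => x (e j)) ⁻¹' ((s : Set J).pi t) =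
      ((s.image e : Finset ι) : Set ι).pi t' := by
    ext x
    simp only [Set.mem_preimage, Set.mem_pi, Finset.mem_coe, Finset.mem_image]
    constructor
    · rintro h i ⟨j, hj, rfl⟩
      simp only [t', Function.leftInverse_invFun he j]
      exact h j hj
    · intro h j hj
      have := h (e j) ⟨j, hj, rfl⟩
      simpa only [t', Function.leftInverse_invFun he j] using this
  rw [h1, infinitePi_pi _ (fun i _ => ht _), Finset.prod_image (fun a _ b _ h => he h)]
  refine Finset.prod_congr rfl fun j _ => ?_
  simp only [t', Function.leftInverse_invFun he j]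

end reindex

/-- bounded measurable -/
structure BM {Ω : Type*} [MeasurableSpace Ω] (X : Ω → ℝ) : Prop where
  meas : Measurable X
  bdd : ∃ C, ∀ ω, |X ω| ≤ C

namespace BM

variable {Ω : Type*} [MeasurableSpace Ω] {X Y : Ω → ℝ}

lemma const (c : ℝ) : BM (fun _ : Ω => c) := ⟨measurable_const, |c|, fun _ => le_rfl⟩

lemma add (hX : BM X) (hY : BM Y) : BM (fun ω => X ω + Y ω) := by
  obtain ⟨C, hC⟩ := hX.bdd
  obtain ⟨D, hD⟩ := hY.bdd
  exact ⟨hX.meas.add hY.meas, C + D, fun ω => (abs_add_le _ _).trans (add_le_add (hC ω) (hD ω))⟩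

lemma neg (hX : BM X) : BM (fun ω => -X ω) := by
  obtain ⟨C, hC⟩ := hX.bdd
  exact ⟨hX.meas.neg, C, fun ω => by rw [abs_neg]; exact hC ω⟩

lemma sub (hX : BM X) (hY : BM Y) : BM (fun ω => X ω - Y ω) := by
  simpa only [sub_eq_add_neg] using hX.add hY.neg

lemma mul (hX : BM X) (hY : BM Y) : BM (fun ω => X ω * Y ω) := by
  obtain ⟨C, hC⟩ := hX.bdd
  obtain ⟨D, hD⟩ := hY.bdd
  refine ⟨hX.meas.mul hY.meas, C * D, fun ω => ?_⟩
  rw [abs_mul]
  exact mul_le_mul (hC ω) (hD ω) (abs_nonneg _) ((abs_nonneg _).trans (hC ω))

lemma smul (c : ℝ) (hX : BM X) : BM (fun ω => c * X ω) := (const c).mul hX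

lemma sum {ι : Type*} (s : Finset ι) {F : ι → Ω → ℝ} (h : ∀ i ∈ s, BM (F i)) :
    BM (fun ω => ∑ i ∈ s, F i ω) := by
  classical
  induction s using Finset.induction_on with
  | empty => simpa using const (Ω := Ω) 0
  | insert a s ha ih =>
    simp only [Finset.sum_insert ha]
    exact (h a (by simp)).add (ih fun i hi => h i (by simp [hi]))

lemma integrable (hX : BM X) (μ : Measure Ω) [IsFiniteMeasure μ] : Integrable X μ := by
  obtain ⟨C, hC⟩ := hX.bdd
  exact Integrable.of_bound hX.meas.aestronglyMeasurable C (ae_of_all _ fun ω => by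
    rw [Real.norm_eq_abs]; exact hC ω)

lemma comp {Ω' : Type*} [MeasurableSpace Ω'] (hX : BM X) {f : Ω' → Ω} (hf : Measurable f) :
    BM (fun ω => X (f ω)) := by
  obtain ⟨C, hC⟩ := hX.bdd
  exact ⟨hX.meas.comp hf, C, fun ω => hC _⟩

lemma pow (hX : BM X) (n : ℕ) : BM (fun ω => X ω ^ n) := by
  induction n with
  | zero => simpa using const (Ω := Ω) 1
  | succ n ih => simpa only [pow_succ] using ih.mul hX

end BM

end Pool.Agent.TH996.Park
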